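import Mathlib
import Pool.Agent.H461R2.PD.Hit

/-!
Clusters of shifts at prescribed positions and the coloured Maynard-Tao theorem.
-/

namespace Pool.Agent.H602R3.Tup

open Finset Pool.Agent.H461R2.PD

/-- `N ≡ r (mod q)` and all the `N + q a i` are prime for infinitely many `N` -/
def Good (q : ℕ) (r : ℤ) {k : ℕ} (a : Fin k → ℤ) : Prop :=
  {N : ℕ | N.Prime ∧ (N : ℤ) ≡ r [ZMOD q] ∧ ∀ i, ∃ p : ℕ, p.Prime ∧ (p : ℤ) = N + q * a i}.Infinite

/-- few residue classes are no obstruction -/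
theorem exists_shift_int {T K p : ℕ} (hp : p.Prime) (hTK : T * K < p) (H : Fin T → Fin K → ℤ) :
    ∃ n : ℤ, ∀ g i, ¬ ((p : ℤ) ∣ n + H g i) := by
  have : Fact p.Prime := ⟨hp⟩
  classical
  set s : Finset (ZMod p) := univ.image fun x : Fin T × Fin K => -(H x.1 x.2 : ZMod p) with hs
  have hc : s.card < Fintype.card (ZMod p) := by
    calc s.card ≤ (univ : Finset (Fin T × Fin K)).card := card_image_le
      _ = T * K := by simp
      _ < p := hTK
      _ = _ := (ZMod.card p).symm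
  obtain ⟨n, hn⟩ : ∃ n : ZMod p, n ∉ s := by
    by_contra h
    push Not at h
    have : s = univ := by
      ext x; simp [h x]
    rw [this, card_univ] at hc
    exact lt_irrefl _ hc
  refine ⟨n.val, fun g i hd => hn ?_⟩
  rw [hs, mem_image]
  refine ⟨(g, i), mem_univ _, ?_⟩
  have h1 := (ZMod.intCast_zmod_eq_zero_iff_dvd _ p).2 hd
  push_cast at h1
  rw [ZMod.natCast_zmod_val] at h1
  rw [eq_comm, eq_neg_iff_add_eq_zero]
  exact h1

/-- at least a quarter of `T` clusters at arbitrary positions is hit by primes -/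
theorem clusters (hQ : Quarter) (T : ℕ) : ∃ Q : ℕ, 1 ≤ Q ∧ ∀ (q : ℕ) (r : ℤ), 1 ≤ q →
    IsCoprime r (q : ℤ) → ∀ pos : Fin T → ℤ,
    ∃ (S : Finset (Fin T)) (h : Fin T → ℤ), T ≤ 4 * S.card ∧ Function.Injective h ∧
      (∀ g, (Q : ℤ) * pos g ≤ h g ∧ h g < Q * pos g + Q) ∧
      {n : ℕ | ∀ g ∈ S, 0 < (q : ℤ) * n + (r + q * h g) ∧
        Prime ((q : ℤ) * n + (r + q * h g))}.Infinite := by
  obtain ⟨K, hK, hq⟩ := hQ T
  set W : ℕ := (T * K).factorial with hW
  have hWpos : 0 < W := Nat.factorial_pos _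
  set Q : ℕ := W * (T * K + 1) with hQdef
  have hQpos : 0 < Q := by positivity
  refine ⟨Q, hQpos, fun q r hq1 hqr pos => ?_⟩
  have hq0 : (0 : ℤ) < q := by exact_mod_cast hq1
  set idx : Fin T × Fin K → ℕ := fun x => (finProdFinEquiv x : ℕ) with hidx
  have hidxlt : ∀ x, idx x < T * K := fun x => (finProdFinEquiv x).2
  have hoff : ∀ x, W * idx x < Q := by
    intro x
    rw [hQdef]
    exact Nat.mul_lt_mul_of_pos_left (by have := hidxlt x; omega) hWpos
  set b : Fin T → Fin K → ℤ := fun g i => (Q : ℤ) * pos g + (W * idx (g, i) : ℕ) with hb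
  have hmod : ∀ g i, b g i % Q = (W * idx (g, i) : ℕ) := by
    intro g i
    rw [hb]
    simp only
    rw [add_comm, Int.add_mul_emod_self_left]
    exact Int.emod_eq_of_lt (by positivity) (by exact_mod_cast hoff (g, i))
  have hbinj : ∀ g i g' i', b g i = b g' i' → (g, i) = (g', i') := by
    intro g i g' i' h
    have h1 : (W * idx (g, i) : ℕ) = W * idx (g', i') := by
      have h2 := hmod g i
      rw [h, hmod g' i'] at h2
      exact_mod_cast h2.symm
    have h3 : idx (g, i) = idx (g', i') := Nat.eq_of_mul_eq_mul_left hWpos h1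
    exact finProdFinEquiv.injective (Fin.ext h3)
  obtain ⟨S, c, hS, hinf⟩ := hq (fun _ _ => (q : ℤ)) (fun g i => r + q * b g i) (fun _ _ => hq0)
    (by
      intro x y hxy
      simp only [Prod.mk.injEq, true_and, add_right_inj] at hxy
      exact hbinj _ _ _ _ (mul_left_cancel₀ hq0.ne' hxy))
    (by
      intro p hp
      have hpp := Nat.prime_iff_prime_int.1 hp
      by_cases hpq : (p : ℤ) ∣ q
      · refine ⟨0, fun g i hd => ?_⟩
        have h1 : (p : ℤ) ∣ r := by
          have h2 : (p : ℤ) ∣ (q : ℤ) * b g i := Dvd.dvd.mul_right hpq _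
          have h3 := (dvd_add_left h2).1 (by simpa using hd)
          exact h3
        exact hpp.not_isUnit (hqr.isUnit_of_dvd' h1 hpq)
      -- an integer `m` with `q m ≡ 1 (mod p)`
      have hcop : IsCoprime (q : ℤ) (p : ℤ) := by
        rw [isCoprime_comm]
        exact (Prime.coprime_iff_not_dvd hpp).2 hpq
      obtain ⟨m, w, hm⟩ := hcop
      rcases Nat.lt_or_ge (T * K) p with h | h
      · obtain ⟨n, hn⟩ := exists_shift_int hp h b
        refine ⟨n - m * r, fun g i hd => hn g i ?_⟩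
        have e1 : (q : ℤ) * (n - m * r) + (r + q * b g i) = q * (n + b g i) + (w * r) * p := by
          have : m * (q : ℤ) = 1 - w * p := by linarith
          calc (q : ℤ) * (n - m * r) + (r + q * b g i) = q * (n + b g i) + r - (m * q) * r := by ring
            _ = _ := by rw [this]; ring
        rw [e1] at hd
        have h2 : (p : ℤ) ∣ q * (n + b g i) := (dvd_add_left (Dvd.intro_left _ rfl)).1 hd
        exact (hpp.dvd_or_dvd h2).resolve_left hpq
      · refine ⟨1 - m * r, fun g i hd => ?_⟩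
        have hpW : (p : ℤ) ∣ (W : ℤ) := by exact_mod_cast (Nat.dvd_factorial hp.pos h)
        have hpb : (p : ℤ) ∣ b g i := by
          rw [hb]
          simp only
          push_cast
          rw [hQdef]
          push_cast
          apply dvd_add
          · exact Dvd.dvd.mul_right (Dvd.dvd.mul_right hpW _) _
          · exact Dvd.dvd.mul_right hpW _
        have e1 : (q : ℤ) * (1 - m * r) + (r + q * b g i) = q * (1 + b g i) + (w * r) * p := by
          have : m * (q : ℤ) = 1 - w * p := by linarith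
          calc (q : ℤ) * (1 - m * r) + (r + q * b g i) = q * (1 + b g i) + r - (m * q) * r := by ring
            _ = _ := by rw [this]; ring
        rw [e1] at hd
        have h2 : (p : ℤ) ∣ q * (1 + b g i) := (dvd_add_left (Dvd.intro_left _ rfl)).1 hd
        have h3 : (p : ℤ) ∣ 1 + b g i := (hpp.dvd_or_dvd h2).resolve_left hpq
        have h4 : (p : ℤ) ∣ 1 := (dvd_add_left hpb).1 h3
        exact hpp.not_isUnit (isUnit_of_dvd_one h4))
  refine ⟨S, fun g => b g (c g), hS, ?_, ?_, ?_⟩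
  · intro g g' h
    exact congrArg Prod.fst (hbinj _ _ _ _ h)
  · intro g
    rw [hb]
    simp only
    have := hoff (g, c g)
    have h2 : ((W * idx (g, c g) : ℕ) : ℤ) < Q := by exact_mod_cast this
    exact ⟨by have : (0 : ℤ) ≤ ((W * idx (g, c g) : ℕ) : ℤ) := by positivity
              linarith, by linarith⟩
  · exact hinf

/-- differences of simultaneously hit shifts are good -/
theorem good_of_mem {T k : ℕ} {q : ℕ} {r : ℤ} (hq : 1 ≤ q) {S : Finset (Fin T)} {h : Fin T → ℤ}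
    (hinf : {n : ℕ | ∀ g ∈ S, 0 < (q : ℤ) * n + (r + q * h g) ∧
      Prime ((q : ℤ) * n + (r + q * h g))}.Infinite)
    (g0 : Fin T) (hg0 : g0 ∈ S) (g : Fin k → Fin T) (hg : ∀ i, g i ∈ S) :
    Good q r (fun i => h (g i) - h g0) := by
  have hq0 : (0 : ℤ) < q := by exact_mod_cast hq
  have hinj : Set.InjOn (fun n : ℕ => ((q : ℤ) * n + (r + q * h g0)).toNat)
      {n : ℕ | ∀ g ∈ S, 0 < (q : ℤ) * n + (r + q * h g) ∧
        Prime ((q : ℤ) * n + (r + q * h g))} := by
    intro n hn m hm hnm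
    have h1 := (hn g0 hg0).1
    have h2 := (hm g0 hg0).1
    simp only at hnm
    have h3 : (q : ℤ) * n + (r + q * h g0) = (q : ℤ) * m + (r + q * h g0) := by
      rw [← Int.toNat_of_nonneg h1.le, ← Int.toNat_of_nonneg h2.le, hnm]
    have h4 : (q : ℤ) * n = q * m := by linarith
    exact_mod_cast mul_left_cancel₀ hq0.ne' h4
  refine (hinf.image hinj).mono ?_
  rintro _ ⟨n, hn, rfl⟩
  have key : ∀ g ∈ S, (((q : ℤ) * n + (r + q * h g)).toNat).Prime ∧
      ((((q : ℤ) * n + (r + q * h g)).toNat : ℕ) : ℤ) = (q : ℤ) * n + (r + q * h g) := by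
    intro g hg
    obtain ⟨h1, h2⟩ := hn g hg
    have h3 : ((((q : ℤ) * n + (r + q * h g)).toNat : ℕ) : ℤ) = (q : ℤ) * n + (r + q * h g) :=
      Int.toNat_of_nonneg h1.le
    refine ⟨?_, h3⟩
    rw [Nat.prime_iff_prime_int, h3]
    exact h2
  refine ⟨(key g0 hg0).1, ?_, fun i => ⟨((q : ℤ) * n + (r + q * h (g i))).toNat,
    (key _ (hg i)).1, ?_⟩⟩
  · rw [(key _ hg0).2]
    have e : (q : ℤ) * n + (r + q * h g0) = r + q * (n + h g0) := by ring
    rw [e]
    exact Int.ModEq.symm (Int.modEq_iff_add_fac.2 ⟨_, rfl⟩)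
  · show ((((q : ℤ) * n + (r + q * h (g i))).toNat : ℕ) : ℤ) =
      ((((q : ℤ) * n + (r + q * h g0)).toNat : ℕ) : ℤ) + q * (h (g i) - h g0)
    rw [(key _ (hg i)).2, (key _ hg0).2]
    ring

/-! ### Corners -/

/-- corners with a positive side, density one quarter -/
theorem corner_pos : ∃ M : ℕ, 1 ≤ M ∧ ∀ A : Finset (ℕ × ℕ), A ⊆ range M ×ˢ range M →
    M ^ 2 ≤ 4 * A.card → ∃ i j d : ℕ, 1 ≤ d ∧ d ≤ M ∧ (i, j) ∈ A ∧ (i + d, j) ∈ A ∧ (i, j + d) ∈ A := by
  set M : ℕ := max 1 (cornersTheoremBound ((1 / 64 : ℝ) / 9)) with hM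
  have hM1 : 1 ≤ M := le_max_left _ _
  refine ⟨M, hM1, fun A hA hcard => ?_⟩
  classical
  set t : Finset (ℕ × ℕ) := range (2 * M) ×ˢ range (2 * M) with ht
  have htne : t.Nonempty := ⟨(0, 0), by simp only [ht, mem_product, mem_range]; omega⟩
  have hmaps : ∀ x ∈ A ×ˢ A, x.1 + x.2 ∈ t := by
    intro x hx
    rw [mem_product] at hx
    have h1 := mem_product.1 (hA hx.1)
    have h2 := mem_product.1 (hA hx.2)
    rw [mem_range, mem_range] at h1 h2
    rw [ht, mem_product, mem_range, mem_range, Prod.fst_add, Prod.snd_add]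
    omega
  obtain ⟨c, hc, hfib⟩ := Finset.exists_le_card_fiber_of_nsmul_le_card_of_maps_to hmaps htne
    (b := (1 / 64 : ℝ) * (M : ℝ) ^ 2) (by
      rw [nsmul_eq_mul, ht, card_product, card_product, card_range]
      push_cast
      have h1 : (M : ℝ) ^ 2 ≤ 4 * (A.card : ℝ) := by exact_mod_cast hcard
      have h2 : (0 : ℝ) ≤ (M : ℝ) ^ 2 := by positivity
      nlinarith)
  set A' : Finset (ℕ × ℕ) := ((A ×ˢ A).filter (fun x => x.1 + x.2 = c)).image Prod.fst with hA'
  have hA'card : A'.card = ((A ×ˢ A).filter (fun x => x.1 + x.2 = c)).card := by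
    rw [hA']
    apply card_image_of_injOn
    intro x hx y hy hxy
    have h1 := (mem_filter.1 hx).2
    have h2 := (mem_filter.1 hy).2
    have hxy' : x.1 = y.1 := hxy
    refine Prod.ext hxy' ?_
    rw [← h2, hxy'] at h1
    exact add_left_cancel h1
  have hA'mem : ∀ u ∈ A', u ∈ A ∧ ∃ v ∈ A, u + v = c := by
    intro u hu
    rw [hA', mem_image] at hu
    obtain ⟨x, hx, rfl⟩ := hu
    rw [mem_filter, mem_product] at hx
    exact ⟨hx.1.1, x.2, hx.1.2, hx.2⟩
  have hnot := corners_theorem_nat (ε := 1 / 64) (n := M) (by norm_num) (le_max_right _ _) A'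
    (fun u hu => hA (hA'mem u hu).1) (by rw [hA'card]; exact hfib)
  rw [IsCornerFree] at hnot
  push Not at hnot
  obtain ⟨x₁, y₁, x₂, y₂, hcor, hne⟩ := hnot
  obtain ⟨h11, h12, h21, hadd⟩ := hcor
  have m11 := hA'mem _ (mem_coe.1 h11)
  have m12 := hA'mem _ (mem_coe.1 h12)
  have m21 := hA'mem _ (mem_coe.1 h21)
  have r11 := mem_product.1 (hA m11.1)
  have r12 := mem_product.1 (hA m12.1)
  have r21 := mem_product.1 (hA m21.1)
  simp only [mem_range] at r11 r12 r21
  rcases Nat.lt_or_gt_of_ne hne with hlt | hgt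
  · refine ⟨x₁, y₁, x₂ - x₁, by omega, by omega, m11.1, ?_, ?_⟩
    · have : x₁ + (x₂ - x₁) = x₂ := by omega
      rw [this]; exact m21.1
    · have : y₁ + (x₂ - x₁) = y₂ := by omega
      rw [this]; exact m12.1
  · obtain ⟨v11, hv11, e11⟩ := m11.2
    obtain ⟨v12, hv12, e12⟩ := m12.2
    obtain ⟨v21, hv21, e21⟩ := m21.2
    have a1 := congrArg Prod.fst e11
    have a2 := congrArg Prod.snd e11
    have b1 := congrArg Prod.fst e12
    have b2 := congrArg Prod.snd e12
    have c1 := congrArg Prod.fst e21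
    have c2 := congrArg Prod.snd e21
    simp only [Prod.fst_add, Prod.snd_add] at a1 a2 b1 b2 c1 c2
    refine ⟨v11.1, v11.2, x₁ - x₂, by omega, by omega, hv11, ?_, ?_⟩
    · have : (v11.1 + (x₁ - x₂), v11.2) = v21 := Prod.ext (by simp only; omega) (by simp only; omega)
      rw [this]; exact hv21
    · have : (v11.1, v11.2 + (x₁ - x₂)) = v12 := Prod.ext (by simp only; omega) (by simp only; omega)
      rw [this]; exact hv12

/-- every vector of the plane has a bounded multiple near a good pair -/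
theorem near_multiple_two (hQ : Quarter) : ∃ C : ℕ, ∀ (q : ℕ) (r : ℤ), 1 ≤ q →
    IsCoprime r (q : ℤ) → ∀ x y : ℤ, ∃ d : ℕ, 1 ≤ d ∧ d ≤ C ∧
    ∃ a b : ℤ, a ≠ 0 ∧ b ≠ 0 ∧ a ≠ b ∧ |a - d * x| ≤ C ∧ |b - d * y| ≤ C ∧ Good q r ![a, b] := by
  classical
  obtain ⟨M, hM1, hM⟩ := corner_pos
  obtain ⟨Q, hQ1, hcl⟩ := clusters hQ (M * M)
  refine ⟨Q * M, fun q r hq hqr x y => ?_⟩
  set e : Fin M × Fin M ≃ Fin (M * M) := finProdFinEquiv with he
  obtain ⟨S, h, hS, hinj, hpos, hinf⟩ := hcl q r hq hqr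
    (fun g => ((e.symm g).1 : ℤ) * x + ((e.symm g).2 : ℤ) * y)
  set φ : Fin (M * M) → ℕ × ℕ := fun g => (((e.symm g).1 : ℕ), ((e.symm g).2 : ℕ)) with hφ
  have hφinj : Function.Injective φ := by
    intro g g' hgg
    have h1 := congrArg Prod.fst hgg
    have h2 := congrArg Prod.snd hgg
    exact e.symm.injective (Prod.ext (Fin.ext h1) (Fin.ext h2))
  obtain ⟨i, j, d, hd1, hdM, m0, m1, m2⟩ := hM (S.image φ) (by
      intro u hu
      obtain ⟨g, _, rfl⟩ := mem_image.1 hu
      rw [hφ, mem_product, mem_range, mem_range]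
      exact ⟨(e.symm g).1.2, (e.symm g).2.2⟩) (by
      rw [card_image_of_injective _ hφinj]
      calc M ^ 2 = M * M := by ring
        _ ≤ _ := hS)
  obtain ⟨g0, hg0, e0⟩ := mem_image.1 m0
  obtain ⟨g1, hg1, e1⟩ := mem_image.1 m1
  obtain ⟨g2, hg2, e2⟩ := mem_image.1 m2
  have e01 : (((e.symm g0).1 : ℕ) : ℤ) = i := by exact_mod_cast congrArg Prod.fst e0
  have e02 : (((e.symm g0).2 : ℕ) : ℤ) = j := by exact_mod_cast congrArg Prod.snd e0
  have e11 : (((e.symm g1).1 : ℕ) : ℤ) = i + d := by exact_mod_cast congrArg Prod.fst e1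
  have e12 : (((e.symm g1).2 : ℕ) : ℤ) = j := by exact_mod_cast congrArg Prod.snd e1
  have e21 : (((e.symm g2).1 : ℕ) : ℤ) = i := by exact_mod_cast congrArg Prod.fst e2
  have e22 : (((e.symm g2).2 : ℕ) : ℤ) = j + d := by exact_mod_cast congrArg Prod.snd e2
  have p0 := hpos g0
  have p1 := hpos g1
  have p2 := hpos g2
  rw [e01, e02] at p0
  rw [e11, e12] at p1
  rw [e21, e22] at p2
  have hne01 : g1 ≠ g0 := by
    rintro rfl
    rw [e01] at e11
    omega
  have hne02 : g2 ≠ g0 := by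
    rintro rfl
    rw [e02] at e22
    omega
  have hne12 : g1 ≠ g2 := by
    rintro rfl
    rw [e11] at e21
    omega
  have hQM : (Q : ℤ) ≤ (Q * M : ℕ) := by
    push_cast
    have h1 : (1 : ℤ) ≤ M := by exact_mod_cast hM1
    have h2 : (0 : ℤ) ≤ Q := by positivity
    nlinarith
  refine ⟨Q * d, Nat.mul_pos hQ1 hd1, Nat.mul_le_mul_left _ hdM, h g1 - h g0, h g2 - h g0,
    sub_ne_zero.2 (hinj.ne hne01), sub_ne_zero.2 (hinj.ne hne02), ?_, ?_, ?_, ?_⟩
  · intro hh
    exact hinj.ne hne12 (sub_left_injective hh)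
  · refine le_trans ?_ hQM
    rw [abs_le]
    push_cast
    constructor <;> nlinarith
  · refine le_trans ?_ hQM
    rw [abs_le]
    push_cast
    constructor <;> nlinarith
  · have := good_of_mem hq hinf g0 hg0 ![g1, g2] (by
      intro i
      fin_cases i
      · exact hg1
      · exact hg2)
    have e : (fun i => h (![g1, g2] i) - h g0) = ![h g1 - h g0, h g2 - h g0] := by
      funext i
      fin_cases i <;> rfl
    rwa [e] at this

end Pool.Agent.H602R3.Tup
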