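import Mathlib
import Pool.Agent.H602R3.TupClusters

/-!
The group of affine maps generated by the maps `x ↦ u x + v` that map infinitely many primes to
primes.
-/

namespace Pool.Agent.H602R3.Aff

open Finset Pool.Agent.H461R2.PD

/-- the affine map `x ↦ u x + v` maps infinitely many primes to primes -/
def PP (w : ℚ × ℚ) : Prop :=
  0 < w.1 ∧ {pq : ℕ × ℕ | pq.1.Prime ∧ pq.2.Prime ∧ (pq.1 : ℚ) = w.1 * pq.2 + w.2}.Infinite

/-- composition of affine maps -/
def cmp (w z : ℚ × ℚ) : ℚ × ℚ := (w.1 * z.1, w.1 * z.2 + w.2)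

/-- inverse of an affine map -/
def inv' (w : ℚ × ℚ) : ℚ × ℚ := (w.1⁻¹, - w.2 / w.1)

/-- compositions of `l` maps -/
def Pw : ℕ → Set (ℚ × ℚ)
  | 0 => {(1, 0)}
  | (l + 1) => {z | ∃ w y, PP w ∧ y ∈ Pw l ∧ z = cmp w y}

theorem cmp_assoc (a b c : ℚ × ℚ) : cmp (cmp a b) c = cmp a (cmp b c) := by
  unfold cmp
  ext <;> simp only <;> ring

theorem one_cmp (a : ℚ × ℚ) : cmp (1, 0) a = a := by
  unfold cmp
  ext <;> simp

theorem cmp_one (a : ℚ × ℚ) : cmp a (1, 0) = a := by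
  unfold cmp
  ext <;> simp

theorem PP_one : PP (1, 0) := by
  refine ⟨one_pos, ?_⟩
  have h := Nat.infinite_setOfPred_prime.image (f := fun p : ℕ => (p, p)) (by
    intro a _ b _ h
    exact congrArg Prod.fst h)
  refine h.mono ?_
  rintro _ ⟨p, hp, rfl⟩
  exact ⟨hp, hp, by simp⟩

theorem PP_inv {w : ℚ × ℚ} (h : PP w) : PP (inv' w) := by
  obtain ⟨h0, h1⟩ := h
  refine ⟨inv_pos.2 h0, ?_⟩
  refine (h1.image (f := Prod.swap) Prod.swap_injective.injOn).mono ?_
  rintro _ ⟨⟨p, q⟩, ⟨hp, hq, he⟩, rfl⟩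
  refine ⟨hq, hp, ?_⟩
  simp only [Prod.swap_prod_mk, inv'] at he ⊢
  have h0' : w.1 ≠ 0 := h0.ne'
  field_simp
  rw [he]
  ring

theorem Pw_pos : ∀ (l : ℕ) (z : ℚ × ℚ), z ∈ Pw l → 0 < z.1
  | 0, z, h => by
      rw [Pw, Set.mem_singleton_iff] at h
      rw [h]
      exact one_pos
  | (l + 1), z, ⟨w, y, hw, hy, e⟩ => by
      rw [e]
      exact mul_pos hw.1 (Pw_pos l y hy)

theorem Pw_cmp : ∀ (k l : ℕ) (y z : ℚ × ℚ), y ∈ Pw k → z ∈ Pw l → cmp y z ∈ Pw (k + l)
  | 0, l, y, z, hy, hz => by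
      rw [Pw, Set.mem_singleton_iff] at hy
      rw [hy, one_cmp, Nat.zero_add]
      exact hz
  | (k + 1), l, y, z, ⟨w, y', hw, hy', e⟩, hz => by
      rw [e, cmp_assoc, Nat.add_right_comm]
      exact ⟨w, _, hw, Pw_cmp k l y' z hy' hz, rfl⟩

theorem Pw_one {w : ℚ × ℚ} (h : PP w) : w ∈ Pw 1 := ⟨w, (1, 0), h, rfl, (cmp_one w).symm⟩

theorem Pw_succ {l : ℕ} {z : ℚ × ℚ} (h : z ∈ Pw l) : z ∈ Pw (l + 1) :=
  ⟨(1, 0), z, PP_one, h, (one_cmp z).symm⟩

theorem Pw_mono {k l : ℕ} (h : k ≤ l) {z : ℚ × ℚ} (hz : z ∈ Pw k) : z ∈ Pw l := by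
  induction l, h using Nat.le_induction with
  | base => exact hz
  | succ n _ ih => exact Pw_succ ih

theorem inv_cmp (w z : ℚ × ℚ) (hw : 0 < w.1) (hz : 0 < z.1) :
    inv' (cmp w z) = cmp (inv' z) (inv' w) := by
  have h1 : w.1 ≠ 0 := hw.ne'
  have h2 : z.1 ≠ 0 := hz.ne'
  unfold cmp inv'
  ext
  · simp only
    rw [mul_inv, mul_comm]
  · simp only
    field_simp
    ring

theorem Pw_inv : ∀ (l : ℕ) (z : ℚ × ℚ), z ∈ Pw l → inv' z ∈ Pw l
  | 0, z, h => by
      rw [Pw, Set.mem_singleton_iff] at h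
      rw [h, Pw, Set.mem_singleton_iff, inv']
      simp
  | (l + 1), z, ⟨w, y, hw, hy, e⟩ => by
      rw [e, inv_cmp w y hw.1 (Pw_pos l y hy)]
      exact Pw_cmp l 1 _ _ (Pw_inv l y hy) (Pw_one (PP_inv hw))

/-- compositions as lists -/
theorem Pw_iff (m : ℕ) (z : ℚ × ℚ) : z ∈ Pw m ↔ ∃ l : List (ℚ × ℚ), l.length = m ∧
    (∀ w ∈ l, PP w) ∧ ∀ x : ℚ, l.foldr (fun w y => w.1 * y + w.2) x = z.1 * x + z.2 := by
  induction m generalizing z with
  | zero =>
    constructor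
    · intro h
      rw [Pw, Set.mem_singleton_iff] at h
      refine ⟨[], rfl, by simp, fun x => ?_⟩
      rw [h]
      simp
    · rintro ⟨l, hl, _, h⟩
      rw [List.length_eq_zero_iff] at hl
      subst hl
      rw [Pw, Set.mem_singleton_iff]
      have h0 := h 0
      have h1 := h 1
      simp only [List.foldr_nil] at h0 h1
      ext <;> simp only <;> linarith
  | succ m ih =>
    constructor
    · rintro ⟨w, y, hw, hy, e⟩
      obtain ⟨l, hl, hP, h⟩ := (ih y).1 hy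
      refine ⟨w :: l, by simp [hl], ?_, fun x => ?_⟩
      · intro w' hw'
        rcases List.mem_cons.1 hw' with rfl | h'
        · exact hw
        · exact hP _ h'
      · rw [List.foldr_cons, h x, e, cmp]
        ring
    · rintro ⟨l, hl, hP, h⟩
      rcases l with _ | ⟨w, l⟩
      · simp at hl
      have hw : PP w := hP w (by simp)
      have hw0 : w.1 ≠ 0 := hw.1.ne'
      set y : ℚ × ℚ := cmp (inv' w) z with hy
      have hz : z = cmp w y := by
        rw [hy, ← cmp_assoc]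
        have : cmp w (inv' w) = (1, 0) := by
          unfold cmp inv'
          ext <;> simp only <;> field_simp
          ring
        rw [this, one_cmp]
      refine ⟨w, y, hw, (ih y).2 ⟨l, by simpa using hl, fun w' hw' => hP w' (by simp [hw']),
        fun x => ?_⟩, hz⟩
      have h1 := h x
      rw [List.foldr_cons] at h1
      rw [hy, cmp, inv']
      simp only
      field_simp
      linarith

/-! ### The two engines -/

theorem PP_of_inf {a b a' b' : ℤ} (ha : 0 < a) (ha' : 0 < a')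
    (h : {n : ℕ | (0 < a * (n : ℤ) + b ∧ Prime (a * (n : ℤ) + b)) ∧
      (0 < a' * (n : ℤ) + b' ∧ Prime (a' * (n : ℤ) + b'))}.Infinite) :
    PP ((a : ℚ) / a', b - (a : ℚ) / a' * b') := by
  refine ⟨div_pos (by exact_mod_cast ha) (by exact_mod_cast ha'), ?_⟩
  have hinj : Set.InjOn (fun n : ℕ => ((a * (n : ℤ) + b).toNat, (a' * (n : ℤ) + b').toNat))
      {n : ℕ | (0 < a * (n : ℤ) + b ∧ Prime (a * (n : ℤ) + b)) ∧
      (0 < a' * (n : ℤ) + b' ∧ Prime (a' * (n : ℤ) + b'))} := by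
    intro n hn m hm hnm
    have h1 := hn.1.1
    have h2 := hm.1.1
    have h3 := congrArg Prod.fst hnm
    simp only at h3
    have h4 : a * (n : ℤ) + b = a * (m : ℤ) + b := by
      rw [← Int.toNat_of_nonneg h1.le, ← Int.toNat_of_nonneg h2.le, h3]
    have h5 : a * (n : ℤ) = a * m := by linarith
    exact_mod_cast mul_left_cancel₀ ha.ne' h5
  refine (h.image hinj).mono ?_
  rintro _ ⟨n, ⟨⟨h1, h2⟩, ⟨h3, h4⟩⟩, rfl⟩
  have e1 : (((a * (n : ℤ) + b).toNat : ℕ) : ℤ) = a * (n : ℤ) + b := Int.toNat_of_nonneg h1.le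
  have e2 : (((a' * (n : ℤ) + b').toNat : ℕ) : ℤ) = a' * (n : ℤ) + b' := Int.toNat_of_nonneg h3.le
  refine ⟨?_, ?_, ?_⟩
  · rw [Nat.prime_iff_prime_int, e1]
    exact h2
  · rw [Nat.prime_iff_prime_int, e2]
    exact h4
  · have e1' : (((a * (n : ℤ) + b).toNat : ℕ) : ℚ) = a * n + b := by exact_mod_cast e1
    have e2' : (((a' * (n : ℤ) + b').toNat : ℕ) : ℚ) = a' * n + b' := by exact_mod_cast e2
    simp only
    rw [e1', e2']
    have : (a' : ℚ) ≠ 0 := by exact_mod_cast ha'.ne'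
    field_simp
    ring

theorem eng_mul (hQ : Quarter) : ∃ K : ℕ, 1 ≤ K ∧ ∀ x : Fin 5 → Fin K → ℚ, (∀ g i, 0 < x g i) →
    Function.Injective (fun z : Fin 5 × Fin K => x z.1 z.2) →
    ∃ g g' i i', g ≠ g' ∧ PP (x g i / x g' i', 1 - x g i / x g' i') := by
  obtain ⟨K, hK, hq⟩ := hQ 5
  refine ⟨K, hK, fun x hx hinj => ?_⟩
  set L : ℕ := ∏ z : Fin 5 × Fin K, (x z.1 z.2).den with hL
  have hLpos : 0 < L := Finset.prod_pos fun z _ => (x z.1 z.2).den_pos
  have hint : ∀ g i, ∃ m : ℤ, x g i * L = m := by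
    intro g i
    obtain ⟨k, hk⟩ : (x g i).den ∣ L := Finset.dvd_prod_of_mem
      (fun z : Fin 5 × Fin K => (x z.1 z.2).den) (mem_univ (g, i))
    refine ⟨(x g i).num * k, ?_⟩
    rw [hk]
    push_cast
    rw [← mul_assoc, Rat.mul_den_eq_num]
  choose a ha using hint
  have hLq : (0 : ℚ) < L := by exact_mod_cast hLpos
  have hapos : ∀ g i, 0 < a g i := by
    intro g i
    have : (0 : ℚ) < a g i := by
      rw [← ha]
      exact mul_pos (hx g i) hLq
    exact_mod_cast this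
  obtain ⟨S, c, hS, hinf⟩ := hq a (fun _ _ => 1) hapos (by
      intro z z' h
      have h1 := congrArg Prod.fst h
      simp only at h1
      apply hinj
      simp only
      have h2 : (a z.1 z.2 : ℚ) = a z'.1 z'.2 := by exact_mod_cast h1
      rw [← ha, ← ha] at h2
      exact mul_right_cancel₀ hLq.ne' h2) (by
      intro p hp
      refine ⟨0, fun g i hd => ?_⟩
      rw [mul_zero, zero_add] at hd
      exact (Nat.prime_iff_prime_int.1 hp).not_isUnit (isUnit_of_dvd_one hd))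
  obtain ⟨g, hg, g', hg', hne⟩ := Finset.one_lt_card.1 (show 1 < S.card by omega)
  refine ⟨g, g', c g, c g', hne, ?_⟩
  have h := PP_of_inf (b := 1) (b' := 1) (hapos g (c g)) (hapos g' (c g')) (by
    refine hinf.mono ?_
    intro n hn
    exact ⟨hn g hg, hn g' hg'⟩)
  have e : (a g (c g) : ℚ) / a g' (c g') = x g (c g) / x g' (c g') := by
    rw [← ha, ← ha, mul_div_mul_right _ _ hLq.ne']
  rw [e] at h
  simpa using h

theorem eng_add (hQ : Quarter) : ∃ K W : ℕ, 1 ≤ K ∧ 1 ≤ W ∧ ∀ x : Fin 5 → Fin K → ℤ,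
    Function.Injective (fun z : Fin 5 × Fin K => x z.1 z.2) →
    ∃ g g' i i', g ≠ g' ∧ PP (1, (W : ℚ) * (x g i - x g' i')) := by
  obtain ⟨K, hK, hq⟩ := hQ 5
  set W : ℕ := (5 * K).factorial with hW
  have hWpos : 0 < W := Nat.factorial_pos _
  have hWz : (W : ℤ) ≠ 0 := by exact_mod_cast hWpos.ne'
  refine ⟨K, W, hK, hWpos, fun x hinj => ?_⟩
  obtain ⟨S, c, hS, hinf⟩ := hq (fun _ _ => 1) (fun g i => 1 + W * x g i) (fun _ _ => one_pos) (by
      intro z z' h
      have h1 := congrArg Prod.snd h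
      simp only at h1
      apply hinj
      simp only
      exact mul_left_cancel₀ hWz (by linarith)) (by
      intro p hp
      rcases Nat.lt_or_ge (5 * K) p with h | h
      · obtain ⟨n, hn⟩ := Tup.exists_shift_int hp h (fun g i => 1 + W * x g i)
        exact ⟨n, fun g i hd => hn g i (by simpa using hd)⟩
      · refine ⟨0, fun g i hd => ?_⟩
        have hpW : (p : ℤ) ∣ (W : ℤ) := by exact_mod_cast (Nat.dvd_factorial hp.pos h)
        rw [mul_zero, zero_add] at hd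
        have : (p : ℤ) ∣ 1 := (dvd_add_left (Dvd.dvd.mul_right hpW _)).1 hd
        exact (Nat.prime_iff_prime_int.1 hp).not_isUnit (isUnit_of_dvd_one this))
  obtain ⟨g, hg, g', hg', hne⟩ := Finset.one_lt_card.1 (show 1 < S.card by omega)
  refine ⟨g, g', c g, c g', hne, ?_⟩
  have h := PP_of_inf (a := 1) (a' := 1) (b := 1 + W * x g (c g)) (b' := 1 + W * x g' (c g'))
    one_pos one_pos (by
    refine hinf.mono ?_
    intro n hn
    exact ⟨hn g hg, hn g' hg'⟩)
  have e : (((1 : ℤ) : ℚ) / ((1 : ℤ) : ℚ), ((1 + W * x g (c g) : ℤ) : ℚ) -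
      ((1 : ℤ) : ℚ) / ((1 : ℤ) : ℚ) * ((1 + W * x g' (c g') : ℤ) : ℚ)) =
      ((1 : ℚ), (W : ℚ) * (x g (c g) - x g' (c g'))) := by
    ext
    · simp
    · push_cast
      ring
  rwa [e] at h

/-- bounded generation from a finiteness property -/
theorem bdd {Γ : Type*} (r : Γ → Γ → Prop) (hsymm : ∀ x y, r x y → r y x) (S : ℕ → Set Γ)
    (mono : ∀ l, S l ⊆ S (l + 1)) (step : ∀ l x y, r x y → y ∈ S l → x ∈ S (l + 1)) (N : ℕ)
    (h : ∀ f : Fin N → Γ, Function.Injective f → (∀ i, ∃ l, f i ∈ S l) →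
      ∃ i j, i ≠ j ∧ r (f i) (f j)) : ∃ m, ∀ x, (∃ l, x ∈ S l) → x ∈ S m := by
  classical
  by_contra hcon
  push Not at hcon
  have key : ∀ k : ℕ, ∃ (Y : Finset Γ) (L : ℕ), Y.card = k ∧ (∀ y ∈ Y, y ∈ S L) ∧
      ∀ y ∈ Y, ∀ y' ∈ Y, y ≠ y' → ¬ r y y' := by
    intro k
    induction k with
    | zero => exact ⟨∅, 0, by simp, by simp, by simp⟩
    | succ k ih =>
      obtain ⟨Y, L, hc, hY, hr⟩ := ih
      obtain ⟨x, ⟨l, hl⟩, hx⟩ := hcon (L + 1)
      have hmon : Monotone S := monotone_nat_of_le_succ mono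
      have hxY : x ∉ Y := fun hh => hx (mono _ (hY x hh))
      refine ⟨insert x Y, max l L, by rw [card_insert_of_notMem hxY, hc], ?_, ?_⟩
      · intro y hy
        rcases mem_insert.1 hy with rfl | hy
        · exact hmon (le_max_left _ _) hl
        · exact hmon (le_max_right _ _) (hY y hy)
      · intro y hy y' hy' hne hh
        rcases mem_insert.1 hy with e | h1
        · rcases mem_insert.1 hy' with e' | h2
          · exact hne (e.trans e'.symm)
          · rw [e] at hh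
            exact hx (step L _ _ hh (hY y' h2))
        · rcases mem_insert.1 hy' with e' | h2
          · rw [e'] at hh
            exact hx (step L _ _ (hsymm _ _ hh) (hY y h1))
          · exact hr y h1 y' h2 hne hh
  obtain ⟨Y, L, hc, hY, hr⟩ := key N
  obtain ⟨i, j, hij, hrij⟩ := h (fun i => ((Y.equivFinOfCardEq hc).symm i : Γ)) (by
    intro i j hh
    exact (Y.equivFinOfCardEq hc).symm.injective (Subtype.ext hh))
    (fun i => ⟨L, hY _ ((Y.equivFinOfCardEq hc).symm i).2⟩)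
  refine hr _ ((Y.equivFinOfCardEq hc).symm i).2 _ ((Y.equivFinOfCardEq hc).symm j).2 ?_ hrij
  intro hh
  exact hij ((Y.equivFinOfCardEq hc).symm.injective (Subtype.ext hh))

end Pool.Agent.H602R3.Aff
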