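import Mathlib

namespace Pool.Agent.H602R3.BanachCore

open Filter Topology

variable {G : Type*} [Group G]

/-- All pointwise limits (in the eventually-equal sense) of the functions
`y ↦ N (u y) - N u` as `u` leaves every finite set. -/
def LimF (N : G → ℤ) : Set (G → ℤ) :=
  {f | ∀ K : Finset G, {u : G | ∀ y ∈ K, N (u * y) - N u = f y}.Infinite}

/-- The data of the norm of a left invariant, integer valued, proper metric. -/
structure IsNorm (N : G → ℤ) : Prop where
  nonneg : ∀ g, 0 ≤ N g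
  inv : ∀ g, N g⁻¹ = N g
  mul_le : ∀ g h, N (g * h) ≤ N g + N h
  proper : ∀ r : ℤ, {g | N g ≤ r}.Finite

variable {N : G → ℤ}

lemma IsNorm.abs_sub_le (hN : IsNorm N) (u y : G) : |N (u * y) - N u| ≤ N y := by
  rw [abs_le]
  constructor
  · have h := hN.mul_le (u * y) y⁻¹
    rw [mul_inv_cancel_right, hN.inv] at h
    linarith
  · have := hN.mul_le u y
    linarith

/-- Compactness: any infinite set of `u`'s has a limit function. -/
lemma exists_limit (hN : IsNorm N) (U : Set G) (hU : U.Infinite) :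
    ∃ f ∈ LimF N, ∀ K : Finset G, ∃ u ∈ U, ∀ y ∈ K, N (u * y) - N u = f y := by
  have : (cofinite ⊓ 𝓟 U).NeBot :=
    Filter.frequently_mem_iff_neBot.1 hU.frequently_cofinite
  let F : Ultrafilter G := Ultrafilter.of (cofinite ⊓ 𝓟 U)
  have hF : (F : Filter G) ≤ cofinite ⊓ 𝓟 U := Ultrafilter.of_le _
  have hFc : (F : Filter G) ≤ cofinite := hF.trans inf_le_left
  have hFU : U ∈ F := hF (mem_inf_of_right (mem_principal_self U))
  have key : ∀ y : G, ∃ c : ℤ, ∀ᶠ u in (F : Filter G), N (u * y) - N u = c := by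
    intro y
    have hfin : (Set.Icc (-N y) (N y)).Finite := Set.finite_Icc _ _
    have hmem : (⋃ c ∈ Set.Icc (-N y) (N y), {u : G | N (u * y) - N u = c}) ∈ F := by
      have huniv : (⋃ c ∈ Set.Icc (-N y) (N y), {u : G | N (u * y) - N u = c}) = Set.univ := by
        apply Set.eq_univ_of_forall
        intro u
        simp only [Set.mem_iUnion]
        exact ⟨N (u * y) - N u, abs_le.1 (hN.abs_sub_le u y), rfl⟩
      rw [huniv]
      exact Filter.univ_mem
    rw [Ultrafilter.finite_biUnion_mem_iff hfin] at hmem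
    obtain ⟨c, -, hc⟩ := hmem
    exact ⟨c, hc⟩
  choose f hf using key
  have hK : ∀ K : Finset G, ∀ᶠ u in (F : Filter G), ∀ y ∈ K, N (u * y) - N u = f y := by
    intro K
    exact (Filter.eventually_all_finset K).2 fun y _ => hf y
  refine ⟨f, fun K => ?_, fun K => ?_⟩
  · intro hfin
    have h1 : {u : G | ∀ y ∈ K, N (u * y) - N u = f y} ∈ F := hK K
    have h2 : {u : G | ∀ y ∈ K, N (u * y) - N u = f y}ᶜ ∈ (F : Filter G) :=
      hFc hfin.compl_mem_cofinite
    exact Ultrafilter.compl_notMem_iff.2 h1 h2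
  · obtain ⟨u, hu1, hu2⟩ := ((hK K).and hFU).exists
    exact ⟨u, hu2, hu1⟩

lemma finite_exceptions (hN : IsNorm N) (K : Finset G) :
    {u : G | ¬ ∃ f ∈ LimF N, ∀ y ∈ K, N (u * y) - N u = f y}.Finite := by
  by_contra h
  obtain ⟨f, hf, h2⟩ := exists_limit hN _ h
  obtain ⟨u, hu, hu2⟩ := h2 K
  exact hu ⟨f, hf, hu2⟩

/-- the translation action on functions -/
def tr (g : G) (f : G → ℤ) : G → ℤ := fun y => f (g⁻¹ * y) - f g⁻¹

lemma tr_mem {f : G → ℤ} (hf : f ∈ LimF N) (g : G) : tr g f ∈ LimF N := by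
  classical
  intro K
  have h := hf (insert g⁻¹ (K.image (fun y => g⁻¹ * y)))
  have h2 : ((fun u => u * g⁻¹) '' {u : G | ∀ y ∈ insert g⁻¹ (K.image (fun y => g⁻¹ * y)),
      N (u * y) - N u = f y}).Infinite :=
    h.image (fun a _ b _ hab => mul_right_cancel hab)
  refine h2.mono ?_
  rintro _ ⟨u, hu, rfl⟩ y hy
  have h3 := hu (g⁻¹ * y) (Finset.mem_insert_of_mem (Finset.mem_image_of_mem _ hy))
  have h4 := hu g⁻¹ (Finset.mem_insert_self _ _)
  simp only [tr]
  rw [← h3, ← h4]
  simp only [mul_assoc]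
  ring

lemma tr_one {f : G → ℤ} (hf : f ∈ LimF N) : tr 1 f = f := by
  have h1 : f 1 = 0 := by
    obtain ⟨u, hu⟩ := (hf {1}).nonempty
    have := hu 1 (by simp)
    simpa using this.symm
  funext y
  simp [tr, h1]

lemma tr_tr (g h : G) (f : G → ℤ) : tr g (tr h f) = tr (g * h) f := by
  funext y
  simp only [tr, mul_inv_rev, mul_assoc]
  ring

/-- The homomorphism to permutations of the set of limit functions. -/
def permHom (N : G → ℤ) : G →* Equiv.Perm (LimF N) where
  toFun g :=
    { toFun := fun f => ⟨tr g f.1, tr_mem f.2 g⟩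
      invFun := fun f => ⟨tr g⁻¹ f.1, tr_mem f.2 g⁻¹⟩
      left_inv := fun f => by
        apply Subtype.ext
        simp only [tr_tr, inv_mul_cancel]
        exact tr_one f.2
      right_inv := fun f => by
        apply Subtype.ext
        simp only [tr_tr, mul_inv_cancel]
        exact tr_one f.2 }
  map_one' := by
    ext f : 2
    exact tr_one f.2
  map_mul' g h := by
    ext f : 2
    exact (tr_tr g h f.1).symm

end Pool.Agent.H602R3.BanachCore
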