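import Pool.Agent.H602R3.BanachMain

namespace Pool.Agent.H602R3.BanachCore

open Filter Topology

variable {G : Type*} [Group G] {N : G → ℤ}

/-- If the kernel of a limit function on `H` is finite then `G` is virtually cyclic. -/
lemma caseA (hfin : (LimF N).Finite) (hD : (DD N).Finite)
    {f₀ : G → ℤ} (hf₀ : f₀ ∈ LimF N) {u : G} (hu : u ∈ HH N) (h1 : f₀ u ≠ 0)
    (hker : ∀ v ∈ HH N, f₀ v = 0 → v ∈ DD N) :
    ∃ C : Subgroup G, IsCyclic C ∧ C.FiniteIndex := by
  classical
  have hHfi : (HH N).FiniteIndex := by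
    have : Finite (LimF N) := hfin.to_subtype
    have : Finite (Equiv.Perm (LimF N)) := inferInstance
    exact Subgroup.finiteIndex_ker (permHom N)
  refine ⟨Subgroup.zpowers u, inferInstance, ?_⟩
  -- representatives
  let k : ℤ := f₀ u
  have hrep : ∀ r : ℤ, ∃ w : G, (∃ w' ∈ HH N, f₀ w' = r) → w ∈ HH N ∧ f₀ w = r := by
    intro r
    by_cases h : ∃ w' ∈ HH N, f₀ w' = r
    · obtain ⟨w, hw⟩ := h
      exact ⟨w, fun _ => hw⟩
    · exact ⟨1, fun h' => absurd h' h⟩
  choose w hw using hrep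
  have hdec : ∀ v ∈ HH N, ∃ r ∈ Finset.Ico (0 : ℤ) |k|, ∃ d ∈ DD N, ∃ q : ℤ,
      v = w r * d * u ^ q := by
    intro v hv
    let q := f₀ v / k
    let r := f₀ v % k
    have hr0 : 0 ≤ r := Int.emod_nonneg _ h1
    have hr1 : r < |k| := Int.emod_lt_abs _ h1
    have hvq : v * u ^ (-q) ∈ HH N := mul_mem hv (zpow_mem hu _)
    have hval : f₀ (v * u ^ (-q)) = r := by
      rw [HH_spec hf₀ hv, HH_zpow hf₀ hu]
      have := Int.emod_add_mul_ediv (f₀ v) k
      simp only [r, q]
      show f₀ v + -(f₀ v / k) * k = f₀ v % k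
      linarith
    obtain ⟨w1, w2⟩ := hw r ⟨_, hvq, hval⟩
    refine ⟨r, Finset.mem_Ico.2 ⟨hr0, hr1⟩, (w r)⁻¹ * (v * u ^ (-q)), ?_, q, ?_⟩
    · apply hker _ (mul_mem (inv_mem w1) hvq)
      rw [HH_spec hf₀ (inv_mem w1), HH_inv hf₀ w1, w2, hval]
      ring
    · group
  -- finitely many cosets
  have hfinH : Finite (G ⧸ HH N) := Subgroup.finite_quotient_of_finiteIndex
  have hset : (Set.univ : Set (G ⧸ Subgroup.zpowers u)).Finite := by
    let A : Set (G ⧸ HH N) := Set.univ
    have hA : A.Finite := Set.finite_univ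
    let Bs : Set ℤ := ((Finset.Ico (0 : ℤ) |k| : Finset ℤ) : Set ℤ)
    have hBs : Bs.Finite := Finset.finite_toSet _
    have hprod := (hA.prod (hBs.prod hD)).image
      (fun p : (G ⧸ HH N) × (ℤ × G) =>
        (QuotientGroup.mk (Quotient.out p.1 * (w p.2.1 * p.2.2)) : G ⧸ Subgroup.zpowers u))
    refine hprod.subset ?_
    rintro x -
    obtain ⟨g, rfl⟩ := QuotientGroup.mk_surjective x
    have hg : (Quotient.out (QuotientGroup.mk g : G ⧸ HH N))⁻¹ * g ∈ HH N := by
      rw [← QuotientGroup.eq]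
      exact Quotient.out_eq' _
    obtain ⟨r, hr, d, hd, q, hq⟩ := hdec _ hg
    refine ⟨((QuotientGroup.mk g : G ⧸ HH N), (r, d)), ⟨Set.mem_univ _, ⟨?_, hd⟩⟩, ?_⟩
    · exact Finset.mem_coe.2 hr
    · simp only
      rw [QuotientGroup.eq]
      have e : g = Quotient.out (QuotientGroup.mk g : G ⧸ HH N) * (w r * d * u ^ q) := by
        rw [← hq]; group
      have e2 : (Quotient.out (QuotientGroup.mk g : G ⧸ HH N) * (w r * d))⁻¹ * g = u ^ q := by
        calc (Quotient.out (QuotientGroup.mk g : G ⧸ HH N) * (w r * d))⁻¹ * g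
            = (Quotient.out (QuotientGroup.mk g : G ⧸ HH N) * (w r * d))⁻¹ *
              (Quotient.out (QuotientGroup.mk g : G ⧸ HH N) * (w r * d * u ^ q)) := by rw [← e]
          _ = u ^ q := by group
      rw [e2]
      exact Subgroup.zpow_mem_zpowers u q
  have : Finite (G ⧸ Subgroup.zpowers u) := Set.finite_univ_iff.1 hset
  exact Subgroup.finiteIndex_of_finite_quotient

theorem virtuallyCyclic_of_finite (hN : IsNorm N) [Group.FG G] (hfin : (LimF N).Finite) :
    ∃ C : Subgroup G, IsCyclic C ∧ C.FiniteIndex := by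
  classical
  by_cases hG : Finite G
  · exact ⟨⊥, inferInstance, inferInstance⟩
  have hGi : Infinite G := not_finite_iff_infinite.1 hG
  have hHfi : (HH N).FiniteIndex := by
    have : Finite (LimF N) := hfin.to_subtype
    have : Finite (Equiv.Perm (LimF N)) := inferInstance
    exact Subgroup.finiteIndex_ker (permHom N)
  have hfg : (HH N).FG := by
    rw [← Group.fg_iff_subgroup_fg]
    exact Subgroup.fg_of_index_ne_zero (HH N)
  have hD := finite_DD hN hfin hfg
  have hHinf : ((HH N : Subgroup G) : Set G).Infinite := by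
    intro h
    have hf : Finite (HH N) := h.to_subtype
    apply hG
    have hfinH : Finite (G ⧸ HH N) := Subgroup.finite_quotient_of_finiteIndex
    exact Finite.of_equiv _ (Subgroup.groupEquivQuotientProdSubgroup (s := HH N)).symm
  obtain ⟨u, hu, huD⟩ := (hHinf.sdiff hD).nonempty
  have hu' : ∃ f₀ ∈ LimF N, f₀ u ≠ 0 := by
    by_contra hcon
    push Not at hcon
    exact huD ⟨hu, hcon⟩
  obtain ⟨f₀, hf₀, h1⟩ := hu'
  by_cases hker : ∀ v ∈ HH N, f₀ v = 0 → v ∈ DD N
  · exact caseA hfin hD hf₀ hu h1 hker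
  · push Not at hker
    obtain ⟨v, hv, hv0, hvD⟩ := hker
    have : ∃ f₁ ∈ LimF N, f₁ v ≠ 0 := by
      by_contra hcon
      push Not at hcon
      exact hvD ⟨hv, hcon⟩
    obtain ⟨f₁, hf₁, h3⟩ := this
    exact (caseB hN hfin hD hf₀ hf₁ hu hv h1 hv0 h3).elim

end Pool.Agent.H602R3.BanachCore
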