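import Pool.Agent.H602R3.BanachCore

namespace Pool.Agent.H602R3.BanachCore

open Filter Topology

variable {G : Type*} [Group G] {N : G → ℤ}

/-- subgroup acting trivially on the limit functions -/
noncomputable def HH (N : G → ℤ) : Subgroup G := (permHom N).ker

lemma HH_spec {f : G → ℤ} (hf : f ∈ LimF N) {h : G} (hh : h ∈ HH N) (y : G) :
    f (h * y) = f h + f y := by
  have h1 : h⁻¹ ∈ HH N := inv_mem hh
  have h2 : permHom N h⁻¹ = 1 := h1
  have h3 : tr h⁻¹ f = f := by
    have := congrArg (fun e : Equiv.Perm (LimF N) => (e ⟨f, hf⟩).1) h2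
    exact this
  have h4 := congrFun h3 y
  simp only [tr, inv_inv] at h4
  linarith

lemma HH_one {f : G → ℤ} (hf : f ∈ LimF N) : f 1 = 0 := by
  have := HH_spec hf (one_mem (HH N)) 1
  simp at this
  exact this

lemma HH_inv {f : G → ℤ} (hf : f ∈ LimF N) {h : G} (hh : h ∈ HH N) : f h⁻¹ = - f h := by
  have := HH_spec hf hh h⁻¹
  rw [mul_inv_cancel, HH_one hf] at this
  linarith

lemma HH_zpow {f : G → ℤ} (hf : f ∈ LimF N) {h : G} (hh : h ∈ HH N) (k : ℤ) :
    f (h ^ k) = k * f h := by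
  induction k using Int.induction_on with
  | zero => simp [HH_one hf]
  | succ n ih =>
    rw [zpow_add_one, HH_spec hf (zpow_mem hh _), ih]
    ring
  | pred n ih =>
    rw [zpow_sub_one, HH_spec hf (zpow_mem hh _), ih, HH_inv hf hh]
    ring

lemma exists_distinguish (hfin : (LimF N).Finite) :
    ∃ K : Finset G, ∀ f ∈ LimF N, ∀ f' ∈ LimF N, (∀ y ∈ K, f y = f' y) → f = f' := by
  classical
  have h : ∀ p : (G → ℤ) × (G → ℤ), ∃ y : G, p.1 y = p.2 y → p.1 = p.2 := by
    intro p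
    by_cases hp : p.1 = p.2
    · exact ⟨1, fun _ => hp⟩
    · obtain ⟨y, hy⟩ := Function.ne_iff.1 hp
      exact ⟨y, fun h => absurd h hy⟩
  choose Y hY using h
  refine ⟨(hfin.toFinset ×ˢ hfin.toFinset).image Y, fun f hf f' hf' h => ?_⟩
  apply hY (f, f')
  apply h
  apply Finset.mem_image_of_mem
  simp [hf, hf']

/-- The type function. -/
lemma exists_type (hN : IsNorm N) (hfin : (LimF N).Finite) (T : Finset G)
    (hT : ∀ s ∈ T, s ∈ HH N) :
    ∃ (B : Finset G) (i : G → G → ℤ), ∀ u ∉ B, i u ∈ LimF N ∧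
      (∀ s ∈ T, N (u * s) - N u = i u s) ∧ (∀ s ∈ T, u * s ∉ B → i (u * s) = i u) := by
  classical
  obtain ⟨K0, hK0⟩ := exists_distinguish hfin
  let K : Finset G := K0 ∪ T ∪ (T ×ˢ K0).image (fun p => p.1 * p.2)
  have hB := finite_exceptions hN K
  have key : ∀ u : G, ∃ f : G → ℤ, u ∉ hB.toFinset →
      f ∈ LimF N ∧ ∀ y ∈ K, N (u * y) - N u = f y := by
    intro u
    by_cases hu : ∃ f ∈ LimF N, ∀ y ∈ K, N (u * y) - N u = f y
    · obtain ⟨f, h1, h2⟩ := hu
      exact ⟨f, fun _ => ⟨h1, h2⟩⟩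
    · refine ⟨fun _ => 0, fun h => absurd ?_ h⟩
      simpa using hu
  choose i hi using key
  refine ⟨hB.toFinset, i, fun u hu => ⟨(hi u hu).1, ?_, ?_⟩⟩
  · intro s hs
    exact (hi u hu).2 s (by simp [K, hs])
  · intro s hs hus
    refine hK0 _ (hi _ hus).1 _ (hi _ hu).1 fun y hy => ?_
    have e1 := (hi _ hus).2 y (by simp [K, hy])
    have e2 := (hi _ hu).2 s (by simp [K, hs])
    have e3 := (hi _ hu).2 (s * y) (by
      simp only [K, Finset.mem_union, Finset.mem_image, Finset.mem_product]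
      exact Or.inr ⟨(s, y), ⟨hs, hy⟩, rfl⟩)
    have e4 := HH_spec (hi _ hu).1 (hT s hs) y
    rw [← mul_assoc] at e3
    rw [← e1]
    linarith

/-- elements of `H` killed by all limit functions -/
def DD (N : G → ℤ) : Set G := {h | h ∈ HH N ∧ ∀ f ∈ LimF N, f h = 0}

lemma finite_DD (hN : IsNorm N) (hfin : (LimF N).Finite) (hfg : (HH N).FG) : (DD N).Finite := by
  classical
  obtain ⟨S, hS⟩ := hfg
  let T : Finset G := S ∪ S.image (fun s => s⁻¹)
  have hSH : ∀ s ∈ S, s ∈ HH N := fun s hs => hS ▸ Subgroup.subset_closure hs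
  have hT : ∀ s ∈ T, s ∈ HH N := by
    intro s hs
    simp only [T, Finset.mem_union, Finset.mem_image] at hs
    rcases hs with hs | ⟨s', hs', rfl⟩
    · exact hSH s hs
    · exact inv_mem (hSH s' hs')
  obtain ⟨B, i, hi⟩ := exists_type hN hfin T hT
  let B' : Finset G := insert 1 ((B ×ˢ T).image (fun p => p.1 * p.2))
  let C : Finset ℤ := B'.image (fun b => N b - i b b)
  have step : ∀ u ∈ HH N, ∀ s ∈ T, (u ∉ B → N u - i u u ∈ C) →
      (u * s ∉ B → N (u * s) - i (u * s) (u * s) ∈ C) := by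
    intro u hu s hs ih hus
    by_cases huB : u ∈ B
    · refine Finset.mem_image.2 ⟨u * s, ?_, rfl⟩
      refine Finset.mem_insert_of_mem (Finset.mem_image.2 ⟨(u, s), ?_, rfl⟩)
      simp [huB, hs]
    · have h1 := ih huB
      obtain ⟨h2, h3, h4⟩ := hi u huB
      rw [h4 s hs hus, HH_spec h2 hu]
      have := h3 s hs
      have e : N (u * s) - (i u u + i u s) = N u - i u u := by linarith
      rw [e]
      exact h1
  have main : ∀ u ∈ HH N, u ∉ B → N u - i u u ∈ C := by
    intro u hu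
    have hu' : u ∈ Subgroup.closure (S : Set G) := by rw [hS]; exact hu
    induction hu' using Subgroup.closure_induction_right with
    | one =>
      intro _
      exact Finset.mem_image.2 ⟨1, Finset.mem_insert_self _ _, rfl⟩
    | mul_right x hx y hy ih =>
      have hx' : x ∈ HH N := by rw [hS] at hx; exact hx
      exact step x hx' y (by simp [T]; left; exact hy) (ih hx')
    | mul_inv_cancel x hx y hy ih =>
      have hx' : x ∈ HH N := by rw [hS] at hx; exact hx
      exact step x hx' y⁻¹ (by simp [T]; right; exact hy) (ih hx')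
  obtain ⟨M, hM⟩ := C.bddAbove
  refine ((B.finite_toSet).union (hN.proper M)).subset ?_
  rintro h ⟨hh, h0⟩
  by_cases hB : h ∈ B
  · exact Or.inl hB
  · right
    have h1 := main h hh hB
    rw [h0 _ (hi h hB).1, sub_zero] at h1
    exact hM h1

lemma caseB (hN : IsNorm N) (hfin : (LimF N).Finite) (hD : (DD N).Finite)
    {f₀ f₁ : G → ℤ} (hf₀ : f₀ ∈ LimF N) (hf₁ : f₁ ∈ LimF N) {u v₀ : G} (hu : u ∈ HH N)
    (hv₀ : v₀ ∈ HH N) (h1 : f₀ u ≠ 0) (h2 : f₀ v₀ = 0) (h3 : f₁ v₀ ≠ 0) : False := by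
  classical
  -- a power of v₀ commuting with u
  obtain ⟨k, hk, hcomm⟩ : ∃ k : ℤ, k ≠ 0 ∧ u * v₀ ^ k = v₀ ^ k * u := by
    have hmaps : ∀ k : ℤ, u⁻¹ * (v₀ ^ k * u * v₀ ^ (-k)) ∈ DD N := by
      intro k
      have hm : v₀ ^ k * u * v₀ ^ (-k) ∈ HH N :=
        mul_mem (mul_mem (zpow_mem hv₀ _) hu) (zpow_mem hv₀ _)
      refine ⟨mul_mem (inv_mem hu) hm, fun f hf => ?_⟩
      rw [HH_spec hf (inv_mem hu), HH_spec hf (mul_mem (zpow_mem hv₀ _) hu),
        HH_spec hf (zpow_mem hv₀ _), HH_inv hf hu, HH_zpow hf hv₀, HH_zpow hf hv₀]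
      ring
    have hninj : ¬ Function.Injective (fun k : ℤ => (⟨_, hmaps k⟩ : DD N)) := by
      intro hinj
      haveI := hD.to_subtype
      exact not_finite_iff_infinite.2 (inferInstance : Infinite ℤ) (Finite.of_injective _ hinj)
    rw [Function.not_injective_iff] at hninj
    obtain ⟨a, b, hab, hne⟩ := hninj
    have hab' := congrArg Subtype.val hab
    simp only [mul_right_inj] at hab'
    refine ⟨b - a, sub_ne_zero.2 (Ne.symm hne), ?_⟩
    -- v^a u v^-a = v^b u v^-b
    have e1 : u = v₀ ^ (b - a) * u * v₀ ^ (-(b - a)) := by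
      calc u = v₀ ^ (-a) * (v₀ ^ a * u * v₀ ^ (-a)) * v₀ ^ a := by group
        _ = v₀ ^ (-a) * (v₀ ^ b * u * v₀ ^ (-b)) * v₀ ^ a := by rw [hab']
        _ = v₀ ^ (b - a) * u * v₀ ^ (-(b - a)) := by
          rw [sub_eq_add_neg, zpow_add, neg_add, neg_neg, zpow_add]
          rw [show v₀ ^ b * v₀ ^ (-a) = v₀ ^ (-a) * v₀ ^ b by rw [← zpow_add, ← zpow_add, add_comm]]
          simp only [mul_assoc]
    calc u * v₀ ^ (b - a) = (v₀ ^ (b - a) * u * v₀ ^ (-(b - a))) * v₀ ^ (b - a) := by rw [← e1]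
      _ = v₀ ^ (b - a) * u := by group
  set v := v₀ ^ k with hvdef
  have hv : v ∈ HH N := zpow_mem hv₀ _
  have h0v : f₀ v = 0 := by rw [hvdef, HH_zpow hf₀ hv₀, h2, mul_zero]
  have h1v : f₁ v ≠ 0 := by rw [hvdef, HH_zpow hf₁ hv₀]; exact mul_ne_zero hk h3
  let T : Finset G := {u, v, u⁻¹, v⁻¹}
  have hT : ∀ s ∈ T, s ∈ HH N := by
    intro s hs
    simp only [T, Finset.mem_insert, Finset.mem_singleton] at hs
    rcases hs with rfl | rfl | rfl | rfl
    · exact hu
    · exact hv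
    · exact inv_mem hu
    · exact inv_mem hv
  obtain ⟨B, i, hi⟩ := exists_type hN hfin T hT
  let w : ℤ × ℤ → G := fun p => u ^ p.1 * v ^ p.2
  have hwinj : Function.Injective w := by
    intro p q hpq
    have e0 : f₀ (w p) = f₀ (w q) := by rw [hpq]
    have e1 : f₁ (w p) = f₁ (w q) := by rw [hpq]
    simp only [w] at e0 e1
    rw [HH_spec hf₀ (zpow_mem hu _), HH_spec hf₀ (zpow_mem hu _), HH_zpow hf₀ hu, HH_zpow hf₀ hu,
      HH_zpow hf₀ hv, HH_zpow hf₀ hv, h0v, mul_zero, mul_zero, add_zero, add_zero] at e0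
    rw [HH_spec hf₁ (zpow_mem hu _), HH_spec hf₁ (zpow_mem hu _), HH_zpow hf₁ hu, HH_zpow hf₁ hu,
      HH_zpow hf₁ hv, HH_zpow hf₁ hv] at e1
    have a1 : p.1 = q.1 := mul_right_cancel₀ h1 e0
    rw [a1] at e1
    have a2 : p.2 = q.2 := mul_right_cancel₀ h1v (add_left_cancel e1)
    exact Prod.ext a1 a2
  have hbad : {p : ℤ × ℤ | w p ∈ B}.Finite := by
    have := (B.finite_toSet).preimage (f := w) (hwinj.injOn)
    exact this
  obtain ⟨R, hR⟩ : ∃ R : ℤ, ∀ p : ℤ × ℤ, w p ∈ B → |p.1| < R ∧ |p.2| < R := by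
    let F := hbad.toFinset
    obtain ⟨R1, hR1⟩ := (F.image (fun p : ℤ × ℤ => |p.1|)).bddAbove
    obtain ⟨R2, hR2⟩ := (F.image (fun p : ℤ × ℤ => |p.2|)).bddAbove
    refine ⟨max R1 R2 + 1, fun p hp => ?_⟩
    have hpF : p ∈ F := by simpa [F] using hp
    have m1 : |p.1| ≤ R1 := hR1 (Finset.mem_coe.2 (Finset.mem_image_of_mem _ hpF))
    have m2 : |p.2| ≤ R2 := hR2 (Finset.mem_coe.2 (Finset.mem_image_of_mem _ hpF))
    exact ⟨by have := le_max_left R1 R2; linarith, by have := le_max_right R1 R2; linarith⟩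
  have good1 : ∀ a b : ℤ, R ≤ |a| → w (a, b) ∉ B := fun a b h hB => by
    have := (hR _ hB).1
    simp only at this
    linarith
  have good2 : ∀ a b : ℤ, R ≤ |b| → w (a, b) ∉ B := fun a b h hB => by
    have := (hR _ hB).2
    simp only at this
    linarith
  have wu : ∀ a b : ℤ, w (a, b) * u = w (a + 1, b) := by
    intro a b
    have hc : Commute u v := hcomm
    have : v ^ b * u = u * v ^ b := ((hc.zpow_right b).eq).symm
    simp only [w]
    rw [mul_assoc, this, ← mul_assoc, zpow_add_one]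
  have wv : ∀ a b : ℤ, w (a, b) * v = w (a, b + 1) := by
    intro a b
    simp only [w]
    rw [mul_assoc, zpow_add_one]
  have huT : u ∈ T := by simp [T]
  have hvT : v ∈ T := by simp [T]
  -- horizontal steps at height b with |b| ≥ R
  have hor : ∀ b : ℤ, R ≤ |b| → ∀ (a : ℤ) (n : ℕ), i (w (a + n, b)) = i (w (a, b)) := by
    intro b hb a n
    induction n with
    | zero => simp
    | succ n ih =>
      have := (hi _ (good2 (a + n) b hb)).2.2 u huT
      rw [wu] at this
      have h := this (good2 _ b hb)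
      rw [ih] at h
      rw [← h]
      push_cast
      rw [add_assoc]
  have ver : ∀ a : ℤ, R ≤ |a| → ∀ (b : ℤ) (n : ℕ), i (w (a, b + n)) = i (w (a, b)) := by
    intro a ha b n
    induction n with
    | zero => simp
    | succ n ih =>
      have := (hi _ (good1 a (b + n) ha)).2.2 v hvT
      rw [wv] at this
      have h := this (good1 a _ ha)
      rw [ih] at h
      rw [← h]
      push_cast
      rw [add_assoc]
  let m : ℕ := R.toNat
  have hmR : R ≤ (m : ℤ) := Int.self_le_toNat R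
  have habs : ∀ a : ℕ, m ≤ a → R ≤ |(a : ℤ)| := by
    intro a ha
    rw [abs_of_nonneg (by positivity)]
    exact hmR.trans (by exact_mod_cast ha)
  have habs' : ∀ a : ℕ, m ≤ a → R ≤ |(-(a : ℤ))| := by
    intro a ha
    rw [abs_neg]
    exact habs a ha
  have same : ∀ a : ℕ, m ≤ a → i (w (-(a : ℤ), 0)) = i (w ((a : ℤ), 0)) := by
    intro a ha
    have s1 := ver (a : ℤ) (habs a ha) 0 m
    have s2 := ver (-(a : ℤ)) (habs' a ha) 0 m
    have s3 := hor (m : ℤ) (habs m le_rfl) (-(a : ℤ)) (2 * a)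
    rw [zero_add] at s1 s2
    have e : (-(a : ℤ) + ((2 * a : ℕ) : ℤ)) = (a : ℤ) := by push_cast; ring
    rw [e] at s3
    rw [← s1, ← s2, s3]
  have hor0 : ∀ n : ℕ, i (w (((m + n : ℕ) : ℤ), 0)) = i (w ((m : ℤ), 0)) := by
    intro n
    induction n with
    | zero => simp
    | succ n ih =>
      have := (hi _ (good1 ((m + n : ℕ) : ℤ) 0 (habs _ (by omega)))).2.2 u huT
      rw [wu] at this
      have h := this (good1 _ 0 (by
        have := habs (m + n + 1) (by omega)
        push_cast at this ⊢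
        exact this))
      rw [ih] at h
      rw [← h]
      push_cast
      rw [add_assoc]
  have wneg : ∀ a : ℤ, N (w (-a, 0)) = N (w (a, 0)) := by
    intro a
    simp only [w, zpow_zero, mul_one, zpow_neg]
    exact hN.inv _
  have lam : ∀ n : ℕ, N (w (((m + n + 1 : ℕ) : ℤ), 0)) = N (w (((m + n : ℕ) : ℤ), 0)) := by
    intro n
    have hg := good1 ((m + n : ℕ) : ℤ) 0 (habs _ (by omega))
    have hg' := good1 (-((m + n + 1 : ℕ) : ℤ)) 0 (habs' _ (by omega))
    have e1 := (hi _ hg).2.1 u huT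
    have e2 := (hi _ hg').2.1 u huT
    rw [wu] at e1 e2
    rw [same _ (by omega)] at e2
    have e3 : i (w (((m + n + 1 : ℕ) : ℤ), 0)) = i (w (((m + n : ℕ) : ℤ), 0)) := by
      rw [hor0 n, add_assoc, hor0 (n + 1)]
    rw [e3, wneg] at e2
    have e4 : (-((m + n + 1 : ℕ) : ℤ) + 1) = -((m + n : ℕ) : ℤ) := by push_cast; ring
    rw [e4, wneg] at e2
    push_cast at e1 e2 ⊢
    linarith
  have const : ∀ n : ℕ, N (w (((m + n : ℕ) : ℤ), 0)) = N (w ((m : ℤ), 0)) := by
    intro n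
    induction n with
    | zero => simp
    | succ n ih => rw [← ih, ← lam n, add_assoc]
  have hinf : (Set.range (fun n : ℕ => w (((m + n : ℕ) : ℤ), 0))).Infinite := by
    apply Set.infinite_range_of_injective
    intro a b hab
    have := hwinj hab
    simp only [Prod.mk.injEq, and_true] at this
    have h5 : m + a = m + b := by exact_mod_cast this
    omega
  apply hinf
  refine (hN.proper (N (w ((m : ℤ), 0)))).subset ?_
  rintro _ ⟨n, rfl⟩
  exact (const n).le

end Pool.Agent.H602R3.BanachCore
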