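import Mathlib

noncomputable section

namespace Pool.Agent.H602R3.ConeConv

open Filter Topology

universe u

/-- products of at most `n` elements of `S ∪ S⁻¹` -/
def ball {G : Type u} [Group G] (S : Set G) (n : ℕ) : Set G :=
  {g | ∃ l : List G, l.length ≤ n ∧ (∀ x ∈ l, x ∈ S ∨ x⁻¹ ∈ S) ∧ l.prod = g}

/-- locally subexponential growth -/
def LocSub (G : Type u) [Group G] : Prop :=
  ∀ S : Finset G, ∀ r : ℝ, 1 < r → ∀ᶠ n : ℕ in atTop, ((ball (S : Set G) n).ncard : ℝ) ≤ r ^ n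

lemma ball_finite {G : Type u} [Group G] (S : Finset G) (n : ℕ) :
    (ball (S : Set G) n).Finite := by
  classical
  induction n with
  | zero =>
    refine (Set.finite_singleton (1 : G)).subset ?_
    rintro g ⟨l, hl, -, rfl⟩
    rw [List.length_eq_zero_iff.1 (Nat.le_zero.1 hl)]
    simp
  | succ n ih =>
    let T : Finset G := S ∪ S.image (fun x => x⁻¹)
    have hsub : ball (S : Set G) (n + 1) ⊆ {1} ∪ (fun p : G × G => p.1 * p.2) ''
        ((T : Set G) ×ˢ ball (S : Set G) n) := by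
      rintro g ⟨l, hl, hS, rfl⟩
      cases l with
      | nil => left; simp
      | cons a l =>
        right
        refine ⟨(a, l.prod), ⟨?_, l, ?_, ?_, rfl⟩, by simp⟩
        · have := hS a (by simp)
          simp only [T, Finset.coe_union, Finset.coe_image, Set.mem_union, Set.mem_image]
          rcases this with h | h
          · exact Or.inl h
          · exact Or.inr ⟨a⁻¹, h, inv_inv a⟩
        · simp only [List.length_cons] at hl; omega
        · exact fun x hx => hS x (by simp [hx])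
    exact ((Set.finite_singleton _).union (((Finset.finite_toSet T).prod ih).image _)).subset hsub

lemma LocSub.prod {G₁ G₂ : Type u} [Group G₁] [Group G₂] (h₁ : LocSub G₁) (h₂ : LocSub G₂) :
    LocSub (G₁ × G₂) := by
  classical
  intro S r hr
  have hs : 1 < Real.sqrt r := by
    rw [Real.lt_sqrt (by norm_num)]
    simpa using hr
  filter_upwards [h₁ (S.image Prod.fst) _ hs, h₂ (S.image Prod.snd) _ hs] with n hn1 hn2
  have hsub : ball (S : Set (G₁ × G₂)) n ⊆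
      ball ((S.image Prod.fst : Finset G₁) : Set G₁) n ×ˢ
      ball ((S.image Prod.snd : Finset G₂) : Set G₂) n := by
    rintro g ⟨l, hl, hS, rfl⟩
    refine ⟨⟨l.map Prod.fst, by simpa using hl, ?_, ?_⟩, ⟨l.map Prod.snd, by simpa using hl, ?_, ?_⟩⟩
    · intro x hx
      obtain ⟨y, hy, rfl⟩ := List.mem_map.1 hx
      rcases hS y hy with h | h
      · left; exact Finset.mem_coe.2 (Finset.mem_image_of_mem _ h)
      · right
        exact Finset.mem_coe.2 (Finset.mem_image.2 ⟨y⁻¹, h, rfl⟩)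
    · exact (map_list_prod (MonoidHom.fst G₁ G₂) l).symm
    · intro x hx
      obtain ⟨y, hy, rfl⟩ := List.mem_map.1 hx
      rcases hS y hy with h | h
      · left; exact Finset.mem_coe.2 (Finset.mem_image_of_mem _ h)
      · right
        exact Finset.mem_coe.2 (Finset.mem_image.2 ⟨y⁻¹, h, rfl⟩)
    · exact (map_list_prod (MonoidHom.snd G₁ G₂) l).symm
  have hfin := (ball_finite (S.image Prod.fst) n).prod (ball_finite (S.image Prod.snd) n)
  have h3 := Set.ncard_le_ncard hsub hfin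
  rw [Set.ncard_prod] at h3
  calc ((ball (S : Set (G₁ × G₂)) n).ncard : ℝ) ≤
        ((ball ((S.image Prod.fst : Finset G₁) : Set G₁) n).ncard : ℝ) *
        ((ball ((S.image Prod.snd : Finset G₂) : Set G₂) n).ncard : ℝ) := by exact_mod_cast h3
    _ ≤ Real.sqrt r ^ n * Real.sqrt r ^ n := mul_le_mul hn1 hn2 (by positivity) (by positivity)
    _ = r ^ n := by rw [← mul_pow, Real.mul_self_sqrt (by linarith)]

variable {G : Type u} [Group G] {E : Type*} [AddCommGroup E] [Module ℝ E] [TopologicalSpace E]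
  [IsTopologicalAddGroup E] [ContinuousSMul ℝ E]

lemma exists_small (hsub : LocSub G) (S : Finset G) {lam δ : ℝ} (h0 : 0 < lam) (h1 : lam < 1)
    (hδ : 0 < δ) : ∃ n : ℕ, lam ^ n * ((ball (S : Set G) (n + 1)).ncard : ℝ) ≤ δ := by
  obtain ⟨r, hr1, hr2⟩ : ∃ r : ℝ, 1 < r ∧ lam * r < 1 := by
    have : 1 < 1 / lam := by rw [lt_div_iff₀ h0]; linarith
    obtain ⟨r, hr1, hr2⟩ := exists_between this
    exact ⟨r, hr1, by rw [lt_div_iff₀ h0] at hr2; linarith⟩
  have hr0 : 0 < r := by linarith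
  have t1 : Tendsto (fun n : ℕ => r * (lam * r) ^ n) atTop (𝓝 (r * 0)) :=
    (tendsto_pow_atTop_nhds_zero_of_lt_one (by positivity) hr2).const_mul r
  rw [mul_zero] at t1
  have h2 := t1.eventually (gt_mem_nhds hδ)
  have h3 := (tendsto_add_atTop_nat 1).eventually (hsub S r hr1)
  obtain ⟨n, hn2, hn3⟩ := (h2.and h3).exists
  refine ⟨n, ?_⟩
  calc lam ^ n * ((ball (S : Set G) (n + 1)).ncard : ℝ) ≤ lam ^ n * r ^ (n + 1) :=
        mul_le_mul_of_nonneg_left hn3 (by positivity)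
    _ = r * (lam * r) ^ n := by rw [mul_pow, pow_succ]; ring
    _ ≤ δ := hn2.le

/-- partial orbit sums over balls -/
def Y (ρ : G →* (E →L[ℝ] E)) (S : Finset G) (x : E) (k : ℕ) : E :=
  ∑ g ∈ (ball_finite S k).toFinset, ρ g x

lemma ball_mono (S : Finset G) {m n : ℕ} (h : m ≤ n) : ball (S : Set G) m ⊆ ball (S : Set G) n := by
  rintro g ⟨l, hl, h1, h2⟩
  exact ⟨l, hl.trans h, h1, h2⟩

omit [ContinuousSMul ℝ E] in
lemma Y_step (C : PointedCone ℝ E) (ρ : G →* (E →L[ℝ] E)) (hρ : ∀ g, ∀ x ∈ C, ρ g x ∈ C)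
    (S : Finset G) {x : E} (hx : x ∈ C) (k : ℕ) {s : G} (hs : s ∈ S ∨ s⁻¹ ∈ S) :
    Y ρ S x (k + 1) - ρ s (Y ρ S x k) ∈ C := by
  classical
  have e1 : ρ s (Y ρ S x k) = ∑ g ∈ (ball_finite S k).toFinset.image (fun g => s * g), ρ g x := by
    rw [Finset.sum_image (fun a _ b _ h => mul_left_cancel h), Y, map_sum]
    refine Finset.sum_congr rfl fun g _ => ?_
    rw [map_mul]
    rfl
  have hsub : (ball_finite S k).toFinset.image (fun g => s * g) ⊆ (ball_finite S (k + 1)).toFinset := by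
    intro g hg
    obtain ⟨h, hh, rfl⟩ := Finset.mem_image.1 hg
    rw [Set.Finite.mem_toFinset] at hh ⊢
    obtain ⟨l, hl, h1, rfl⟩ := hh
    refine ⟨s :: l, by simpa using hl, ?_, by simp⟩
    intro y hy
    rcases List.mem_cons.1 hy with rfl | h
    · exact hs
    · exact h1 y h
  rw [e1, Y, ← Finset.sum_sdiff hsub, add_sub_cancel_right]
  exact sum_mem fun g _ => hρ g x hx

omit [ContinuousSMul ℝ E] in
lemma Y_mem (C : PointedCone ℝ E) (ρ : G →* (E →L[ℝ] E)) (hρ : ∀ g, ∀ x ∈ C, ρ g x ∈ C)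
    (S : Finset G) {x : E} (hx : x ∈ C) (k : ℕ) : Y ρ S x k ∈ C :=
  sum_mem fun g _ => hρ g x hx

/-- the almost invariant vector -/
def yy (ρ : G →* (E →L[ℝ] E)) (S : Finset G) (x : E) (lam : ℝ) (n : ℕ) : E :=
  ∑ k ∈ Finset.range (n + 1), lam ^ k • Y ρ S x k

omit [TopologicalSpace E] [IsTopologicalAddGroup E] [ContinuousSMul ℝ E] in
lemma smul_mem' (C : PointedCone ℝ E) {c : ℝ} (hc : 0 ≤ c) {x : E} (hx : x ∈ C) : c • x ∈ C :=
  C.smul_mem hc hx

omit [ContinuousSMul ℝ E] in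
lemma yy_mem (C : PointedCone ℝ E) (ρ : G →* (E →L[ℝ] E)) (hρ : ∀ g, ∀ x ∈ C, ρ g x ∈ C)
    (S : Finset G) {x : E} (hx : x ∈ C) {lam : ℝ} (hl : 0 ≤ lam) (n : ℕ) : yy ρ S x lam n ∈ C :=
  sum_mem fun k _ => smul_mem' C (pow_nonneg hl k) (Y_mem C ρ hρ S hx k)

omit [ContinuousSMul ℝ E] in
lemma yy_step (C : PointedCone ℝ E) (ρ : G →* (E →L[ℝ] E)) (hρ : ∀ g, ∀ x ∈ C, ρ g x ∈ C)
    (S : Finset G) {x : E} (hx : x ∈ C) {lam : ℝ} (hl : 0 < lam) (n : ℕ) {s : G}
    (hs : s ∈ S ∨ s⁻¹ ∈ S) :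
    lam⁻¹ • yy ρ S x lam n + lam ^ n • Y ρ S x (n + 1) - ρ s (yy ρ S x lam n) ∈ C := by
  have e1 : lam⁻¹ • yy ρ S x lam n + lam ^ n • Y ρ S x (n + 1) =
      lam⁻¹ • Y ρ S x 0 + ∑ k ∈ Finset.range (n + 1), lam ^ k • Y ρ S x (k + 1) := by
    rw [yy, Finset.sum_range_succ' (fun k => lam ^ k • Y ρ S x k) n, pow_zero, one_smul, smul_add,
      Finset.smul_sum, Finset.sum_range_succ (fun k => lam ^ k • Y ρ S x (k + 1)) n]
    have : ∀ k ∈ Finset.range n, lam⁻¹ • lam ^ (k + 1) • Y ρ S x (k + 1) =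
        lam ^ k • Y ρ S x (k + 1) := by
      intro k _
      rw [smul_smul, pow_succ, mul_comm (lam ^ k) lam, ← mul_assoc, inv_mul_cancel₀ hl.ne', one_mul]
    rw [Finset.sum_congr rfl this]
    abel
  have e2 : ρ s (yy ρ S x lam n) = ∑ k ∈ Finset.range (n + 1), lam ^ k • ρ s (Y ρ S x k) := by
    rw [yy, map_sum]
    refine Finset.sum_congr rfl fun k _ => ?_
    rw [map_smul]
  rw [e1, e2, add_sub_assoc, ← Finset.sum_sub_distrib]
  refine add_mem (smul_mem' C (inv_nonneg.2 hl.le) (Y_mem C ρ hρ S hx 0)) (sum_mem fun k _ => ?_)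
  rw [← smul_sub]
  exact smul_mem' C (pow_nonneg hl.le k) (Y_step C ρ hρ S hx k hs)

/-- The fixed point theorem for groups of locally subexponential growth. -/
theorem exists_fixed [LocallyConvexSpace ℝ E] [T2Space E] (hsub : LocSub G)
    (C : PointedCone ℝ E) (ρ : G →* (E →L[ℝ] E))
    (hcomp : IsComplete ((fun x : E => fun f : E →L[ℝ] ℝ => f x) '' (C : Set E)))
    (hρ : ∀ g : G, ∀ x ∈ C, (ρ g) x ∈ C)
    (hlb : ∃ x ∈ C, x ≠ 0 ∧ Bornology.IsVonNBounded ℝ (Set.range fun g : G => (ρ g) x))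
    (hcb : ∃ φ : E →L[ℝ] ℝ, ∀ l : E →L[ℝ] ℝ, ∃ (n : ℕ) (g : Fin n → G),
              ∀ x ∈ C, |l x| ≤ ∑ i, φ ((ρ (g i)⁻¹) x)) :
    ∃ x ∈ C, x ≠ 0 ∧ ∀ g : G, (ρ g) x = x := by
  classical
  -- a positive cobounding form
  obtain ⟨P, hP0, hP⟩ : ∃ P : E →L[ℝ] ℝ, (∀ x ∈ C, 0 ≤ P x) ∧
      ∀ l : E →L[ℝ] ℝ, ∃ (n : ℕ) (g : Fin n → G), ∀ x ∈ C, |l x| ≤ ∑ i, P ((ρ (g i)⁻¹) x) := by
    obtain ⟨φ, hφ⟩ := hcb
    obtain ⟨m, k, hk⟩ := hφ φ
    let P : E →L[ℝ] ℝ := ∑ i, φ.comp (ρ (k i)⁻¹)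
    have hPv : ∀ x, P x = ∑ i, φ ((ρ (k i)⁻¹) x) := by
      intro x
      simp only [P, sum_apply, ContinuousLinearMap.comp_apply]
    refine ⟨P, fun x hx => ?_, fun l => ?_⟩
    · rw [hPv]; exact (abs_nonneg _).trans (hk x hx)
    · obtain ⟨n, g, hg⟩ := hφ l
      refine ⟨n, g, fun x hx => (hg x hx).trans (Finset.sum_le_sum fun i _ => ?_)⟩
      rw [hPv]
      exact (le_abs_self _).trans (hk _ (hρ _ x hx))
  obtain ⟨x₁, hx₁, hx₁0, hbd⟩ := hlb
  -- a point of the orbit where `P` is positive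
  obtain ⟨g₀, hg₀⟩ : ∃ g, 0 < P (ρ g x₁) := by
    by_contra hcon
    push Not at hcon
    apply hx₁0
    by_contra hne
    obtain ⟨l, hl⟩ := SeparatingDual.exists_ne_zero (R := ℝ) hne
    obtain ⟨n, g, hg⟩ := hP l
    apply hl
    have h1 := hg x₁ hx₁
    have h2 : ∑ i, P ((ρ (g i)⁻¹) x₁) ≤ 0 := Finset.sum_nonpos fun i _ => hcon _
    exact abs_eq_zero.1 (le_antisymm (h1.trans h2) (abs_nonneg _))
  let x₀ : E := ρ g₀ x₁
  have hx₀ : x₀ ∈ C := hρ _ _ hx₁
  -- uniform bound of `P` on the orbit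
  obtain ⟨M, hM0, hM⟩ : ∃ M : ℝ, 0 < M ∧ ∀ g, P (ρ g x₀) ≤ M := by
    have h1 : Bornology.IsVonNBounded ℝ (P '' (Set.range fun g : G => (ρ g) x₁)) := hbd.image P
    rw [NormedSpace.isVonNBounded_iff] at h1
    obtain ⟨R, hR⟩ := h1.exists_norm_le
    refine ⟨|R| + 1, by positivity, fun g => ?_⟩
    have h2 : P (ρ g x₀) = P (ρ (g * g₀) x₁) := by
      simp only [x₀, map_mul]; rfl
    rw [h2]
    have h3 := hR _ ⟨_, ⟨g * g₀, rfl⟩, rfl⟩
    have h4 := le_abs_self R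
    have h5 := le_abs_self (P (ρ (g * g₀) x₁))
    rw [Real.norm_eq_abs] at h3
    linarith
  have hPx₀ : 0 < P x₀ := hg₀
  -- index set
  let I := Finset G × ℕ
  let lam : I → ℝ := fun i => 1 - 1 / ((i.2 : ℝ) + 2)
  have hlam0 : ∀ i, 0 < lam i := fun i => by
    have : (1 : ℝ) / ((i.2 : ℝ) + 2) < 1 := by
      rw [div_lt_one (by positivity)]
      have : (0 : ℝ) ≤ i.2 := by positivity
      linarith
    simp only [lam]; linarith
  have hlamh : ∀ i, (1 : ℝ) / 2 ≤ lam i := fun i => by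
    have : (1 : ℝ) / ((i.2 : ℝ) + 2) ≤ 1 / 2 := by
      apply one_div_le_one_div_of_le (by norm_num)
      have : (0 : ℝ) ≤ i.2 := by positivity
      linarith
    simp only [lam]; linarith
  have hlam1 : ∀ i, lam i < 1 := fun i => by
    have : (0 : ℝ) < 1 / ((i.2 : ℝ) + 2) := by positivity
    simp only [lam]; linarith
  have hN : ∀ i : I, ∃ n : ℕ, lam i ^ n * ((ball (i.1 : Set G) (n + 1)).ncard : ℝ) ≤
      1 / ((i.2 : ℝ) + 1) := fun i =>
    exists_small hsub i.1 (hlam0 i) (hlam1 i) (by positivity)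
  choose N hN using hN
  let y : I → E := fun i => yy ρ i.1 x₀ (lam i) (N i)
  have hyC : ∀ i, y i ∈ C := fun i => yy_mem C ρ hρ i.1 hx₀ (hlam0 i).le _
  have hYge : ∀ S : Finset G, P x₀ ≤ P (Y ρ S x₀ 0) := by
    intro S
    have h1 : (1 : G) ∈ (ball_finite S 0).toFinset := by
      rw [Set.Finite.mem_toFinset]
      exact ⟨[], by simp, by simp, rfl⟩
    rw [Y, map_sum]
    have h2 := Finset.single_le_sum (f := fun g => P (ρ g x₀))
      (fun g _ => hP0 _ (hρ g _ hx₀)) h1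
    simpa using h2
  have hyP : ∀ i, P x₀ ≤ P (y i) := by
    intro i
    simp only [y, yy, map_sum, map_smul, smul_eq_mul]
    have h2 := Finset.single_le_sum
      (f := fun k => lam i ^ k * P (Y ρ i.1 x₀ k))
      (fun k _ => mul_nonneg (pow_nonneg (hlam0 i).le k) (hP0 _ (Y_mem C ρ hρ i.1 hx₀ k)))
      (Finset.mem_range.2 (Nat.succ_pos (N i)))
    simp only [pow_zero, one_mul] at h2
    exact (hYge i.1).trans h2
  have hyP0 : ∀ i, 0 < P (y i) := fun i => hPx₀.trans_le (hyP i)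
  let z : I → E := fun i => (P (y i))⁻¹ • y i
  let e : I → E := fun i => (P (y i))⁻¹ • (lam i ^ (N i) • Y ρ i.1 x₀ (N i + 1))
  have hzC : ∀ i, z i ∈ C := fun i => smul_mem' C (inv_nonneg.2 (hyP0 i).le) (hyC i)
  have heC : ∀ i, e i ∈ C := fun i => smul_mem' C (inv_nonneg.2 (hyP0 i).le)
    (smul_mem' C (pow_nonneg (hlam0 i).le _) (Y_mem C ρ hρ i.1 hx₀ _))
  have hPz : ∀ i, P (z i) = 1 := fun i => by
    simp only [z, map_smul, smul_eq_mul]
    exact inv_mul_cancel₀ (hyP0 i).ne'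
  have hstep : ∀ i : I, ∀ s : G, (s ∈ i.1 ∨ s⁻¹ ∈ i.1) →
      (lam i)⁻¹ • z i + e i - ρ s (z i) ∈ C := by
    intro i s hs
    have h1 := yy_step C ρ hρ i.1 hx₀ (hlam0 i) (N i) hs
    have h2 := smul_mem' C (inv_nonneg.2 (hyP0 i).le) h1
    have h3 : (P (y i))⁻¹ • ((lam i)⁻¹ • y i + lam i ^ (N i) • Y ρ i.1 x₀ (N i + 1) - ρ s (y i)) =
        (lam i)⁻¹ • z i + e i - ρ s (z i) := by
      simp only [z, e, map_smul, smul_sub, smul_add]
      rw [smul_comm (P (y i))⁻¹ (lam i)⁻¹ (y i)]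
    rw [← h3]
    exact h2
  -- the error is small
  have heP : ∀ i : I, ∀ g : G, P (ρ g (e i)) ≤ M / P x₀ * (1 / ((i.2 : ℝ) + 1)) := by
    intro i g
    have h1 : P (ρ g (Y ρ i.1 x₀ (N i + 1))) ≤ ((ball (i.1 : Set G) (N i + 1)).ncard : ℝ) * M := by
      rw [Y, map_sum, map_sum]
      refine (Finset.sum_le_card_nsmul _ _ M fun h _ => ?_).trans ?_
      · have : P (ρ g (ρ h x₀)) = P (ρ (g * h) x₀) := by rw [map_mul]; rfl
        rw [this]; exact hM _
      · rw [nsmul_eq_mul, Set.ncard_eq_toFinset_card _ (ball_finite i.1 (N i + 1))]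
    simp only [e, map_smul, smul_eq_mul]
    have h2 : lam i ^ N i * P (ρ g (Y ρ i.1 x₀ (N i + 1))) ≤ M * (1 / ((i.2 : ℝ) + 1)) := by
      calc lam i ^ N i * P (ρ g (Y ρ i.1 x₀ (N i + 1))) ≤
            lam i ^ N i * (((ball (i.1 : Set G) (N i + 1)).ncard : ℝ) * M) :=
            mul_le_mul_of_nonneg_left h1 (pow_nonneg (hlam0 i).le _)
        _ = M * (lam i ^ N i * ((ball (i.1 : Set G) (N i + 1)).ncard : ℝ)) := by ring
        _ ≤ _ := mul_le_mul_of_nonneg_left (hN i) hM0.le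
    have h3 : (P (y i))⁻¹ ≤ (P x₀)⁻¹ := inv_anti₀ hPx₀ (hyP i)
    calc (P (y i))⁻¹ * (lam i ^ N i * P (ρ g (Y ρ i.1 x₀ (N i + 1)))) ≤
          (P (y i))⁻¹ * (M * (1 / ((i.2 : ℝ) + 1))) :=
          mul_le_mul_of_nonneg_left h2 (inv_nonneg.2 (hyP0 i).le)
      _ ≤ (P x₀)⁻¹ * (M * (1 / ((i.2 : ℝ) + 1))) :=
          mul_le_mul_of_nonneg_right h3 (by positivity)
      _ = _ := by ring
  -- limits along an ultrafilter
  let U : Ultrafilter I := Ultrafilter.of atTop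
  have hU : (U : Filter I) ≤ atTop := Ultrafilter.of_le _
  have hmem : ∀ g : G, ∀ᶠ i in (U : Filter I), g ∈ i.1 := by
    intro g
    apply hU
    filter_upwards [eventually_ge_atTop (({g}, 0) : I)] with i hi
    exact hi.1 (Finset.mem_singleton_self g)
  have hsnd : Tendsto (fun i : I => i.2) (U : Filter I) atTop := by
    refine Tendsto.mono_left ?_ hU
    rw [← prod_atTop_atTop_eq]
    exact tendsto_snd
  have ht1 : Tendsto (fun i : I => 1 / ((i.2 : ℝ) + 1)) (U : Filter I) (𝓝 0) :=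
    tendsto_one_div_add_atTop_nhds_zero_nat.comp hsnd
  have hlamt : Tendsto (fun i : I => (lam i)⁻¹) (U : Filter I) (𝓝 1) := by
    have h1 : Tendsto (fun n : ℕ => 1 / (((n + 1 : ℕ) : ℝ) + 1)) atTop (𝓝 0) :=
      tendsto_one_div_add_atTop_nhds_zero_nat.comp (tendsto_add_atTop_nat 1)
    have h2 : Tendsto (fun i : I => 1 / ((i.2 : ℝ) + 2)) (U : Filter I) (𝓝 0) := by
      refine (h1.comp hsnd).congr fun i => ?_
      simp only [Function.comp_apply]
      push_cast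
      congr 1
      ring
    have h3 : Tendsto lam (U : Filter I) (𝓝 (1 - 0)) := tendsto_const_nhds.sub h2
    rw [sub_zero] at h3
    simpa using h3.inv₀ one_ne_zero
  have hlaminv : ∀ i, (lam i)⁻¹ ≤ 2 := fun i => by
    have := inv_anti₀ (by norm_num) (hlamh i)
    simpa using this
  let B : ℝ := 2 + M / P x₀
  have hB : ∀ g : G, ∀ᶠ i in (U : Filter I), P (ρ g (z i)) ≤ B := by
    intro g
    filter_upwards [hmem g] with i hi
    have h1 := hP0 _ (hstep i g (Or.inl hi))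
    have h2 := heP i 1
    rw [map_sub, map_add, map_smul, hPz, smul_eq_mul, mul_one] at h1
    rw [map_one] at h2
    have h3 : P ((1 : E →L[ℝ] E) (e i)) = P (e i) := rfl
    rw [h3] at h2
    have h4 : M / P x₀ * (1 / ((i.2 : ℝ) + 1)) ≤ M / P x₀ * 1 := by
      refine mul_le_mul_of_nonneg_left ?_ (by positivity)
      rw [div_le_one (by positivity)]
      have : (0 : ℝ) ≤ i.2 := by positivity
      linarith
    have h5 := hlaminv i
    simp only [B]
    linarith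
  have hlim : ∀ l : E →L[ℝ] ℝ, ∃ c : ℝ, Tendsto (fun i => l (z i)) (U : Filter I) (𝓝 c) := by
    intro l
    obtain ⟨n, g, hg⟩ := hP l
    have h1 : ∀ᶠ i in (U : Filter I), l (z i) ∈ Set.Icc (-(n * B)) (n * B) := by
      have h2 : ∀ᶠ i in (U : Filter I), ∀ j : Fin n, P (ρ (g j)⁻¹ (z i)) ≤ B :=
        Filter.eventually_all.2 fun j => hB _
      filter_upwards [h2] with i hi
      rw [Set.mem_Icc, ← abs_le]
      refine (hg _ (hzC i)).trans ((Finset.sum_le_sum fun j _ => hi j).trans ?_)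
      simp
    obtain ⟨c, -, hc⟩ := (isCompact_Icc (a := -(n * B)) (b := n * B)).ultrafilter_le_nhds
      (U.map (fun i => l (z i))) (by
        rw [le_principal_iff]
        exact h1)
    exact ⟨c, hc⟩
  choose F hF using hlim
  have hclosed := hcomp.isClosed
  have hFmem : F ∈ (fun x : E => fun f : E →L[ℝ] ℝ => f x) '' (C : Set E) := by
    refine hclosed.mem_of_tendsto (f := fun i => (fun f : E →L[ℝ] ℝ => f (z i)))
      (b := (U : Filter I)) (tendsto_pi_nhds.2 hF) (Eventually.of_forall fun i => ?_)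
    exact ⟨z i, hzC i, rfl⟩
  obtain ⟨w, hwC, hw⟩ := hFmem
  have hw' : ∀ l : E →L[ℝ] ℝ, l w = F l := fun l => congrFun hw l
  have hPF : F P = 1 := by
    refine tendsto_nhds_unique (hF P) ?_
    simp only [hPz]
    exact tendsto_const_nhds
  have het : ∀ l : E →L[ℝ] ℝ, Tendsto (fun i => l (e i)) (U : Filter I) (𝓝 0) := by
    intro l
    obtain ⟨n, g, hg⟩ := hP l
    have h1 : Tendsto (fun i : I => n * (M / P x₀ * (1 / ((i.2 : ℝ) + 1)))) (U : Filter I)
        (𝓝 (n * (M / P x₀ * 0))) := (ht1.const_mul _).const_mul _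
    rw [mul_zero, mul_zero] at h1
    refine squeeze_zero_norm (fun i => ?_) h1
    rw [Real.norm_eq_abs]
    refine (hg _ (heC i)).trans ((Finset.sum_le_sum fun j _ => heP i _).trans ?_)
    simp
  have hat : ∀ (s : G) (l : E →L[ℝ] ℝ),
      Tendsto (fun i => l ((lam i)⁻¹ • z i + e i - ρ s (z i))) (U : Filter I)
        (𝓝 (F l - F (l.comp (ρ s)))) := by
    intro s l
    have h1 := ((hlamt.mul (hF l)).add (het l)).sub (hF (l.comp (ρ s)))
    rw [one_mul, add_zero] at h1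
    refine h1.congr fun i => ?_
    simp only [map_sub, map_add, map_smul, smul_eq_mul, ContinuousLinearMap.comp_apply]
  have hle : ∀ (s : G) (q : E →L[ℝ] ℝ), (∀ x ∈ C, 0 ≤ q x) → F (q.comp (ρ s)) ≤ F q := by
    intro s q hq
    have h1 : 0 ≤ F q - F (q.comp (ρ s)) := by
      refine ge_of_tendsto (hat s q) ?_
      filter_upwards [hmem s] with i hi
      exact hq _ (hstep i s (Or.inl hi))
    linarith
  have heq : ∀ (s : G) (q : E →L[ℝ] ℝ), (∀ x ∈ C, 0 ≤ q x) → F (q.comp (ρ s)) = F q := by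
    intro s q hq
    refine le_antisymm (hle s q hq) ?_
    have h1 := hle s⁻¹ (q.comp (ρ s)) (fun x hx => hq _ (hρ _ _ hx))
    have h2 : (q.comp (ρ s)).comp (ρ s⁻¹) = q := by
      ext x
      simp only [ContinuousLinearMap.comp_apply]
      have : ρ s (ρ s⁻¹ x) = (ρ (s * s⁻¹)) x := by rw [map_mul]; rfl
      rw [this, mul_inv_cancel, map_one]
      rfl
    rwa [h2] at h1
  have hinv : ∀ (s : G) (l : E →L[ℝ] ℝ), F (l.comp (ρ s)) = F l := by
    intro s l
    obtain ⟨n, g, hg⟩ := hP l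
    have h1 : Tendsto (fun i => ∑ j, (P.comp (ρ (g j)⁻¹)) ((lam i)⁻¹ • z i + e i - ρ s (z i)))
        (U : Filter I) (𝓝 (∑ j, (F (P.comp (ρ (g j)⁻¹)) -
          F ((P.comp (ρ (g j)⁻¹)).comp (ρ s))))) :=
      tendsto_finsetSum _ fun j _ => hat s _
    have h2 : ∑ j, (F (P.comp (ρ (g j)⁻¹)) - F ((P.comp (ρ (g j)⁻¹)).comp (ρ s))) = 0 := by
      refine Finset.sum_eq_zero fun j _ => ?_
      rw [heq s (P.comp (ρ (g j)⁻¹)) (fun x hx => hP0 _ (hρ _ _ hx)), sub_self]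
    rw [h2] at h1
    have h3 : Tendsto (fun i => l ((lam i)⁻¹ • z i + e i - ρ s (z i))) (U : Filter I) (𝓝 0) := by
      refine squeeze_zero_norm' ?_ h1
      filter_upwards [hmem s] with i hi
      rw [Real.norm_eq_abs]
      exact hg _ (hstep i s (Or.inl hi))
    have h4 := tendsto_nhds_unique (hat s l) h3
    linarith
  refine ⟨w, hwC, ?_, fun s => ?_⟩
  · intro h0
    have := hw' P
    rw [h0, map_zero, hPF] at this
    exact zero_ne_one this
  · by_contra hne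
    obtain ⟨l, hl⟩ := SeparatingDual.exists_separating_of_ne (R := ℝ) hne
    apply hl
    have h1 : l (ρ s w) = (l.comp (ρ s)) w := rfl
    rw [h1, hw', hw', hinv]

end Pool.Agent.H602R3.ConeConv
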