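import Mathlib

namespace Pool.Agent.H602R3.Cone

open Filter Topology

universe u

/-- A subset `C` of a topological vector space `E` is weakly complete if it is complete for the
weak topology `σ(E,E')`: every proper filter on `C` which is Cauchy for the weak uniformity (that
is, whose image under every continuous linear form is Cauchy) converges weakly to a point of `C`. -/
def WeaklyComplete {E : Type*} [AddCommGroup E] [Module ℝ E] [TopologicalSpace E]
    (C : Set E) : Prop :=
  ∀ F : Filter E, F.NeBot → C ∈ F → (∀ φ : E →L[ℝ] ℝ, Cauchy (F.map φ)) →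
    ∃ x ∈ C, ∀ φ : E →L[ℝ] ℝ, Tendsto φ F (𝓝 (φ x))

/-- The fixed-point property for cones: every representation `ρ` of `G` on a weakly complete
proper convex cone `C` in a Hausdorff locally convex real topological vector space `E`, which is of
locally bounded type and of cobounded type, has a non-zero fixed point in `C`. -/
def FixedPointPropertyForCones (G : Type u) [Group G] : Prop :=
  ∀ (E : Type u) [AddCommGroup E] [Module ℝ E] [TopologicalSpace E] [IsTopologicalAddGroup E]
    [ContinuousSMul ℝ E] [LocallyConvexSpace ℝ E] [T2Space E]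
    (C : PointedCone ℝ E) (ρ : G →* (E →L[ℝ] E)),
    (∀ x ∈ C, -x ∈ C → x = 0) →
    WeaklyComplete (C : Set E) →
    (∀ g, ∀ x ∈ C, ρ g x ∈ C) →
    (∃ x ∈ C, x ≠ 0 ∧ Bornology.IsVonNBounded ℝ (Set.range fun g => ρ g x)) →
    (∃ φ : E →L[ℝ] ℝ, ∀ ψ : E →L[ℝ] ℝ, ∃ l : List G,
      ∀ x ∈ C, |ψ x| ≤ (l.map fun g => φ (ρ g⁻¹ x)).sum) →
    ∃ x ∈ C, x ≠ 0 ∧ ∀ g, ρ g x = x

end Pool.Agent.H602R3.Cone
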