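import Pool.Agent.H602R3.ConeTree

namespace Pool.Agent.H602R3.ConeTree

open Filter Topology

variable {G : Type*} [Group G] (S : Finset G) {β : ℝ}

/-- limiting flow on words -/
noncomputable def fl (β : ℝ) (l : List G) : ℝ := ⨅ n, a S β n l

lemma a_bdd (hβ : 0 < β) (l : List G) : BddBelow (Set.range fun n => a S β n l) :=
  ⟨0, by rintro _ ⟨n, rfl⟩; exact a_nonneg S hβ n l⟩

lemma fl_tendsto (hβ : 0 < β) (l : List G) :
    Tendsto (fun n => a S β n l) atTop (𝓝 (fl S β l)) :=
  tendsto_atTop_ciInf (a_antitone S hβ l) (a_bdd S hβ l)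

lemma fl_nonneg (hβ : 0 < β) (l : List G) : 0 ≤ fl S β l :=
  le_ciInf fun n => a_nonneg S hβ n l

lemma fl_le_one (hβ : 0 < β) (l : List G) : fl S β l ≤ 1 :=
  (ciInf_le (a_bdd S hβ l) 0).trans (a_le_one S 0 l)

lemma fl_nil (hs : ∀ n, ¬ a S β n [] < 1) : fl S β [] = 1 := by
  have : ∀ n, a S β n [] = 1 := fun n => le_antisymm (a_le_one S n []) (not_lt.1 (hs n))
  simp [fl, this]

lemma fl_super (hβ : 0 < β) (l : List G) :
    β * fl S β l ≤ ∑ s ∈ ch S l, fl S β (s :: l) := by
  have h1 : Tendsto (fun n => β * a S β (n + 1) l) atTop (𝓝 (β * fl S β l)) :=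
    ((fl_tendsto S hβ l).comp (tendsto_add_atTop_nat 1)).const_mul β
  have h2 : Tendsto (fun n => ∑ s ∈ ch S l, a S β n (s :: l)) atTop
      (𝓝 (∑ s ∈ ch S l, fl S β (s :: l))) :=
    tendsto_finsetSum _ fun s _ => fl_tendsto S hβ (s :: l)
  refine le_of_tendsto_of_tendsto' h1 h2 fun n => ?_
  have h3 : a S β (n + 1) l ≤ β⁻¹ * ∑ s ∈ ch S l, a S β n (s :: l) := min_le_right _ _
  calc β * a S β (n + 1) l ≤ β * (β⁻¹ * ∑ s ∈ ch S l, a S β n (s :: l)) :=
        mul_le_mul_of_nonneg_left h3 hβ.le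
    _ = _ := by rw [← mul_assoc, mul_inv_cancel₀ hβ.ne', one_mul]

open Classical in
/-- the normal form of an element (or `[]` if there is none) -/
noncomputable def nf (g : G) : List G :=
  if h : ∃ l : List G, IsNF S l ∧ l.prod = g then h.choose else []

/-- elements having a normal form -/
def HasNF (g : G) : Prop := ∃ l : List G, IsNF S l ∧ l.prod = g

lemma nf_spec {g : G} (h : HasNF S g) : IsNF S (nf S g) ∧ (nf S g).prod = g := by
  have h' : ∃ l : List G, IsNF S l ∧ l.prod = g := h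
  simp only [nf, dif_pos h']
  exact h'.choose_spec

lemma nf_prod {l : List G} (h : IsNF S l) : nf S l.prod = l := by
  have h' : HasNF S l.prod := ⟨l, h, rfl⟩
  exact isNF_unique S (nf_spec S h').1 h (nf_spec S h').2

open Classical in
/-- the function on the group -/
noncomputable def fG (β : ℝ) (g : G) : ℝ := if HasNF S g then fl S β (nf S g) else 0

lemma fG_nonneg (hβ : 0 < β) (g : G) : 0 ≤ fG S β g := by
  unfold fG
  split_ifs
  · exact fl_nonneg S hβ _
  · exact le_rfl

lemma fG_le_one (hβ : 0 < β) (g : G) : fG S β g ≤ 1 := by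
  unfold fG
  split_ifs
  · exact fl_le_one S hβ _
  · exact zero_le_one

lemma fG_one (hs : ∀ n, ¬ a S β n [] < 1) : fG S β (1 : G) = 1 := by
  have h : HasNF S (1 : G) := ⟨[], isNF_nil S, rfl⟩
  have h2 : nf S (1 : G) = [] := nf_prod S (isNF_nil S)
  simp only [fG, h, if_true, h2]
  exact fl_nil S hs

open Classical in
/-- the part of `fG` carried by elements whose last letter is `s` -/
noncomputable def hG (β : ℝ) (s c : G) : ℝ :=
  if HasNF S (s⁻¹ * c) ∧ IsNF S (s :: nf S (s⁻¹ * c)) then fG S β c else 0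

lemma hG_nonneg (hβ : 0 < β) (s c : G) : 0 ≤ hG S β s c := by
  unfold hG
  split_ifs
  · exact fG_nonneg S hβ _
  · exact le_rfl

lemma hG_le (hβ : 0 < β) (s c : G) : hG S β s c ≤ fG S β c := by
  unfold hG
  split_ifs
  · exact le_rfl
  · exact fG_nonneg S hβ _

lemma sum_hG_le (hβ : 0 < β) (c : G) : ∑ s ∈ S, hG S β s c ≤ fG S β c := by
  classical
  by_cases h : ∃ s₀ ∈ S, HasNF S (s₀⁻¹ * c) ∧ IsNF S (s₀ :: nf S (s₀⁻¹ * c))
  · obtain ⟨s₀, hs₀, h1, h2⟩ := h
    have hc : ∀ s : G, HasNF S (s⁻¹ * c) → IsNF S (s :: nf S (s⁻¹ * c)) →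
        nf S c = s :: nf S (s⁻¹ * c) := by
      intro s h3 h4
      have h5 : (s :: nf S (s⁻¹ * c)).prod = c := by
        rw [List.prod_cons, (nf_spec S h3).2, mul_inv_cancel_left]
      conv_lhs => rw [← h5]
      exact nf_prod S h4
    rw [Finset.sum_eq_single_of_mem s₀ hs₀]
    · exact hG_le S hβ _ _
    · intro s hs hne
      unfold hG
      rw [if_neg]
      rintro ⟨h3, h4⟩
      have e1 := hc s h3 h4
      rw [hc s₀ h1 h2] at e1
      exact hne (List.cons.inj e1).1.symm
  · push Not at h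
    have : ∀ s ∈ S, hG S β s c = 0 := by
      intro s hs
      unfold hG
      rw [if_neg]
      rintro ⟨h3, h4⟩
      exact h s hs h3 h4
    rw [Finset.sum_eq_zero this]
    exact fG_nonneg S hβ _

/-- The growth inequality on the group: `β f ≤ ∑ (translates of the pieces of f)`. -/
lemma fG_super (hβ : 0 < β) (g : G) :
    β * fG S β g ≤ ∑ s ∈ S, hG S β s (s * g) := by
  classical
  by_cases h : HasNF S g
  · have h1 : fG S β g = fl S β (nf S g) := by simp only [fG, h, if_true]
    have h2 : ∑ s ∈ S, hG S β s (s * g) = ∑ s ∈ ch S (nf S g), fl S β (s :: nf S g) := by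
      unfold ch
      rw [Finset.sum_filter]
      refine Finset.sum_congr rfl fun s hs => ?_
      unfold hG
      rw [inv_mul_cancel_left]
      by_cases h3 : IsNF S (s :: nf S g)
      · have h4 : (s :: nf S g).prod = s * g := by rw [List.prod_cons, (nf_spec S h).2]
        have h5 : HasNF S (s * g) := ⟨_, h3, h4⟩
        have h6 : nf S (s * g) = s :: nf S g := by rw [← h4]; exact nf_prod S h3
        rw [if_pos ⟨h, h3⟩, if_pos h3]
        simp only [fG, h5, if_true, h6]
      · rw [if_neg (fun h' => h3 h'.2), if_neg h3]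
    rw [h1, h2]
    exact fl_super S hβ _
  · have h1 : fG S β g = 0 := by simp only [fG, h, if_false]
    rw [h1, mul_zero]
    exact Finset.sum_nonneg fun s _ => hG_nonneg S hβ _ _

end Pool.Agent.H602R3.ConeTree
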