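import Mathlib
import Pool.Agent.H602R3.ConeDefs

noncomputable section

namespace Pool.Agent.H602R3.Cone

open Filter Topology

universe u

variable {G : Type u} [Group G]

/-- the space `ℓ^∞(G;f)` of functions `G`-dominated by `f` -/
def dom (f : G → ℝ) (hf : ∀ x, 0 ≤ f x) : Submodule ℝ (G → ℝ) where
  carrier := {h | ∃ l : List G, ∀ x, |h x| ≤ (l.map fun g => f (g⁻¹ * x)).sum}
  zero_mem' := ⟨[], fun x => by simp⟩
  add_mem' := by
    rintro h k ⟨l, hl⟩ ⟨m, hm⟩
    refine ⟨l ++ m, fun x => ?_⟩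
    rw [List.map_append, List.sum_append]
    exact (abs_add_le _ _).trans (add_le_add (hl x) (hm x))
  smul_mem' := by
    rintro c h ⟨l, hl⟩
    obtain ⟨n, hn⟩ := exists_nat_ge |c|
    refine ⟨(List.replicate n l).flatten, fun x => ?_⟩
    have h1 : (((List.replicate n l).flatten).map fun g => f (g⁻¹ * x)).sum =
        n * (l.map fun g => f (g⁻¹ * x)).sum := by
      rw [List.map_flatten, List.map_replicate, List.sum_flatten, List.map_replicate,
        List.sum_replicate, nsmul_eq_mul]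
    rw [h1, Pi.smul_apply, smul_eq_mul, abs_mul]
    have h0 : 0 ≤ (l.map fun g => f (g⁻¹ * x)).sum :=
      List.sum_nonneg (by
        intro y hy
        obtain ⟨g, -, rfl⟩ := List.mem_map.1 hy
        exact hf _)
    exact mul_le_mul hn (hl x) (abs_nonneg _) (by positivity)

variable {f : G → ℝ} {hf : ∀ x, 0 ≤ f x}

/-- translation by `g` on `ℓ^∞(G;f)` -/
def tl (f : G → ℝ) (hf : ∀ x, 0 ≤ f x) (g : G) : dom f hf →ₗ[ℝ] dom f hf where
  toFun h := ⟨fun x => h.1 (g⁻¹ * x), by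
    obtain ⟨l, hl⟩ := h.2
    refine ⟨l.map (fun k => g * k), fun x => ?_⟩
    have := hl (g⁻¹ * x)
    rw [List.map_map]
    simpa [Function.comp_def, mul_assoc] using this⟩
  map_add' h k := rfl
  map_smul' c h := rfl

lemma tl_one (h : dom f hf) : tl f hf 1 h = h := by
  apply Subtype.ext
  funext x
  simp [tl]

lemma tl_mul (g k : G) (h : dom f hf) : tl f hf (g * k) h = tl f hf g (tl f hf k h) := by
  apply Subtype.ext
  funext x
  simp [tl, mul_assoc]

/-- the pairing of the algebraic dual of `ℓ^∞(G;f)` with `ℓ^∞(G;f)` -/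
abbrev Bf (f : G → ℝ) (hf : ∀ x, 0 ≤ f x) :
    (dom f hf →ₗ[ℝ] ℝ) →ₗ[ℝ] (dom f hf →ₗ[ℝ] ℝ) := LinearMap.id

/-- the algebraic dual with the topology of pointwise convergence -/
def EE (f : G → ℝ) (hf : ∀ x, 0 ≤ f x) : Type u := WeakBilin (Bf f hf)

lemma Bf_inj : Function.Injective (Bf f hf) := fun _ _ h => h

instance : AddCommGroup (EE f hf) := inferInstanceAs (AddCommGroup (WeakBilin (Bf f hf)))

instance : Module ℝ (EE f hf) := inferInstanceAs (Module ℝ (WeakBilin (Bf f hf)))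

instance : TopologicalSpace (EE f hf) := inferInstanceAs (TopologicalSpace (WeakBilin (Bf f hf)))

instance : IsTopologicalAddGroup (EE f hf) :=
  inferInstanceAs (IsTopologicalAddGroup (WeakBilin (Bf f hf)))

instance : ContinuousSMul ℝ (EE f hf) := inferInstanceAs (ContinuousSMul ℝ (WeakBilin (Bf f hf)))

instance : LocallyConvexSpace ℝ (EE f hf) :=
  inferInstanceAs (LocallyConvexSpace ℝ (WeakBilin (Bf f hf)))

instance : T2Space (EE f hf) := (WeakBilin.isEmbedding Bf_inj).t2Space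

/-- the pairing, as a bilinear map on `EE` -/
def pr (f : G → ℝ) (hf : ∀ x, 0 ≤ f x) : EE f hf →ₗ[ℝ] (dom f hf →ₗ[ℝ] ℝ) where
  toFun μ := μ
  map_add' _ _ := rfl
  map_smul' _ _ := rfl

/-- a linear form as a point of `EE` -/
def mk (μ : dom f hf →ₗ[ℝ] ℝ) : EE f hf := μ

lemma EE_ext {μ ν : EE f hf} (h : ∀ x, pr f hf μ x = pr f hf ν x) : μ = ν :=
  LinearMap.ext h

/-- evaluation at an element of the function space, as a continuous linear form -/
def evl (h : dom f hf) : EE f hf →L[ℝ] ℝ where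
  toFun μ := pr f hf μ h
  map_add' _ _ := rfl
  map_smul' _ _ := rfl
  cont := WeakBilin.eval_continuous (Bf f hf) h

lemma evl_surj (φ : EE f hf →L[ℝ] ℝ) : ∃ h : dom f hf, φ = evl h := by
  obtain ⟨h, hh⟩ := LinearMap.dualEmbedding_surjective (Bf f hf) φ
  refine ⟨h, ?_⟩
  rw [← hh]
  rfl

lemma continuous_to_EE {X : Type*} [TopologicalSpace X] {F : X → EE f hf}
    (h : ∀ y, Continuous fun x => pr f hf (F x) y) : Continuous F :=
  WeakBilin.continuous_of_continuous_eval (Bf f hf) h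

/-- the cone of positive forms -/
def CC (f : G → ℝ) (hf : ∀ x, 0 ≤ f x) : PointedCone ℝ (EE f hf) where
  carrier := {μ | ∀ h : dom f hf, (∀ x, 0 ≤ h.1 x) → 0 ≤ pr f hf μ h}
  zero_mem' := fun h _ => le_rfl
  add_mem' := by
    intro μ ν hμ hν h hh
    rw [map_add]
    exact add_nonneg (hμ h hh) (hν h hh)
  smul_mem' := by
    intro c μ hμ h hh
    exact mul_nonneg c.2 (hμ h hh)

lemma mem_CC {μ : EE f hf} :
    μ ∈ CC f hf ↔ ∀ h : dom f hf, (∀ x, 0 ≤ h.1 x) → 0 ≤ pr f hf μ h := Iff.rfl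

/-- the representation -/
def rep (f : G → ℝ) (hf : ∀ x, 0 ≤ f x) : G →* (EE f hf →L[ℝ] EE f hf) where
  toFun g :=
    { toFun := fun μ => mk ((pr f hf μ).comp (tl f hf g⁻¹))
      map_add' := fun μ ν => rfl
      map_smul' := fun c μ => rfl
      cont := continuous_to_EE fun y => (evl (tl f hf g⁻¹ y)).continuous }
  map_one' := by
    apply ContinuousLinearMap.ext
    intro μ
    apply EE_ext
    intro h
    show pr f hf μ (tl f hf (1 : G)⁻¹ h) = pr f hf μ h
    rw [inv_one, tl_one]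
  map_mul' g k := by
    apply ContinuousLinearMap.ext
    intro μ
    apply EE_ext
    intro h
    show pr f hf μ (tl f hf (g * k)⁻¹ h) = pr f hf μ (tl f hf k⁻¹ (tl f hf g⁻¹ h))
    rw [mul_inv_rev, tl_mul]

lemma rep_apply (g : G) (μ : EE f hf) (h : dom f hf) :
    pr f hf (rep f hf g μ) h = pr f hf μ (tl f hf g⁻¹ h) := rfl

lemma self_mem : f ∈ dom f hf := ⟨[1], fun x => by simp [abs_of_nonneg (hf x)]⟩

/-- bound of a positive form by its values at the translates of `f` -/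
lemma pos_bound {μ : dom f hf →ₗ[ℝ] ℝ} (hμ : ∀ h : dom f hf, (∀ x, 0 ≤ h.1 x) → 0 ≤ μ h)
    {h : dom f hf} {l : List G} (hl : ∀ x, |h.1 x| ≤ (l.map fun g => f (g⁻¹ * x)).sum) :
    |μ h| ≤ (l.map fun g => μ (tl f hf g ⟨f, self_mem⟩)).sum := by
  have key : (l.map fun g => μ (tl f hf g ⟨f, self_mem⟩)).sum =
      μ ((l.map fun g => tl f hf g ⟨f, self_mem⟩).sum) := by
    rw [map_list_sum, List.map_map]
    rfl
  have hval : ∀ x, ((l.map fun g => tl f hf g (⟨f, self_mem⟩ : dom f hf)).sum : dom f hf).1 x =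
      (l.map fun g => f (g⁻¹ * x)).sum := by
    intro x
    clear hl key
    induction l with
    | nil => simp
    | cons g l ih =>
      simp only [List.map_cons, List.sum_cons, Submodule.coe_add, Pi.add_apply]
      rw [ih]
      rfl
  rw [key, abs_le]
  constructor
  · have := hμ ((l.map fun g => tl f hf g ⟨f, self_mem⟩).sum + h) (fun x => by
      rw [Submodule.coe_add, Pi.add_apply, hval]
      have := (abs_le.1 (hl x)).1
      linarith)
    rw [map_add] at this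
    linarith
  · have := hμ ((l.map fun g => tl f hf g ⟨f, self_mem⟩).sum - h) (fun x => by
      rw [Submodule.coe_sub, Pi.sub_apply, hval]
      have := (abs_le.1 (hl x)).2
      linarith)
    rw [map_sub] at this
    linarith

omit [Group G] in
lemma list_sum_nonpos {l : List G} {c : G → ℝ} (hc : ∀ g, c g ≤ 0) : (l.map c).sum ≤ 0 := by
  induction l with
  | nil => simp
  | cons g l ih =>
    rw [List.map_cons, List.sum_cons]
    exact add_nonpos (hc g) ih

lemma eq_zero_of_self {μ : dom f hf →ₗ[ℝ] ℝ} (hμ : ∀ h : dom f hf, (∀ x, 0 ≤ h.1 x) → 0 ≤ μ h)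
    (h0 : ∀ g, μ (tl f hf g ⟨f, self_mem⟩) ≤ 0) (h : dom f hf) : μ h = 0 := by
  obtain ⟨l, hl⟩ := h.2
  exact abs_eq_zero.1 (le_antisymm ((pos_bound hμ hl).trans (list_sum_nonpos h0)) (abs_nonneg _))

lemma CC_proper : ∀ x ∈ CC f hf, -x ∈ CC f hf → x = 0 := by
  intro μ hμ hμ'
  apply EE_ext
  intro h
  rw [map_zero]
  refine eq_zero_of_self (μ := pr f hf μ) hμ (fun g => ?_) h
  have h2 := mem_CC.1 hμ' (tl f hf g ⟨f, self_mem⟩) (fun x => hf _)
  rw [map_neg, LinearMap.neg_apply] at h2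
  linarith

/-- the limit form of a weakly Cauchy filter -/
def limForm (F : Filter (EE f hf)) [F.NeBot] (L : dom f hf → ℝ)
    (hL : ∀ h, Tendsto (fun μ : EE f hf => pr f hf μ h) F (𝓝 (L h))) : dom f hf →ₗ[ℝ] ℝ where
  toFun := L
  map_add' := fun h k => by
    refine tendsto_nhds_unique (hL (h + k)) ?_
    simp only [map_add]
    exact (hL h).add (hL k)
  map_smul' := fun c h => by
    refine tendsto_nhds_unique (hL (c • h)) ?_
    simp only [map_smul]
    exact (hL h).const_smul c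

lemma CC_complete : WeaklyComplete ((CC f hf : PointedCone ℝ (EE f hf)) : Set (EE f hf)) := by
  intro F hF hC hcau
  have hlim : ∀ h : dom f hf, ∃ c : ℝ, Tendsto (fun μ : EE f hf => pr f hf μ h) F (𝓝 c) := by
    intro h
    obtain ⟨c, hc⟩ := CompleteSpace.complete (hcau (evl h))
    exact ⟨c, hc⟩
  choose L hL using hlim
  refine ⟨mk (limForm F L hL), ?_, ?_⟩
  · intro h hh
    refine ge_of_tendsto (hL h) ?_
    filter_upwards [hC] with μ hμ using hμ h hh
  · intro φ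
    obtain ⟨h, rfl⟩ := evl_surj φ
    exact hL h

/-- evaluation at a point -/
def ev (f : G → ℝ) (hf : ∀ x, 0 ≤ f x) (x₀ : G) : EE f hf :=
  mk { toFun := fun h => h.1 x₀
       map_add' := fun _ _ => rfl
       map_smul' := fun _ _ => rfl }

lemma isVonNBounded_of {s : Set (EE f hf)}
    (h : ∀ y : dom f hf, ∃ r > 0, ∀ μ ∈ s, |pr f hf μ y| < r) : Bornology.IsVonNBounded ℝ s :=
  (LinearMap.weakBilin_withSeminorms (Bf f hf)).isVonNBounded_iff_seminorm_bounded.2 h

lemma ev_bdd {M : ℝ} (hM : ∀ x, f x ≤ M) (x₀ : G) :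
    Bornology.IsVonNBounded ℝ (Set.range fun g => rep f hf g (ev f hf x₀)) := by
  apply isVonNBounded_of
  intro h
  obtain ⟨l, hl⟩ := h.2
  have h0 : 0 ≤ (l.map fun _ => |M|).sum := List.sum_nonneg (by simp)
  refine ⟨(l.map fun _ => |M|).sum + 1, by linarith, ?_⟩
  rintro _ ⟨g, rfl⟩
  show |h.1 (g⁻¹⁻¹ * x₀)| < _
  refine lt_of_le_of_lt ((hl _).trans (List.sum_le_sum ?_)) (lt_add_one _)
  intro k _
  exact (hM _).trans (le_abs_self M)

lemma CC_cobounded : ∃ φ : EE f hf →L[ℝ] ℝ, ∀ ψ : EE f hf →L[ℝ] ℝ, ∃ l : List G,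
      ∀ x ∈ CC f hf, |ψ x| ≤ (l.map fun g => φ (rep f hf g⁻¹ x)).sum := by
  refine ⟨evl ⟨f, self_mem⟩, fun ψ => ?_⟩
  obtain ⟨h, rfl⟩ := evl_surj ψ
  obtain ⟨l, hl⟩ := h.2
  refine ⟨l, fun μ hμ => ?_⟩
  refine (pos_bound (μ := pr f hf μ) hμ hl).trans (le_of_eq ?_)
  congr 1
  apply List.map_congr_left
  intro g _
  show pr f hf μ (tl f hf g ⟨f, self_mem⟩) = pr f hf μ (tl f hf g⁻¹⁻¹ ⟨f, self_mem⟩)
  rw [inv_inv]

/-- The fixed-point property for cones gives invariant normalised integrals. -/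
theorem exists_integral (hG : FixedPointPropertyForCones G) (f : G → ℝ) (hf : ∀ x, 0 ≤ f x)
    (hb : ∃ M, ∀ x, f x ≤ M) (hne : ∃ x, f x ≠ 0) :
    ∃ μ : dom f hf →ₗ[ℝ] ℝ, (∀ h : dom f hf, (∀ x, 0 ≤ h.1 x) → 0 ≤ μ h) ∧
      (∀ g h, μ (tl f hf g h) = μ h) ∧ 0 < μ ⟨f, self_mem⟩ := by
  obtain ⟨M, hM⟩ := hb
  obtain ⟨x₀, hx₀⟩ := hne
  have hinv : ∀ g, ∀ x ∈ CC f hf, rep f hf g x ∈ CC f hf := by
    intro g μ hμ h hh
    rw [rep_apply]
    exact hμ _ (fun x => hh _)
  have hδ : ev f hf x₀ ∈ CC f hf := fun h hh => hh x₀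
  have hδ0 : ev f hf x₀ ≠ 0 := by
    intro h
    apply hx₀
    have : pr f hf (ev f hf x₀) ⟨f, self_mem⟩ = 0 := by rw [h, map_zero]; rfl
    exact this
  obtain ⟨μ, hμ, hμ0, hfix⟩ := hG (EE f hf) (CC f hf) (rep f hf) CC_proper CC_complete hinv
    ⟨ev f hf x₀, hδ, hδ0, ev_bdd hM x₀⟩ CC_cobounded
  have hfix' : ∀ g (h : dom f hf), pr f hf μ (tl f hf g h) = pr f hf μ h := by
    intro g h
    have h1 := rep_apply (f := f) (hf := hf) g⁻¹ μ h
    rw [hfix, inv_inv] at h1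
    exact h1.symm
  refine ⟨pr f hf μ, hμ, hfix', ?_⟩
  by_contra hcon
  apply hμ0
  apply EE_ext
  intro h
  rw [map_zero]
  refine eq_zero_of_self (μ := pr f hf μ) hμ (fun g => ?_) h
  rw [hfix']
  exact not_lt.1 hcon

end Pool.Agent.H602R3.Cone
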