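import Pool.Agent.H602R3.ConeFlow
import Pool.Agent.H602R3.ConeInt
import Pool.Agent.H602R3.ConeConv

noncomputable section

namespace Pool.Agent.H602R3.ConeFrozen

open Filter Topology Pool.Agent.H602R3.Cone Pool.Agent.H602R3.ConeTree

universe u

/-- the fixed-point property for cones, completeness phrased through the evaluation embedding -/
def FPC (G : Type u) [Group G] : Prop :=
  ∀ (E : Type u) [AddCommGroup E] [Module ℝ E] [TopologicalSpace E]
    [IsTopologicalAddGroup E] [ContinuousSMul ℝ E] [LocallyConvexSpace ℝ E] [T2Space E]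
    (C : PointedCone ℝ E) (ρ : G →* (E →L[ℝ] E)),
    (∀ x : E, x ∈ C → -x ∈ C → x = 0) →
    IsComplete ((fun x : E => fun f : E →L[ℝ] ℝ => f x) '' (C : Set E)) →
    (∀ g : G, ∀ x ∈ C, (ρ g) x ∈ C) →
    (∃ x ∈ C, x ≠ 0 ∧ Bornology.IsVonNBounded ℝ (Set.range fun g : G => (ρ g) x)) →
    (∃ φ : E →L[ℝ] ℝ, ∀ l : E →L[ℝ] ℝ, ∃ (n : ℕ) (g : Fin n → G),
        ∀ x ∈ C, |l x| ≤ ∑ i, φ ((ρ (g i)⁻¹) x)) →
    ∃ x ∈ C, x ≠ 0 ∧ ∀ g : G, (ρ g) x = x

variable {G : Type u} [Group G] {f : G → ℝ} {hf : ∀ x, 0 ≤ f x}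

/-- the linear form attached to an additive and homogeneous family of values -/
def mkForm (F : (EE f hf →L[ℝ] ℝ) → ℝ)
    (h1 : ∀ h k : dom f hf, F (evl (h + k)) = F (evl h) + F (evl k))
    (h2 : ∀ (c : ℝ) (h : dom f hf), F (evl (c • h)) = c * F (evl h)) : dom f hf →ₗ[ℝ] ℝ where
  toFun h := F (evl h)
  map_add' := h1
  map_smul' := h2

lemma image_eq : (fun x : EE f hf => fun φ : EE f hf →L[ℝ] ℝ => φ x) ''
      ((CC f hf : PointedCone ℝ (EE f hf)) : Set (EE f hf)) =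
    (⋂ h : dom f hf, ⋂ k : dom f hf,
      {F : (EE f hf →L[ℝ] ℝ) → ℝ | F (evl (h + k)) = F (evl h) + F (evl k)}) ∩
    (⋂ c : ℝ, ⋂ h : dom f hf, {F : (EE f hf →L[ℝ] ℝ) → ℝ | F (evl (c • h)) = c * F (evl h)}) ∩
    (⋂ h : dom f hf, ⋂ _ : ∀ x, 0 ≤ h.1 x, {F : (EE f hf →L[ℝ] ℝ) → ℝ | 0 ≤ F (evl h)}) := by
  ext F
  constructor
  · rintro ⟨μ, hμ, rfl⟩
    refine ⟨⟨?_, ?_⟩, ?_⟩
    · simp only [Set.mem_iInter]
      intro h k
      exact map_add (pr f hf μ) h k
    · simp only [Set.mem_iInter]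
      intro c h
      exact map_smul (pr f hf μ) c h
    · simp only [Set.mem_iInter]
      intro h hh
      exact hμ h hh
  · rintro ⟨⟨h1, h2⟩, h3⟩
    simp only [Set.mem_iInter] at h1 h2 h3
    refine ⟨mk (mkForm F h1 h2), fun h hh => h3 h hh, ?_⟩
    funext φ
    obtain ⟨h, rfl⟩ := evl_surj φ
    rfl

lemma image_complete : IsComplete ((fun x : EE f hf => fun φ : EE f hf →L[ℝ] ℝ => φ x) ''
      ((CC f hf : PointedCone ℝ (EE f hf)) : Set (EE f hf))) := by
  rw [image_eq]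
  apply IsClosed.isComplete
  refine IsClosed.inter (IsClosed.inter ?_ ?_) ?_
  · exact isClosed_iInter fun h => isClosed_iInter fun k =>
      isClosed_eq (continuous_apply (evl (h + k)))
        ((continuous_apply (evl h)).add (continuous_apply (evl k)))
  · exact isClosed_iInter fun c => isClosed_iInter fun h =>
      isClosed_eq (continuous_apply (evl (c • h))) (continuous_const.mul (continuous_apply (evl h)))
  · exact isClosed_iInter fun h => isClosed_iInter fun _ =>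
      isClosed_le continuous_const (continuous_apply _)

theorem exists_integral (hG : FPC G) (f : G → ℝ) (hf : ∀ x, 0 ≤ f x)
    (hb : ∃ M, ∀ x, f x ≤ M) (hne : ∃ x, f x ≠ 0) :
    ∃ μ : dom f hf →ₗ[ℝ] ℝ, (∀ h : dom f hf, (∀ x, 0 ≤ h.1 x) → 0 ≤ μ h) ∧
      (∀ g h, μ (tl f hf g h) = μ h) ∧ 0 < μ ⟨f, self_mem⟩ := by
  obtain ⟨M, hM⟩ := hb
  obtain ⟨x₀, hx₀⟩ := hne
  have hinv : ∀ g, ∀ x ∈ CC f hf, rep f hf g x ∈ CC f hf := by
    intro g μ hμ h hh
    rw [rep_apply]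
    exact hμ _ (fun x => hh _)
  have hδ : ev f hf x₀ ∈ CC f hf := fun h hh => hh x₀
  have hδ0 : ev f hf x₀ ≠ 0 := by
    intro h
    apply hx₀
    have : pr f hf (ev f hf x₀) ⟨f, self_mem⟩ = 0 := by rw [h, map_zero]; rfl
    exact this
  have hcob : ∃ φ : EE f hf →L[ℝ] ℝ, ∀ l : EE f hf →L[ℝ] ℝ, ∃ (n : ℕ) (g : Fin n → G),
        ∀ x ∈ CC f hf, |l x| ≤ ∑ i, φ ((rep f hf (g i)⁻¹) x) := by
    obtain ⟨φ, hφ⟩ := CC_cobounded (f := f) (hf := hf)
    refine ⟨φ, fun l => ?_⟩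
    obtain ⟨L, hL⟩ := hφ l
    refine ⟨L.length, fun i => L.get i, fun x hx => (hL x hx).trans (le_of_eq ?_)⟩
    rw [← List.sum_ofFn]
    congr 1
    conv_lhs => rw [← List.ofFn_get L, List.map_ofFn]
    rfl
  obtain ⟨μ, hμ, hμ0, hfix⟩ := hG (EE f hf) (CC f hf) (rep f hf) CC_proper image_complete hinv
    ⟨ev f hf x₀, hδ, hδ0, ev_bdd hM x₀⟩ hcob
  have hfix' : ∀ g (h : dom f hf), pr f hf μ (tl f hf g h) = pr f hf μ h := by
    intro g h
    have h1 := rep_apply (f := f) (hf := hf) g⁻¹ μ h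
    rw [hfix, inv_inv] at h1
    exact h1.symm
  refine ⟨pr f hf μ, hμ, hfix', ?_⟩
  by_contra hcon
  apply hμ0
  apply EE_ext
  intro h
  rw [map_zero]
  refine eq_zero_of_self (μ := pr f hf μ) hμ (fun g => ?_) h
  rw [hfix']
  exact not_lt.1 hcon

lemma exists_lt (hFP : FPC G) (S : Finset G) {β : ℝ} (hβ : 1 < β) : ∃ n, a S β n [] < 1 := by
  classical
  by_contra hs
  push Not at hs
  have hs' : ∀ n, ¬ a S β n [] < 1 := fun n => not_lt.2 (hs n)
  have hβ0 : 0 < β := by linarith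
  have hf : ∀ x, 0 ≤ fG S β x := fG_nonneg S hβ0
  obtain ⟨μ, hpos, hinv, hμ⟩ := exists_integral hFP (fG S β) hf ⟨1, fG_le_one S hβ0⟩
    ⟨1, by rw [fG_one S hs']; exact one_ne_zero⟩
  have hmem : ∀ s, hG S β s ∈ dom (fG S β) hf := by
    intro s
    refine ⟨[1], fun x => ?_⟩
    rw [abs_of_nonneg (hG_nonneg S hβ0 s x)]
    simpa using hG_le S hβ0 s x
  let F : dom (fG S β) hf := ⟨fG S β, self_mem⟩
  let H : G → dom (fG S β) hf := fun s => ⟨hG S β s, hmem s⟩
  have e1 : 0 ≤ μ ((∑ s ∈ S, tl (fG S β) hf s⁻¹ (H s)) - β • F) := by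
    apply hpos
    intro x
    rw [Submodule.coe_sub, Pi.sub_apply, Submodule.coe_smul, Pi.smul_apply, smul_eq_mul,
      AddSubmonoidClass.coe_finsetSum, Finset.sum_apply]
    have h1 := fG_super S hβ0 x
    have h2 : ∑ s ∈ S, (tl (fG S β) hf s⁻¹ (H s)).1 x = ∑ s ∈ S, hG S β s (s * x) := by
      refine Finset.sum_congr rfl fun s _ => ?_
      show hG S β s (s⁻¹⁻¹ * x) = _
      rw [inv_inv]
    rw [h2]
    show 0 ≤ _ - β * fG S β x
    linarith
  have e2 : 0 ≤ μ (F - ∑ s ∈ S, H s) := by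
    apply hpos
    intro x
    rw [Submodule.coe_sub, Pi.sub_apply, AddSubmonoidClass.coe_finsetSum, Finset.sum_apply]
    have := sum_hG_le S hβ0 x
    show 0 ≤ fG S β x - ∑ s ∈ S, hG S β s x
    linarith
  rw [map_sub, map_sum, map_smul, smul_eq_mul] at e1
  rw [map_sub, map_sum] at e2
  simp only [hinv] at e1
  have h3 : 0 < μ F := hμ
  nlinarith

open Pool.Agent.H602R3.ConeConv in
/-- The fixed-point property for cones implies locally subexponential growth. -/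
theorem locSub_of_FPC (hFP : FPC G) : LocSub G := by
  classical
  intro S r hr
  let T : Finset G := S ∪ S.image (fun x => x⁻¹)
  have hball : ∀ n, ball (S : Set G) n = ballS T n := by
    intro n
    ext g
    have hT : ∀ x : G, (x ∈ (S : Set G) ∨ x⁻¹ ∈ (S : Set G)) ↔ x ∈ T := by
      intro x
      simp only [T, Finset.mem_union, Finset.mem_image, Finset.mem_coe]
      constructor
      · rintro (h | h)
        · exact Or.inl h
        · exact Or.inr ⟨x⁻¹, h, inv_inv x⟩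
      · rintro (h | ⟨y, hy, rfl⟩)
        · exact Or.inl h
        · right
          rwa [inv_inv]
    simp only [ball, ballS, hT]
  simp only [hball]
  obtain ⟨β, hβ, hβr⟩ : ∃ β : ℝ, 1 < β ∧ β < r := exists_between hr
  have hr0 : 0 < r := by linarith
  obtain ⟨n₀, hn₀⟩ := exists_lt hFP T hβ
  obtain ⟨C, hC0, hC⟩ := growth_of_lt T hβ.le hn₀
  have hr' : |β / r| < 1 := by
    rw [abs_of_pos (by positivity), div_lt_one (by positivity)]
    exact hβr
  have t1 : Tendsto (fun N : ℕ => (N : ℝ) * (β / r) ^ N) atTop (𝓝 0) :=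
    tendsto_self_mul_const_pow_of_abs_lt_one hr'
  have t2 : Tendsto (fun N : ℕ => (β / r) ^ N) atTop (𝓝 0) :=
    tendsto_pow_atTop_nhds_zero_of_abs_lt_one hr'
  have t3 : Tendsto (fun N : ℕ => C * ((N : ℝ) * (β / r) ^ N + (β / r) ^ N))
      atTop (𝓝 (C * (0 + 0))) := (t1.add t2).const_mul C
  rw [add_zero, mul_zero] at t3
  filter_upwards [t3.eventually (gt_mem_nhds (zero_lt_one))] with N hN
  have hp : (0 : ℝ) < r ^ N := by positivity
  refine (hC N).trans ?_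
  have h5 : C * ((N : ℝ) + 1) * β ^ N =
      (C * ((N : ℝ) * (β / r) ^ N + (β / r) ^ N)) * r ^ N := by
    rw [div_pow]
    field_simp
  rw [h5]
  calc _ ≤ 1 * r ^ N := mul_le_mul_of_nonneg_right hN.le hp.le
    _ = _ := one_mul _

/-- Conversely locally subexponential growth implies the fixed-point property (Monod). -/
theorem FPC_of_locSub (h : Pool.Agent.H602R3.ConeConv.LocSub G) : FPC G := by
  intro E _ _ _ _ _ _ _ C ρ _ hcomp hρ hlb hcb
  exact Pool.Agent.H602R3.ConeConv.exists_fixed h C ρ hcomp hρ hlb hcb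

/-- The fixed-point property for cones is equivalent to locally subexponential growth. -/
theorem FPC_iff : FPC G ↔ Pool.Agent.H602R3.ConeConv.LocSub G :=
  ⟨locSub_of_FPC, FPC_of_locSub⟩

theorem FPC_prod {G₁ G₂ : Type u} [Group G₁] [Group G₂] (h₁ : FPC G₁) (h₂ : FPC G₂) :
    FPC (G₁ × G₂) :=
  FPC_of_locSub ((locSub_of_FPC h₁).prod (locSub_of_FPC h₂))

end Pool.Agent.H602R3.ConeFrozen
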