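import Mathlib

namespace Pool.Agent.H602R3.ConeTree

open Filter Topology

variable {G : Type*} [Group G] (S : Finset G)

/-- shortlex-least words over `S` -/
def IsNF (l : List G) : Prop :=
  (∀ x ∈ l, x ∈ S) ∧ ∀ m : List G, (∀ x ∈ m, x ∈ S) → m.prod = l.prod →
    ¬ List.Shortlex WellOrderingRel m l

lemma isNF_nil : IsNF S ([] : List G) :=
  ⟨by simp, fun m _ _ h => List.not_shortlex_nil_right h⟩

omit [Group G] in
lemma lex_append_of_length {r : G → G → Prop} {m u : List G} (h : List.Lex r m u)
    (hl : m.length = u.length) (v : List G) : List.Lex r (m ++ v) (u ++ v) := by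
  induction h with
  | nil => simp at hl
  | cons h ih =>
    simp only [List.length_cons, add_left_inj] at hl
    exact List.Lex.cons (ih hl)
  | rel h => exact List.Lex.rel h

omit [Group G] in
lemma shortlex_append_right' {r : G → G → Prop} {m u : List G} (h : List.Shortlex r m u)
    (v : List G) : List.Shortlex r (m ++ v) (u ++ v) := by
  rw [List.shortlex_def] at h ⊢
  rcases h with h | ⟨h1, h2⟩
  · left
    simp only [List.length_append]
    omega
  · right
    exact ⟨by simp [h1], lex_append_of_length h2 h1 v⟩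

lemma IsNF.right {u v : List G} (h : IsNF S (u ++ v)) : IsNF S v := by
  refine ⟨fun x hx => h.1 x (List.mem_append_right _ hx), fun m hm hp hs => ?_⟩
  refine h.2 (u ++ m) ?_ ?_ (hs.append_left u)
  · intro x hx
    rcases List.mem_append.1 hx with h1 | h1
    · exact h.1 x (List.mem_append_left _ h1)
    · exact hm x h1
  · rw [List.prod_append, List.prod_append, hp]

lemma IsNF.left {u v : List G} (h : IsNF S (u ++ v)) : IsNF S u := by
  refine ⟨fun x hx => h.1 x (List.mem_append_left _ hx), fun m hm hp hs => ?_⟩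
  refine h.2 (m ++ v) ?_ ?_ (shortlex_append_right' hs v)
  · intro x hx
    rcases List.mem_append.1 hx with h1 | h1
    · exact hm x h1
    · exact h.1 x (List.mem_append_right _ h1)
  · rw [List.prod_append, List.prod_append, hp]

lemma isNF_unique {l m : List G} (hl : IsNF S l) (hm : IsNF S m) (h : l.prod = m.prod) :
    l = m := by
  have htri : Std.Trichotomous (List.Shortlex (WellOrderingRel (α := G))) := inferInstance
  exact htri.trichotomous l m (hm.2 l hl.1 h) (hl.2 m hm.1 h.symm)

lemma exists_isNF {l : List G} (hl : ∀ x ∈ l, x ∈ S) :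
    ∃ m : List G, IsNF S m ∧ m.prod = l.prod ∧ m.length ≤ l.length := by
  have wf : WellFounded (List.Shortlex (WellOrderingRel (α := G))) :=
    List.Shortlex.wf WellOrderingRel.isWellOrder.wf
  let P : Set (List G) := {m | (∀ x ∈ m, x ∈ S) ∧ m.prod = l.prod}
  have hP : P.Nonempty := ⟨l, hl, rfl⟩
  refine ⟨wf.min P hP, ⟨(wf.min_mem P hP).1, fun m hm hp hs => ?_⟩, (wf.min_mem P hP).2, ?_⟩
  · exact wf.not_lt_min P (x := m) ⟨hm, hp.trans (wf.min_mem P hP).2⟩ hs
  · by_contra hcon
    push Not at hcon
    exact wf.not_lt_min P (x := l) ⟨hl, rfl⟩ (List.Shortlex.of_length_lt hcon)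

open Classical in
/-- letters `s` such that `s :: l` is again a normal form -/
noncomputable def ch (l : List G) : Finset G := S.filter (fun s => IsNF S (s :: l))

lemma mem_ch {l : List G} {s : G} : s ∈ ch S l ↔ IsNF S (s :: l) := by
  classical
  simp only [ch, Finset.mem_filter, and_iff_right_iff_imp]
  exact fun h => h.1 s (by simp)

lemma ch_mono (m l : List G) : ch S (m ++ l) ⊆ ch S m := by
  intro s hs
  rw [mem_ch] at hs ⊢
  exact IsNF.left S (u := s :: m) (v := l) hs

variable (β : ℝ)

/-- normalised number of extensions -/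
noncomputable def A : ℕ → List G → ℝ
  | 0, _ => 1
  | n + 1, l => β⁻¹ * ∑ s ∈ ch S l, A n (s :: l)

/-- normalised maximal flow -/
noncomputable def a : ℕ → List G → ℝ
  | 0, _ => 1
  | n + 1, l => min 1 (β⁻¹ * ∑ s ∈ ch S l, a n (s :: l))

variable {β}

lemma A_nonneg (hβ : 0 < β) (n : ℕ) (l : List G) : 0 ≤ A S β n l := by
  induction n generalizing l with
  | zero => simp [A]
  | succ n ih =>
    simp only [A]
    exact mul_nonneg (inv_nonneg.2 hβ.le) (Finset.sum_nonneg fun s _ => ih _)

lemma a_nonneg (hβ : 0 < β) (n : ℕ) (l : List G) : 0 ≤ a S β n l := by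
  induction n generalizing l with
  | zero => simp [a]
  | succ n ih =>
    simp only [a]
    exact le_min zero_le_one
      (mul_nonneg (inv_nonneg.2 hβ.le) (Finset.sum_nonneg fun s _ => ih _))

lemma a_le_one (n : ℕ) (l : List G) : a S β n l ≤ 1 := by
  cases n with
  | zero => simp [a]
  | succ n => exact min_le_left _ _

lemma a_antitone (hβ : 0 < β) (l : List G) : Antitone (fun n => a S β n l) := by
  apply antitone_nat_of_succ_le
  intro n
  induction n generalizing l with
  | zero => exact min_le_left _ _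
  | succ n ih =>
    simp only [a]
    refine min_le_min le_rfl (mul_le_mul_of_nonneg_left ?_ (inv_nonneg.2 hβ.le))
    exact Finset.sum_le_sum fun s _ => ih (s :: l)

lemma A_append_le (hβ : 0 < β) (n : ℕ) (m l : List G) : A S β n (m ++ l) ≤ A S β n m := by
  induction n generalizing m with
  | zero => simp [A]
  | succ n ih =>
    simp only [A]
    refine mul_le_mul_of_nonneg_left ?_ (inv_nonneg.2 hβ.le)
    refine (Finset.sum_le_sum fun s _ => ih (s :: m)).trans ?_
    exact Finset.sum_le_sum_of_subset_of_nonneg (ch_mono S m l) fun s _ _ => A_nonneg S hβ _ _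

lemma A_le_root (hβ : 0 < β) (n : ℕ) (l : List G) : A S β n l ≤ A S β n [] :=
  A_append_le S hβ n [] l

lemma bounded_of_lt (hβ : 0 < β) {n : ℕ} (hn : a S β n [] < 1) :
    ∃ C : ℝ, 0 ≤ C ∧ ∀ N, A S β N [] ≤ C := by
  obtain ⟨n', rfl⟩ : ∃ n', n = n' + 1 := by
    cases n with
    | zero => simp [a] at hn
    | succ n => exact ⟨n, rfl⟩
  have hθ : β⁻¹ * ∑ s ∈ ch S [], a S β n' [s] < 1 := by
    simp only [a] at hn
    rcases min_lt_iff.1 hn with h | h
    · exact absurd h (lt_irrefl _)
    · exact h
  obtain ⟨C, hC0, hC⟩ : ∃ C : ℝ, 0 ≤ C ∧ ∀ j ≤ n', A S β j [] ≤ C := by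
    refine ⟨∑ j ∈ Finset.range (n' + 1), A S β j [], Finset.sum_nonneg fun j _ => A_nonneg S hβ _ _,
      fun j hj => ?_⟩
    exact Finset.single_le_sum (f := fun j => A S β j []) (fun j _ => A_nonneg S hβ _ _)
      (Finset.mem_range.2 (by omega))
  refine ⟨C, hC0, fun N => ?_⟩
  induction N using Nat.strong_induction_on with
  | _ N IH =>
    rcases le_or_gt N n' with hN | hN
    · exact hC N hN
    have claim : ∀ k : ℕ, ∀ l : List G, ∀ N' : ℕ, k ≤ N' → N' < N →
        A S β N' l ≤ a S β k l * C := by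
      intro k
      induction k with
      | zero =>
        intro l N' _ hN'
        simp only [a, one_mul]
        exact (A_le_root S hβ N' l).trans (IH N' hN')
      | succ k ih =>
        intro l N' hk hN'
        obtain ⟨N'', rfl⟩ : ∃ N'', N' = N'' + 1 := ⟨N' - 1, by omega⟩
        have h1 : A S β (N'' + 1) l ≤ 1 * C := by
          rw [one_mul]
          exact (A_le_root S hβ _ l).trans (IH _ hN')
        have h2 : A S β (N'' + 1) l ≤ (β⁻¹ * ∑ s ∈ ch S l, a S β k (s :: l)) * C := by
          simp only [A]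
          rw [mul_assoc, Finset.sum_mul]
          refine mul_le_mul_of_nonneg_left ?_ (inv_nonneg.2 hβ.le)
          exact Finset.sum_le_sum fun s _ => ih (s :: l) N'' (by omega) (by omega)
        simp only [a]
        rcases min_choice 1 (β⁻¹ * ∑ s ∈ ch S l, a S β k (s :: l)) with h | h
        · rw [h]; exact h1
        · rw [h]; exact h2
    obtain ⟨N'', rfl⟩ : ∃ N'', N = N'' + 1 := ⟨N - 1, by omega⟩
    calc A S β (N'' + 1) [] = β⁻¹ * ∑ s ∈ ch S [], A S β N'' [s] := rfl
      _ ≤ β⁻¹ * ∑ s ∈ ch S [], a S β n' [s] * C := by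
        refine mul_le_mul_of_nonneg_left ?_ (inv_nonneg.2 hβ.le)
        exact Finset.sum_le_sum fun s _ => claim n' [s] N'' (by omega) (by omega)
      _ = (β⁻¹ * ∑ s ∈ ch S [], a S β n' [s]) * C := by rw [← Finset.sum_mul, mul_assoc]
      _ ≤ 1 * C := mul_le_mul_of_nonneg_right hθ.le hC0
      _ = C := one_mul C

/-- extensions of `l` by words of length `n` -/
def W (n : ℕ) (l : List G) : Set (List G) := {m | m.length = n ∧ IsNF S (m ++ l)}

lemma W_finite_card (hβ : 0 < β) (n : ℕ) (l : List G) :
    (W S n l).Finite ∧ ((W S n l).ncard : ℝ) ≤ β ^ n * A S β n l := by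
  induction n generalizing l with
  | zero =>
    have h : W S 0 l ⊆ {[]} := by
      intro m hm
      exact List.length_eq_zero_iff.1 hm.1
    refine ⟨(Set.finite_singleton _).subset h, ?_⟩
    have := Set.ncard_le_ncard h
    rw [Set.ncard_singleton] at this
    simp only [pow_zero, A, mul_one]
    exact_mod_cast this
  | succ n ih =>
    have hsub : W S (n + 1) l ⊆ ⋃ s ∈ ch S l, (fun m => m ++ [s]) '' W S n (s :: l) := by
      intro m hm
      have hne : m ≠ [] := by
        intro h
        have := hm.1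
        rw [h] at this
        simp at this
      have hd := List.dropLast_append_getLast hne
      have hnf : IsNF S (m.dropLast ++ (m.getLast hne :: l)) := by
        have := hm.2
        rw [← hd] at this
        simpa using this
      simp only [Set.mem_iUnion]
      refine ⟨m.getLast hne, (mem_ch S).2 (IsNF.right S (u := m.dropLast) hnf), m.dropLast,
        ⟨?_, hnf⟩, hd⟩
      rw [List.length_dropLast, hm.1]
      omega
    have hfin : (⋃ s ∈ ch S l, (fun m => m ++ [s]) '' W S n (s :: l)).Finite :=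
      Set.Finite.biUnion (Finset.finite_toSet _) fun s _ => ((ih (s :: l)).1).image _
    refine ⟨hfin.subset hsub, ?_⟩
    have h1 : (W S (n + 1) l).ncard ≤ ∑ s ∈ ch S l, (W S n (s :: l)).ncard := by
      refine (Set.ncard_le_ncard hsub hfin).trans ?_
      refine (Finset.set_ncard_biUnion_le _ _).trans ?_
      exact Finset.sum_le_sum fun s _ => Set.ncard_image_le (ih (s :: l)).1
    calc ((W S (n + 1) l).ncard : ℝ) ≤ ((∑ s ∈ ch S l, (W S n (s :: l)).ncard : ℕ) : ℝ) := by
          exact_mod_cast h1
      _ = ∑ s ∈ ch S l, ((W S n (s :: l)).ncard : ℝ) := by push_cast; rfl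
      _ ≤ ∑ s ∈ ch S l, β ^ n * A S β n (s :: l) := Finset.sum_le_sum fun s _ => (ih (s :: l)).2
      _ = β ^ (n + 1) * A S β (n + 1) l := by
        simp only [A]
        rw [← Finset.mul_sum]
        field_simp
        ring

/-- elements of length at most `n` over the alphabet `S` -/
def ballS (n : ℕ) : Set G := {g | ∃ l : List G, l.length ≤ n ∧ (∀ x ∈ l, x ∈ S) ∧ l.prod = g}

lemma ballS_card (hβ : 0 < β) (n : ℕ) :
    (ballS S n).Finite ∧ ((ballS S n).ncard : ℝ) ≤
      ∑ k ∈ Finset.range (n + 1), β ^ k * A S β k [] := by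
  have hsub : ballS S n ⊆ ⋃ k ∈ Finset.range (n + 1), List.prod '' W S k [] := by
    rintro g ⟨l, hl, hS, rfl⟩
    obtain ⟨m, hm, hp, hlen⟩ := exists_isNF S hS
    simp only [Set.mem_iUnion, Finset.mem_range]
    exact ⟨m.length, by omega, m, ⟨rfl, by simpa using hm⟩, hp⟩
  have hfin : (⋃ k ∈ Finset.range (n + 1), List.prod '' W S k []).Finite :=
    Set.Finite.biUnion (Finset.finite_toSet _) fun k _ => ((W_finite_card S hβ k []).1).image _
  refine ⟨hfin.subset hsub, ?_⟩
  have h1 : (ballS S n).ncard ≤ ∑ k ∈ Finset.range (n + 1), (W S k []).ncard := by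
    refine (Set.ncard_le_ncard hsub hfin).trans ?_
    refine (Finset.set_ncard_biUnion_le _ _).trans ?_
    exact Finset.sum_le_sum fun k _ => Set.ncard_image_le (W_finite_card S hβ k []).1
  calc ((ballS S n).ncard : ℝ) ≤ ((∑ k ∈ Finset.range (n + 1), (W S k []).ncard : ℕ) : ℝ) := by
        exact_mod_cast h1
    _ = ∑ k ∈ Finset.range (n + 1), ((W S k []).ncard : ℝ) := by push_cast; rfl
    _ ≤ _ := Finset.sum_le_sum fun k _ => (W_finite_card S hβ k []).2

/-- If the flow does not survive then the growth is at most `C (n+1) β^n`. -/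
lemma growth_of_lt (hβ : 1 ≤ β) {n : ℕ} (hn : a S β n [] < 1) :
    ∃ C : ℝ, 0 ≤ C ∧ ∀ N : ℕ, ((ballS S N).ncard : ℝ) ≤ C * (N + 1) * β ^ N := by
  have hβ0 : 0 < β := by linarith
  obtain ⟨C, hC0, hC⟩ := bounded_of_lt S hβ0 hn
  refine ⟨C, hC0, fun N => ((ballS_card S hβ0 N).2).trans ?_⟩
  calc ∑ k ∈ Finset.range (N + 1), β ^ k * A S β k []
      ≤ ∑ k ∈ Finset.range (N + 1), β ^ N * C := by
        refine Finset.sum_le_sum fun k hk => ?_
        have hk' : k ≤ N := by have := Finset.mem_range.1 hk; omega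
        exact mul_le_mul (pow_le_pow_right₀ hβ hk') (hC k) (A_nonneg S hβ0 _ _) (by positivity)
    _ = C * (N + 1) * β ^ N := by
        rw [Finset.sum_const, Finset.card_range, nsmul_eq_mul]
        push_cast
        ring

end Pool.Agent.H602R3.ConeTree
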