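import Mathlib
import Pool.Agent.H602R3.TupClusters

/-!
Linear forms `c A n + 1` with bounded multipliers `c` and the coloured Maynard-Tao theorem.
-/

namespace Pool.Agent.H602R3.Dick

open Finset Pool.Agent.H461R2.PD

/-- distinct products with bounded multipliers `≡ 1 (mod m)` -/
theorem multipliers {ι : Type*} [Fintype ι] (A : ι → ℕ) (hA : ∀ x, 0 < A x) (m : ℕ) (hm : 1 ≤ m) :
    ∃ c : ι → ℕ, (∀ x, c x < Fintype.card ι) ∧
      Function.Injective fun x => (1 + m * c x) * A x := by
  classical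
  set t : ι → Finset ℕ := fun x => (range (Fintype.card ι)).image (fun c => (1 + m * c) * A x) with ht
  have hcard : ∀ x, (t x).card = Fintype.card ι := by
    intro x
    rw [ht, card_image_of_injective _ (fun a b h => by
      have h1 := Nat.eq_of_mul_eq_mul_right (hA x) h
      exact Nat.eq_of_mul_eq_mul_left hm (Nat.add_left_cancel h1))]
    simp
  obtain ⟨f, hf, hft⟩ := (Finset.all_card_le_biUnion_card_iff_exists_injective t).1 (by
    intro s
    rcases s.eq_empty_or_nonempty with rfl | ⟨x, hx⟩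
    · simp
    · calc s.card ≤ Fintype.card ι := card_le_univ s
        _ = (t x).card := (hcard x).symm
        _ ≤ _ := card_le_card (subset_biUnion_of_mem t hx))
  have h : ∀ x, ∃ c, c < Fintype.card ι ∧ (1 + m * c) * A x = f x := by
    intro x
    obtain ⟨c, hc, hc'⟩ := mem_image.1 (hft x)
    exact ⟨c, mem_range.1 hc, hc'⟩
  choose c hc hcf using h
  refine ⟨c, hc, ?_⟩
  intro x y hxy
  simp only [hcf] at hxy
  exact hf hxy

/-- a quarter of arbitrary leading coefficients, up to bounded multipliers -/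
theorem engine (hQ : Quarter) (T : ℕ) (b : ℤ) (hb : b ≠ 0) : ∃ C : ℕ, 1 ≤ C ∧
    ∀ A : Fin T → ℕ, (∀ g, 0 < A g) → (∀ g, IsCoprime (A g : ℤ) b) →
    ∃ (S : Finset (Fin T)) (c : Fin T → ℕ), T ≤ 4 * S.card ∧
      (∀ g, 1 ≤ c g ∧ c g ≤ C ∧ IsCoprime (c g : ℤ) b) ∧
      Function.Injective (fun g => c g * A g) ∧
      {n : ℕ | ∀ g ∈ S, 0 < (c g : ℤ) * A g * n + b ∧ Prime ((c g : ℤ) * A g * n + b)}.Infinite := by
  obtain ⟨K, hK, hq⟩ := hQ T
  refine ⟨1 + b.natAbs * (T * K), by omega, fun A hA hAb => ?_⟩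
  have hb1 : 1 ≤ b.natAbs := Int.natAbs_pos.2 hb
  obtain ⟨m, hm, hinj⟩ := multipliers (fun x : Fin T × Fin K => A x.1) (fun x => hA x.1) _ hb1
  have hcop : ∀ x, IsCoprime (((1 + b.natAbs * m x : ℕ)) : ℤ) b := by
    intro x
    obtain ⟨k, hk⟩ : b ∣ (b.natAbs : ℤ) := Int.dvd_natAbs_self
    push_cast
    rw [← Int.natCast_natAbs, hk]
    exact ⟨1, -(k * m x), by ring⟩
  obtain ⟨S, c, hS, hinf⟩ := hq (fun g i => (((1 + b.natAbs * m (g, i)) * A g : ℕ) : ℤ)) (fun _ _ => b)
    (fun g i => by
      have : 0 < (1 + b.natAbs * m (g, i)) * A g := Nat.mul_pos (by omega) (hA g)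
      exact_mod_cast this)
    (by
      intro x y hxy
      have h1 := congrArg Prod.fst hxy
      simp only at h1
      exact hinj (by exact_mod_cast h1))
    (by
      intro p hp
      have hpp := Nat.prime_iff_prime_int.1 hp
      by_cases hpb : (p : ℤ) ∣ b
      · refine ⟨1, fun g i hd => ?_⟩
        rw [mul_one] at hd
        have h1 := (dvd_add_left hpb).1 hd
        rw [Nat.cast_mul] at h1
        rcases hpp.dvd_or_dvd h1 with h2 | h2
        · exact hpp.not_isUnit ((hcop (g, i)).isUnit_of_dvd' h2 hpb)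
        · exact hpp.not_isUnit ((hAb g).isUnit_of_dvd' h2 hpb)
      · refine ⟨0, fun g i hd => ?_⟩
        rw [mul_zero, zero_add] at hd
        exact hpb hd)
  refine ⟨S, fun g => 1 + b.natAbs * m (g, c g), hS, fun g => ⟨Nat.le_add_right _ _, ?_, hcop _⟩,
    fun g g' h => congrArg Prod.fst (@hinj (g, c g) (g', c g') h), hinf.mono ?_⟩
  · have := hm (g, c g)
    simp only [Fintype.card_prod, Fintype.card_fin] at this
    have h2 : b.natAbs * m (g, c g) ≤ b.natAbs * (T * K) := Nat.mul_le_mul_left _ this.le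
    show 1 + b.natAbs * m (g, c g) ≤ 1 + b.natAbs * (T * K)
    omega
  · intro n hn g hg
    have h1 := hn g hg
    have e : (((1 + b.natAbs * m (g, c g) : ℕ)) : ℤ) * A g * n + b =
      (((1 + b.natAbs * m (g, c g)) * A g : ℕ) : ℤ) * n + b := by
      push_cast
      ring
    show 0 < (((1 + b.natAbs * m (g, c g) : ℕ)) : ℤ) * A g * n + b ∧
      Prime ((((1 + b.natAbs * m (g, c g) : ℕ)) : ℤ) * A g * n + b)
    rw [e]
    exact h1

/-- Triples with a common exponent -/
theorem triple (hQ : Quarter) (b : ℤ) (hb : b ≠ 0) : ∃ C : ℕ, ∀ α : Fin 3 → ℕ, (∀ i, 0 < α i) →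
    (∀ i, IsCoprime (α i : ℤ) b) →
    ∃ (d : ℕ) (c : Fin 3 → ℕ), 1 ≤ d ∧ d ≤ C ∧ (∀ i, 1 ≤ c i ∧ c i ≤ C) ∧
      Function.Injective (fun i => c i * α i ^ d) ∧
      {n : ℕ | ∀ i, 0 < (c i : ℤ) * α i ^ d * n + b ∧
        Prime ((c i : ℤ) * α i ^ d * n + b)}.Infinite := by
  classical
  obtain ⟨M, hM1, hM⟩ := Tup.corner_pos
  obtain ⟨C, hC1, hE⟩ := engine hQ (M * M) b hb
  refine ⟨max M C, fun α hα hαb => ?_⟩
  set e : Fin M × Fin M ≃ Fin (M * M) := finProdFinEquiv with he
  set A : Fin (M * M) → ℕ := fun g => α 0 ^ (2 * M - (e.symm g).1 - (e.symm g).2) *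
    α 1 ^ ((e.symm g).1 : ℕ) * α 2 ^ ((e.symm g).2 : ℕ) with hA
  obtain ⟨S, c, hS, hc, hcinj, hinf⟩ := hE A (fun g => by
    rw [hA]
    exact Nat.mul_pos (Nat.mul_pos (pow_pos (hα 0) _) (pow_pos (hα 1) _)) (pow_pos (hα 2) _))
    (fun g => by
    rw [hA]
    push_cast
    exact ((hαb 0).pow_left.mul_left (hαb 1).pow_left).mul_left (hαb 2).pow_left)
  set φ : Fin (M * M) → ℕ × ℕ := fun g => (((e.symm g).1 : ℕ), ((e.symm g).2 : ℕ)) with hφ
  have hφinj : Function.Injective φ := by
    intro g g' hgg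
    have h1 := congrArg Prod.fst hgg
    have h2 := congrArg Prod.snd hgg
    exact e.symm.injective (Prod.ext (Fin.ext h1) (Fin.ext h2))
  obtain ⟨i, j, d, hd1, hdM, m0, m1, m2⟩ := hM (S.image φ) (by
      intro u hu
      obtain ⟨g, _, rfl⟩ := mem_image.1 hu
      rw [hφ, mem_product, mem_range, mem_range]
      exact ⟨(e.symm g).1.2, (e.symm g).2.2⟩) (by
      rw [card_image_of_injective _ hφinj]
      calc M ^ 2 = M * M := by ring
        _ ≤ _ := hS)
  obtain ⟨g0, hg0, e0⟩ := mem_image.1 m0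
  obtain ⟨g1, hg1, e1⟩ := mem_image.1 m1
  obtain ⟨g2, hg2, e2⟩ := mem_image.1 m2
  have e01 : ((e.symm g0).1 : ℕ) = i := congrArg Prod.fst e0
  have e02 : ((e.symm g0).2 : ℕ) = j := congrArg Prod.snd e0
  have e11 : ((e.symm g1).1 : ℕ) = i + d := congrArg Prod.fst e1
  have e12 : ((e.symm g1).2 : ℕ) = j := congrArg Prod.snd e1
  have e21 : ((e.symm g2).1 : ℕ) = i := congrArg Prod.fst e2
  have e22 : ((e.symm g2).2 : ℕ) = j + d := congrArg Prod.snd e2
  have b1 : i + d < M := by rw [← e11]; exact (e.symm g1).1.2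
  have b2 : j + d < M := by rw [← e22]; exact (e.symm g2).2.2
  set B : ℕ := α 0 ^ (2 * M - i - j - d) * α 1 ^ i * α 2 ^ j with hB
  have hBpos : 0 < B := Nat.mul_pos (Nat.mul_pos (pow_pos (hα 0) _) (pow_pos (hα 1) _)) (pow_pos (hα 2) _)
  have hA0 : A g0 = α 0 ^ d * B := by
    rw [hA, hB]
    simp only
    rw [e01, e02]
    have : 2 * M - i - j = d + (2 * M - i - j - d) := by omega
    rw [this, pow_add]
    have : d + (2 * M - i - j - d) - d = 2 * M - i - j - d := by omega
    rw [this]
    ring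
  have hA1 : A g1 = α 1 ^ d * B := by
    rw [hA, hB]
    simp only
    rw [e11, e12]
    have : 2 * M - (i + d) - j = 2 * M - i - j - d := by omega
    rw [this, pow_add]
    ring
  have hA2 : A g2 = α 2 ^ d * B := by
    rw [hA, hB]
    simp only
    rw [e21, e22]
    have : 2 * M - i - (j + d) = 2 * M - i - j - d := by omega
    rw [this, pow_add]
    ring
  have hne01 : g0 ≠ g1 := by
    rintro rfl
    rw [e01] at e11
    omega
  have hne02 : g0 ≠ g2 := by
    rintro rfl
    rw [e02] at e22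
    omega
  have hne12 : g1 ≠ g2 := by
    rintro rfl
    rw [e11] at e21
    omega
  have hn01 : c g0 * α 0 ^ d ≠ c g1 * α 1 ^ d := by
    intro h
    refine hne01 (hcinj ?_)
    show c g0 * A g0 = c g1 * A g1
    rw [hA0, hA1, ← mul_assoc (c g0) _ B, ← mul_assoc (c g1) _ B, h]
  have hn02 : c g0 * α 0 ^ d ≠ c g2 * α 2 ^ d := by
    intro h
    refine hne02 (hcinj ?_)
    show c g0 * A g0 = c g2 * A g2
    rw [hA0, hA2, ← mul_assoc (c g0) _ B, ← mul_assoc (c g2) _ B, h]
  have hn12 : c g1 * α 1 ^ d ≠ c g2 * α 2 ^ d := by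
    intro h
    refine hne12 (hcinj ?_)
    show c g1 * A g1 = c g2 * A g2
    rw [hA1, hA2, ← mul_assoc (c g1) _ B, ← mul_assoc (c g2) _ B, h]
  refine ⟨d, ![c g0, c g1, c g2], hd1, le_trans hdM (le_max_left _ _), ?_, ?_, ?_⟩
  · intro i
    fin_cases i
    · exact ⟨(hc g0).1, (hc g0).2.1.trans (le_max_right _ _)⟩
    · exact ⟨(hc g1).1, (hc g1).2.1.trans (le_max_right _ _)⟩
    · exact ⟨(hc g2).1, (hc g2).2.1.trans (le_max_right _ _)⟩
  · intro i j h
    fin_cases i <;> fin_cases j
    · rfl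
    · exact absurd h hn01
    · exact absurd h hn02
    · exact absurd h.symm hn01
    · rfl
    · exact absurd h hn12
    · exact absurd h.symm hn02
    · exact absurd h.symm hn12
    · rfl
  · refine (hinf.image (f := fun n => B * n) (fun a _ b _ h =>
      Nat.eq_of_mul_eq_mul_left hBpos h)).mono ?_
    rintro _ ⟨n, hn, rfl⟩ i
    fin_cases i
    · have h := hn g0 hg0
      rw [hA0] at h
      show 0 < (c g0 : ℤ) * α 0 ^ d * ((B * n : ℕ) : ℤ) + b ∧
        Prime ((c g0 : ℤ) * α 0 ^ d * ((B * n : ℕ) : ℤ) + b)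
      have : (c g0 : ℤ) * α 0 ^ d * ((B * n : ℕ) : ℤ) + b =
        (c g0 : ℤ) * ((α 0 ^ d * B : ℕ) : ℤ) * n + b := by push_cast; ring
      rwa [this]
    · have h := hn g1 hg1
      rw [hA1] at h
      show 0 < (c g1 : ℤ) * α 1 ^ d * ((B * n : ℕ) : ℤ) + b ∧
        Prime ((c g1 : ℤ) * α 1 ^ d * ((B * n : ℕ) : ℤ) + b)
      have : (c g1 : ℤ) * α 1 ^ d * ((B * n : ℕ) : ℤ) + b =
        (c g1 : ℤ) * ((α 1 ^ d * B : ℕ) : ℤ) * n + b := by push_cast; ring
      rwa [this]
    · have h := hn g2 hg2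
      rw [hA2] at h
      show 0 < (c g2 : ℤ) * α 2 ^ d * ((B * n : ℕ) : ℤ) + b ∧
        Prime ((c g2 : ℤ) * α 2 ^ d * ((B * n : ℕ) : ℤ) + b)
      have : (c g2 : ℤ) * α 2 ^ d * ((B * n : ℕ) : ℤ) + b =
        (c g2 : ℤ) * ((α 2 ^ d * B : ℕ) : ℤ) * n + b := by push_cast; ring
      rwa [this]

/-! ### Boxes -/

/-- dense subsets of products contain boxes with sides of `t` elements -/
theorem box (t : ℕ) : ∀ (k m : ℕ), 1 ≤ m → ∃ M : Fin k → ℕ, (∀ i, 1 ≤ M i) ∧
    ∀ S : Finset (Fin k → ℕ), S ⊆ Fintype.piFinset (fun i => range (M i)) →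
    ∏ i, M i ≤ m * S.card →
    ∃ D : Fin k → Finset ℕ, (∀ i, D i ⊆ range (M i) ∧ (D i).card = t) ∧
      ∀ e : Fin k → ℕ, (∀ i, e i ∈ D i) → e ∈ S := by
  classical
  intro k
  induction k with
  | zero =>
    intro m _
    refine ⟨fun _ => 1, fun _ => le_rfl, fun S _ hc => ⟨fun i => i.elim0, fun i => i.elim0, ?_⟩⟩
    intro e _
    rcases S.eq_empty_or_nonempty with h | ⟨x, hx⟩
    · rw [h] at hc
      simp at hc
    · rwa [Subsingleton.elim e x]
  | succ k ih =>
    intro m hm
    set F : ℕ := 2 * m * t + 1 with hF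
    obtain ⟨M', hM1, hM'⟩ := ih (2 * m * 2 ^ F) (by
      have : 0 < 2 ^ F := by positivity
      have : 0 < 2 * m * 2 ^ F := by positivity
      omega)
    refine ⟨Fin.cons F M', ?_, fun S hS hc => ?_⟩
    · intro i
      refine Fin.cases ?_ (fun i => ?_) i
      · simp [hF]
      · simpa using hM1 i
    set P : Finset (Fin k → ℕ) := Fintype.piFinset (fun i => range (M' i)) with hP
    have hPcard : P.card = ∏ i, M' i := by
      rw [hP, Fintype.card_piFinset]
      simp
    set fib : (Fin k → ℕ) → Finset ℕ := fun e => (range F).filter (fun x => Fin.cons x e ∈ S) with hfib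
    have hSmem : ∀ f ∈ S, f 0 < F ∧ Fin.tail f ∈ P := by
      intro f hf
      have h1 := Fintype.mem_piFinset.1 (hS hf)
      refine ⟨by simpa using h1 0, ?_⟩
      rw [hP, Fintype.mem_piFinset]
      intro i
      simpa [Fin.tail] using h1 i.succ
    have hScard : S.card = ∑ e ∈ P, (fib e).card := by
      rw [card_eq_sum_card_fiberwise (f := fun f => Fin.tail f) (t := P)
        (fun f hf => (hSmem f hf).2)]
      refine sum_congr rfl fun e he => ?_
      refine card_bij (fun f _ => f 0) ?_ ?_ ?_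
      · intro f hf
        rw [mem_filter] at hf
        rw [hfib, mem_filter, mem_range]
        refine ⟨(hSmem f hf.1).1, ?_⟩
        rw [← hf.2, Fin.cons_self_tail]
        exact hf.1
      · intro f hf g hg h
        rw [mem_filter] at hf hg
        rw [← Fin.cons_self_tail f, ← Fin.cons_self_tail g, hf.2, hg.2, h]
      · intro x hx
        rw [hfib, mem_filter] at hx
        exact ⟨Fin.cons x e, by rw [mem_filter]; exact ⟨hx.2, Fin.tail_cons _ _⟩, by simp⟩
    set Gd : Finset (Fin k → ℕ) := P.filter (fun e => t ≤ (fib e).card) with hGd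
    have hbound : S.card ≤ Gd.card * F + P.card * t := by
      rw [hScard]
      calc ∑ e ∈ P, (fib e).card ≤ ∑ e ∈ P, ((if t ≤ (fib e).card then F else 0) + t) := by
            refine sum_le_sum fun e _ => ?_
            split_ifs with h
            · have : (fib e).card ≤ F := by
                calc (fib e).card ≤ (range F).card := card_filter_le _ _
                  _ = F := card_range F
              omega
            · omega
        _ = Gd.card * F + P.card * t := by
            rw [sum_add_distrib, ← sum_filter, sum_const, sum_const]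
            simp [hGd]
    have hprod : ∏ i, (Fin.cons F M' : Fin (k + 1) → ℕ) i = F * P.card := by
      rw [Fin.prod_univ_succ, hPcard]
      simp
    have hGcard : P.card ≤ 2 * m * Gd.card := by
      rw [hprod] at hc
      have h1 : F * P.card ≤ m * (Gd.card * F + P.card * t) := hc.trans (Nat.mul_le_mul_left _ hbound)
      have h2 : 2 * (F * P.card) ≤ 2 * m * Gd.card * F + 2 * m * t * P.card := by nlinarith
      have h3 : 2 * m * t * P.card ≤ F * P.card := Nat.mul_le_mul_right _ (by omega)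
      have h4 : F * P.card ≤ F * (2 * m * Gd.card) := by nlinarith
      exact Nat.le_of_mul_le_mul_left h4 (by omega)
    -- pigeonhole on the subsets
    have hsub : ∀ e ∈ Gd, ∃ D ⊆ fib e, D.card = t := by
      intro e he
      exact exists_subset_card_eq (mem_filter.1 he).2
    choose! Ds hDs1 hDs2 using hsub
    have hmaps : ∀ e ∈ Gd, Ds e ∈ (range F).powerset := by
      intro e he
      rw [mem_powerset]
      exact (hDs1 e he).trans (filter_subset _ _)
    obtain ⟨D0, hD0, hfibD⟩ : ∃ D0 ∈ (range F).powerset,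
        Gd.card ≤ 2 ^ F * (Gd.filter (fun e => Ds e = D0)).card := by
      by_contra hcon
      push Not at hcon
      have h1 : Gd.card = ∑ D ∈ (range F).powerset, (Gd.filter (fun e => Ds e = D)).card :=
        card_eq_sum_card_fiberwise hmaps
      have h2 : ∑ D ∈ (range F).powerset, 2 ^ F * (Gd.filter (fun e => Ds e = D)).card <
          ∑ D ∈ (range F).powerset, Gd.card :=
        sum_lt_sum_of_nonempty ⟨∅, empty_mem_powerset _⟩ hcon
      rw [← mul_sum, ← h1, sum_const, card_powerset, card_range, smul_eq_mul] at h2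
      exact lt_irrefl _ h2
    obtain ⟨D', hD'1, hD'2⟩ := hM' (Gd.filter (fun e => Ds e = D0))
      ((filter_subset _ _).trans (filter_subset _ _)) (by
        rw [← hPcard]
        calc P.card ≤ 2 * m * Gd.card := hGcard
          _ ≤ 2 * m * (2 ^ F * (Gd.filter (fun e => Ds e = D0)).card) :=
              Nat.mul_le_mul_left _ hfibD
          _ = _ := by ring)
    -- the fibre is not empty unless `k` forces it; take the box
    refine ⟨Fin.cons D0 D', ?_, ?_⟩
    · intro i
      refine Fin.cases ?_ (fun i => ?_) i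
      · show D0 ⊆ range F ∧ D0.card = t
        refine ⟨mem_powerset.1 hD0, ?_⟩
        -- the fibre has an element
        have hne : (Gd.filter (fun e => Ds e = D0)).Nonempty := by
          rw [nonempty_iff_ne_empty]
          intro h0
          rw [h0, card_empty, mul_zero, Nat.le_zero] at hfibD
          rw [hfibD, mul_zero, Nat.le_zero, hPcard] at hGcard
          have : 0 < ∏ i, M' i := Finset.prod_pos fun i _ => hM1 i
          omega
        obtain ⟨e, he⟩ := hne
        rw [mem_filter] at he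
        rw [← he.2]
        exact hDs2 e he.1
      · simpa using hD'1 i
    · intro e he
      have h0 : e 0 ∈ D0 := by simpa using he 0
      have h1 : Fin.tail e ∈ Gd.filter (fun e => Ds e = D0) := hD'2 _ fun i => by
        simpa [Fin.tail] using he i.succ
      rw [mem_filter] at h1
      have h2 := hDs1 _ h1.1
      rw [h1.2] at h2
      have h3 := h2 h0
      rw [hfib, mem_filter, Fin.cons_self_tail] at h3
      exact h3.2

end Pool.Agent.H602R3.Dick
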