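import Mathlib
import Pool.Agent.H602R3.DickEng

/-!
Geometric grids of leading coefficients, and additive grids of shifts.
-/

namespace Pool.Agent.H602R3.Dick

open Finset Pool.Agent.H461R2.PD

/-- boxes with least point, in the form used below -/
theorem box_min (k t : ℕ) (ht : 1 ≤ t) : ∃ (T C : ℕ) (E : Fin T → (Fin k → ℕ)), Function.Injective E ∧
    ∀ S : Finset (Fin T), T ≤ 4 * S.card →
    ∃ (D : Fin k → Finset ℕ) (μ : Fin k → ℕ) (σ : (Fin k → ℕ) → Fin T),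
      (∀ i, 0 ∈ D i ∧ (D i).card = t ∧ ∀ d ∈ D i, d ≤ C) ∧
      (∀ e : Fin k → ℕ, (∀ i, e i ∈ D i) → σ e ∈ S ∧ E (σ e) = fun i => e i + μ i) := by
  classical
  obtain ⟨M, hM1, hM⟩ := box t k 4 (by norm_num)
  set P : Finset (Fin k → ℕ) := Fintype.piFinset (fun i => range (M i)) with hP
  have hPcard : P.card = ∏ i, M i := by
    rw [hP, Fintype.card_piFinset]
    simp
  set ε := P.equivFin with hε
  refine ⟨P.card, ∑ i, M i, fun g => (ε.symm g : Fin k → ℕ), ?_, fun S hS => ?_⟩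
  · intro g g' h
    exact ε.symm.injective (Subtype.ext h)
  have hinj : Function.Injective fun g => ((ε.symm g : P) : Fin k → ℕ) := fun g g' h =>
    ε.symm.injective (Subtype.ext h)
  obtain ⟨D, hD1, hD2⟩ := hM (S.image fun g => ((ε.symm g : P) : Fin k → ℕ)) (by
      intro x hx
      obtain ⟨g, _, rfl⟩ := mem_image.1 hx
      exact (ε.symm g).2) (by
      rw [card_image_of_injective _ hinj, ← hPcard]
      exact hS)
  have hne : ∀ i, (D i).Nonempty := fun i => card_pos.1 (by rw [(hD1 i).2]; exact ht)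
  set μ : Fin k → ℕ := fun i => (D i).min' (hne i) with hμ
  have hσ : ∀ e : Fin k → ℕ, ∃ g : Fin P.card, (∀ i, e i + μ i ∈ D i) →
      g ∈ S ∧ ((ε.symm g : P) : Fin k → ℕ) = fun i => e i + μ i := by
    intro e
    by_cases h : ∀ i, e i + μ i ∈ D i
    · obtain ⟨g, hg, hge⟩ := mem_image.1 (hD2 (fun i => e i + μ i) h)
      exact ⟨g, fun _ => ⟨hg, hge⟩⟩
    · have : 0 < P.card := by
        rw [hPcard]
        exact Finset.prod_pos fun i _ => hM1 i
      exact ⟨⟨0, this⟩, fun h' => absurd h' h⟩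
  choose σ hσ using hσ
  refine ⟨fun i => (D i).image (fun d => d - μ i), μ, σ, fun i => ⟨?_, ?_, ?_⟩, fun e he => ?_⟩
  · rw [mem_image]
    exact ⟨μ i, min'_mem _ _, Nat.sub_self _⟩
  · rw [card_image_of_injOn]
    · exact (hD1 i).2
    · intro x hx y hy hxy
      have h1 : μ i ≤ x := min'_le _ _ hx
      have h2 : μ i ≤ y := min'_le _ _ hy
      simp only at hxy
      omega
  · intro d hd
    obtain ⟨x, hx, rfl⟩ := mem_image.1 hd
    have h1 := mem_range.1 ((hD1 i).1 hx)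
    have h2 : M i ≤ ∑ i, M i := Finset.single_le_sum (fun _ _ => Nat.zero_le _) (mem_univ i)
    omega
  · apply hσ
    intro i
    obtain ⟨x, hx, hxe⟩ := mem_image.1 (he i)
    have h1 : μ i ≤ x := min'_le _ _ hx
    have : e i + μ i = x := by omega
    rwa [this]

/-- geometric grids of leading coefficients -/
theorem grid (hQ : Quarter) (k t : ℕ) (ht : 1 ≤ t) (b : ℤ) (hb : b ≠ 0) : ∃ C : ℕ,
    ∀ α : Fin k → ℕ, (∀ i, 0 < α i) → (∀ i, IsCoprime (α i : ℤ) b) →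
    ∃ (D : Fin k → Finset ℕ) (c : (Fin k → ℕ) → ℕ),
      (∀ i, 0 ∈ D i ∧ (D i).card = t ∧ ∀ d ∈ D i, d ≤ C) ∧ (∀ e, 1 ≤ c e ∧ c e ≤ C) ∧
      (∀ e e' : Fin k → ℕ, (∀ i, e i ∈ D i) → (∀ i, e' i ∈ D i) →
        c e * ∏ i, α i ^ e i = c e' * ∏ i, α i ^ e' i → e = e') ∧
      {n : ℕ | ∀ e : Fin k → ℕ, (∀ i, e i ∈ D i) →
        0 < (c e : ℤ) * (∏ i, (α i : ℤ) ^ e i) * n + b ∧
        Prime ((c e : ℤ) * (∏ i, (α i : ℤ) ^ e i) * n + b)}.Infinite := by
  obtain ⟨T, C₁, E, hE, hbox⟩ := box_min k t ht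
  obtain ⟨C₂, hC2, hen⟩ := engine hQ T b hb
  refine ⟨max C₁ C₂, fun α hα hαb => ?_⟩
  obtain ⟨S, c, hS, hc, hcinj, hinf⟩ := hen (fun g => ∏ i, α i ^ E g i)
    (fun g => Finset.prod_pos fun i _ => pow_pos (hα i) _) (fun g => by
      push_cast
      exact IsCoprime.prod_left fun i _ => (hαb i).pow_left)
  obtain ⟨D, μ, σ, hD, hσ⟩ := hbox S hS
  set B : ℕ := ∏ i, α i ^ μ i with hB
  have hBpos : 0 < B := Finset.prod_pos fun i _ => pow_pos (hα i) _
  refine ⟨D, fun e => c (σ e), fun i => ⟨(hD i).1, (hD i).2.1, fun d hd =>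
    ((hD i).2.2 d hd).trans (le_max_left _ _)⟩,
    fun e => ⟨(hc _).1, (hc _).2.1.trans (le_max_right _ _)⟩, ?_, ?_⟩
  · intro e e' he he' heq
    obtain ⟨_, h2⟩ := hσ e he
    obtain ⟨_, h2'⟩ := hσ e' he'
    have key : ∀ e, E (σ e) = (fun i => e i + μ i) →
        c (σ e) * ∏ i, α i ^ E (σ e) i = (c (σ e) * ∏ i, α i ^ e i) * B := by
      intro e h
      rw [h, hB, mul_assoc, ← prod_mul_distrib]
      congr 1
      exact prod_congr rfl fun i _ => pow_add _ _ _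
    have h3 : σ e = σ e' := by
      apply hcinj
      simp only
      rw [key e h2, key e' h2', heq]
    rw [h3, h2'] at h2
    funext i
    have h4 : e' i + μ i = e i + μ i := congrFun h2 i
    omega
  refine (hinf.image (f := fun n => B * n) (fun a _ b _ h =>
      Nat.eq_of_mul_eq_mul_left hBpos h)).mono ?_
  rintro _ ⟨n, hn, rfl⟩ e he
  obtain ⟨h1, h2⟩ := hσ e he
  have h := hn _ h1
  have e1 : (((∏ i, α i ^ E (σ e) i : ℕ)) : ℤ) = (∏ i, (α i : ℤ) ^ e i) * B := by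
    rw [h2, hB]
    push_cast
    rw [← prod_mul_distrib]
    exact prod_congr rfl fun i _ => pow_add _ _ _
  rw [e1] at h
  have e2 : (c (σ e) : ℤ) * (∏ i, (α i : ℤ) ^ e i) * ((B * n : ℕ) : ℤ) + b =
      (c (σ e) : ℤ) * ((∏ i, (α i : ℤ) ^ e i) * B) * n + b := by push_cast; ring
  show 0 < (c (σ e) : ℤ) * (∏ i, (α i : ℤ) ^ e i) * ((B * n : ℕ) : ℤ) + b ∧
    Prime ((c (σ e) : ℤ) * (∏ i, (α i : ℤ) ^ e i) * ((B * n : ℕ) : ℤ) + b)
  rwa [e2]

end Pool.Agent.H602R3.Dick
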