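import Pool.Agent.H242R3.ES.StmtsN
import Pool.Agent.H249R2.PM.Farkas

/-! Project H242-ES: task N6, `FlEx`. -/

set_option autoImplicit false

open Finset
open scoped Classical

namespace Pool.Agent.H602R3.ESN6

open Pool.Agent.H242R3.ES

section

variable {ι E : Type} [Fintype ι] [AddCommGroup E] [Module ℝ E]

/-- Farkas' lemma for finitely many vectors -/
theorem far {κ : Type} [Fintype κ] (g : κ → E) (z : E)
    (h : ∀ l : E →ₗ[ℝ] ℝ, (∀ i, 0 ≤ l (g i)) → 0 ≤ l z) :
    ∃ w : κ → ℝ, (∀ i, 0 ≤ w i) ∧ z = ∑ i, w i • g i := by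
  obtain ⟨w0, w, hw0, hw, hf⟩ := Pool.Agent.H249R2.PM.farkas_fin (U := E →ₗ[ℝ] ℝ)
    (fun i => -(LinearMap.applyₗ (R := ℝ) (M₂ := ℝ) (g i))) (fun _ => 0)
    (-(LinearMap.applyₗ (R := ℝ) (M₂ := ℝ) z)) 0 0 (fun i => by simp) (by
      intro l hl
      have := h l (fun i => by
        have := hl i
        simp only [LinearMap.neg_apply, LinearMap.applyₗ_apply_apply] at this
        linarith)
      simp only [LinearMap.neg_apply, LinearMap.applyₗ_apply_apply]
      linarith)
  have h0 : w0 = 0 := by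
    have := hf 0
    simp at this
    linarith
  refine ⟨w, hw, ?_⟩
  rw [← sub_eq_zero, ← Module.forall_dual_apply_eq_zero_iff ℝ]
  intro l
  have := hf l
  simp only [LinearMap.neg_apply, LinearMap.applyₗ_apply_apply, h0] at this
  rw [map_sub, map_sum]
  simp only [map_smul, smul_eq_mul]
  have e : ∑ i, w i * (0 - -l (g i)) = ∑ i, w i * l (g i) :=
    Finset.sum_congr rfl fun i _ => by ring
  rw [e] at this
  linarith

/-- membership in the cone -/
def InK (V : ι → E) (j : ι) (T : Set ι) (z : E) : Prop :=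
  ∃ (y : ℝ) (a : ι → ℝ), (∀ k, 0 ≤ a k) ∧ (∀ k, a k ≠ 0 → k ∈ T) ∧ z = y • V j + ∑ k, a k • V k

/-- admissible functionals -/
def Adm (V : ι → E) (j : ι) (T : Set ι) (l : E →ₗ[ℝ] ℝ) : Prop :=
  (∀ k ∈ T, 0 ≤ l (V k)) ∧ l (V j) = 0

theorem InK_nonneg {V : ι → E} {j : ι} {T : Set ι} {z : E} (h : InK V j T z) {l : E →ₗ[ℝ] ℝ}
    (hl : Adm V j T l) : 0 ≤ l z := by
  obtain ⟨y, a, ha, haT, rfl⟩ := h
  rw [map_add, map_smul, hl.2, smul_zero, zero_add, map_sum]
  refine Finset.sum_nonneg fun k _ => ?_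
  rw [map_smul, smul_eq_mul]
  by_cases hk : a k = 0
  · rw [hk, zero_mul]
  · exact mul_nonneg (ha k) (hl.1 k (haT k hk))

/-- generators -/
noncomputable def gen (V : ι → E) (j : ι) (T : Set ι) : ι ⊕ Bool → E
  | .inl k => if k ∈ T then V k else 0
  | .inr true => V j
  | .inr false => -V j

theorem adm_of_gen {V : ι → E} {j : ι} {T : Set ι} {l : E →ₗ[ℝ] ℝ}
    (h : ∀ i, 0 ≤ l (gen V j T i)) : Adm V j T l := by
  refine ⟨fun k hk => ?_, ?_⟩
  · have := h (.inl k)
    simpa [gen, hk] using this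
  · have h1 := h (.inr true)
    have h2 := h (.inr false)
    simp only [gen, map_neg] at h1 h2
    linarith

theorem InK_of {V : ι → E} {j : ι} {T : Set ι} {z : E}
    (h : ∀ l : E →ₗ[ℝ] ℝ, Adm V j T l → 0 ≤ l z) : InK V j T z := by
  obtain ⟨w, hw, hz⟩ := far (gen V j T) z (fun l hl => h l (adm_of_gen hl))
  refine ⟨w (.inr true) - w (.inr false), fun k => if k ∈ T then w (.inl k) else 0, ?_, ?_, ?_⟩
  · intro k
    dsimp only
    split_ifs
    · exact hw _
    · exact le_refl _
  · intro k hk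
    by_contra hkT
    exact hk (by simp [hkT])
  · rw [hz, Fintype.sum_sum_type, Fintype.sum_bool, add_comm]
    congr 1
    · simp only [gen, smul_neg, sub_smul]
      abel
    · refine Finset.sum_congr rfl fun k _ => ?_
      simp only [gen]
      split_ifs
      · rfl
      · simp

theorem face_sub {V : ι → E} {T : Set ι} (hT : Face V T) {l : E →ₗ[ℝ] ℝ}
    (hl : ∀ k ∈ T, 0 ≤ l (V k)) : Face V {k | k ∈ T ∧ l (V k) = 0} := by
  obtain ⟨m, hm0, hm⟩ := hT
  let N : ℝ := 1 + ∑ k, |l (V k)| / m (V k)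
  have hterm : ∀ k, 0 ≤ |l (V k)| / m (V k) := fun k => div_nonneg (abs_nonneg _) (hm0 k)
  have hN : ∀ k, k ∉ T → 0 < N * m (V k) + l (V k) := by
    intro k hk
    have h1 : 0 < m (V k) := lt_of_le_of_ne (hm0 k) (fun h => hk ((hm k).2 h.symm))
    have h2 : |l (V k)| / m (V k) ≤ ∑ k, |l (V k)| / m (V k) :=
      Finset.single_le_sum (f := fun k => |l (V k)| / m (V k)) (fun k _ => hterm k)
        (Finset.mem_univ k)
    have h3 : (1 + |l (V k)| / m (V k)) * m (V k) ≤ N * m (V k) :=
      mul_le_mul_of_nonneg_right (by simp only [N]; linarith) h1.le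
    have h4 : (1 + |l (V k)| / m (V k)) * m (V k) = m (V k) + |l (V k)| := by
      field_simp
    have h5 := neg_abs_le (l (V k))
    linarith
  refine ⟨N • m + l, ?_, ?_⟩
  · intro i
    rw [LinearMap.add_apply, LinearMap.smul_apply, smul_eq_mul]
    by_cases hi : i ∈ T
    · rw [(hm i).1 hi, mul_zero, zero_add]
      exact hl i hi
    · exact (hN i hi).le
  · intro i
    rw [LinearMap.add_apply, LinearMap.smul_apply, smul_eq_mul]
    by_cases hi : i ∈ T
    · rw [(hm i).1 hi, mul_zero, zero_add]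
      simp [hi]
    · constructor
      · intro h
        exact absurd h.1 hi
      · intro h
        exact absurd h (hN i hi).ne'

theorem main {V : ι → E} {j : ι} (hV : ∀ i, Face V {i}) : ∀ (n : ℕ) (T : Set ι), T.ncard = n →
    Face V T → j ∈ T → ∀ z : E, InK V j T z →
    ∃ (s : Finset (Set ι)) (y : ℝ) (c : Set ι → ℝ),
      (∀ R ∈ s, Face V R ∧ j ∈ R ∧ R ≠ {j} ∧ R ⊆ T) ∧
      (∀ R ∈ s, ∀ R' ∈ s, R ⊆ R' ∨ R' ⊆ R) ∧ (∀ R, 0 ≤ c R) ∧
      z = y • V j + ∑ R ∈ s, c R • Y V R := by
  intro n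
  induction n using Nat.strong_induction_on with
  | _ n ih =>
  intro T hTn hT hjT z hz
  by_cases hTj : T = {j}
  · obtain ⟨y, a, ha, haT, rfl⟩ := hz
    refine ⟨∅, y + a j, fun _ => 0, by simp, by simp, fun _ => le_refl _, ?_⟩
    rw [Finset.sum_empty, add_zero, add_smul]
    congr 1
    rw [Finset.sum_eq_single j]
    · intro k _ hk
      have : a k = 0 := by
        by_contra h
        have := haT k h
        rw [hTj] at this
        exact hk this
      rw [this, zero_smul]
    · intro h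
      exact absurd (Finset.mem_univ j) h
  -- the functional of the ray `j`
  obtain ⟨k1, hk1T, hk1⟩ : ∃ k ∈ T, k ≠ j := by
    by_contra hcon
    push Not at hcon
    exact hTj (Set.eq_singleton_iff_unique_mem.2 ⟨hjT, hcon⟩)
  have hYl : ∀ l : E →ₗ[ℝ] ℝ, l (Y V T) = ∑ k ∈ Finset.univ.filter (· ∈ T), l (V k) := by
    intro l
    rw [Y, map_sum]
  obtain ⟨lj, hlj0, hlj⟩ := hV j
  have hljadm : Adm V j T lj := ⟨fun k _ => hlj0 k, (hlj j).1 rfl⟩
  have hljY : 0 < lj (Y V T) := by
    rw [hYl]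
    refine Finset.sum_pos' (fun k _ => hlj0 k) ⟨k1, by simp [hk1T], ?_⟩
    exact lt_of_le_of_ne (hlj0 k1) (fun h => hk1 ((hlj k1).2 h.symm))
  let S : Set ℝ := {c | 0 ≤ c ∧ InK V j T (z - c • Y V T)}
  have hS0 : (0 : ℝ) ∈ S := ⟨le_refl _, by rw [zero_smul, sub_zero]; exact hz⟩
  have hSb : BddAbove S := by
    refine ⟨lj z / lj (Y V T), ?_⟩
    rintro c ⟨_, hc⟩
    have := InK_nonneg hc hljadm
    rw [map_sub, map_smul, smul_eq_mul] at this
    rw [le_div_iff₀ hljY]
    linarith
  set cs : ℝ := sSup S with hcs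
  have hcs0 : 0 ≤ cs := le_csSup hSb hS0
  have hYnn : ∀ l : E →ₗ[ℝ] ℝ, Adm V j T l → 0 ≤ l (Y V T) := by
    intro l hl
    rw [hYl]
    exact Finset.sum_nonneg fun k hk => hl.1 k (Finset.mem_filter.1 hk).2
  set zs : E := z - cs • Y V T with hzs
  have hzsK : InK V j T zs := by
    apply InK_of
    intro l hl
    rw [hzs, map_sub, map_smul, smul_eq_mul]
    rcases eq_or_lt_of_le (hYnn l hl) with h0 | hpos
    · rw [← h0, mul_zero, sub_zero]
      exact InK_nonneg hz hl
    · have : cs ≤ l z / l (Y V T) := by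
        apply csSup_le ⟨0, hS0⟩
        rintro c ⟨_, hc⟩
        have := InK_nonneg hc hl
        rw [map_sub, map_smul, smul_eq_mul] at this
        rw [le_div_iff₀ hpos]
        linarith
      rw [le_div_iff₀ hpos] at this
      linarith
  -- a generator not absorbed
  obtain ⟨k0, hk0T, hk0⟩ : ∃ k ∈ T, ∀ ε : ℝ, 0 < ε → ∃ l, Adm V j T l ∧ l zs < ε * l (V k) := by
    by_contra hcon
    push Not at hcon
    have hch : ∀ k : ι, ∃ ε : ℝ, 0 < ε ∧ (k ∈ T → ∀ l, Adm V j T l → ε * l (V k) ≤ l zs) := by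
      intro k
      by_cases hk : k ∈ T
      · obtain ⟨ε, hε, h⟩ := hcon k hk
        exact ⟨ε, hε, fun _ => h⟩
      · exact ⟨1, one_pos, fun h => absurd h hk⟩
    choose ε hε hεl using hch
    let M : ℝ := 1 + ∑ k ∈ Finset.univ.filter (· ∈ T), 1 / ε k
    have hMs : 0 ≤ ∑ k ∈ Finset.univ.filter (· ∈ T), 1 / ε k :=
      Finset.sum_nonneg fun k _ => by have := hε k; positivity
    have hM : 0 < M := by simp only [M]; linarith
    have hmem : cs + 1 / M ∈ S := by
      refine ⟨by positivity, InK_of fun l hl => ?_⟩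
      have h1 : l (Y V T) ≤ (∑ k ∈ Finset.univ.filter (· ∈ T), 1 / ε k) * l zs := by
        rw [hYl, Finset.sum_mul]
        refine Finset.sum_le_sum fun k hk => ?_
        have h2 := hεl k (Finset.mem_filter.1 hk).2 l hl
        rw [one_div, inv_mul_eq_div, le_div_iff₀ (hε k)]
        linarith
      have h3 : 0 ≤ l zs := InK_nonneg hzsK hl
      have h4 : l (Y V T) ≤ M * l zs := by
        refine h1.trans ?_
        refine mul_le_mul_of_nonneg_right ?_ h3
        simp only [M]; linarith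
      have h5 : 1 / M * l (Y V T) ≤ l zs := by
        rw [one_div, inv_mul_eq_div, div_le_iff₀ hM]
        linarith
      have h6 : l zs = l z - cs * l (Y V T) := by
        rw [hzs, map_sub, map_smul, smul_eq_mul]
      rw [map_sub, map_smul, smul_eq_mul]
      linarith
    have := le_csSup hSb hmem
    rw [← hcs] at this
    have h7 : 0 < 1 / M := by positivity
    linarith
  -- the supporting functional
  obtain ⟨l, hl, hlz, hlk0⟩ : ∃ l, Adm V j T l ∧ l zs ≤ 0 ∧ 0 < l (V k0) := by
    by_contra hcon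
    push Not at hcon
    let g : Option (ι ⊕ Bool) → E := fun o => Option.elim o (-zs) (gen V j T)
    obtain ⟨w, hw, hzw⟩ := far g (-V k0) (by
      intro l hl
      have hadm : Adm V j T l := adm_of_gen fun i => hl (some i)
      have h1 : 0 ≤ l (-zs) := hl none
      rw [map_neg] at h1
      have h2 := hcon l hadm (by linarith)
      rw [map_neg]
      linarith)
    have ht := hw none
    obtain ⟨l, hl, hlt⟩ := hk0 (1 / (w none + 1)) (by positivity)
    have h1 := congrArg l hzw
    rw [map_neg, Fintype.sum_option, map_add, map_sum, map_smul, smul_eq_mul] at h1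
    have h2 : 0 ≤ ∑ i, l (w (some i) • g (some i)) := by
      refine Finset.sum_nonneg fun i _ => ?_
      rw [map_smul, smul_eq_mul]
      refine mul_nonneg (hw _) ?_
      rcases i with k | b
      · show 0 ≤ l (if k ∈ T then V k else 0)
        split_ifs with hk
        · exact hl.1 k hk
        · rw [map_zero]
      · cases b
        · show 0 ≤ l (-V j)
          rw [map_neg, hl.2, neg_zero]
        · show 0 ≤ l (V j)
          rw [hl.2]
    have h3 : l (g none) = -l zs := by
      show l (-zs) = _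
      rw [map_neg]
    rw [h3] at h1
    have h4 : 0 ≤ l zs := InK_nonneg hzsK hl
    have h5 : l (V k0) ≤ w none * l zs := by linarith
    rw [one_div, inv_mul_eq_div, lt_div_iff₀ (by linarith)] at hlt
    nlinarith
  have hlz0 : l zs = 0 := le_antisymm hlz (InK_nonneg hzsK hl)
  -- the smaller face
  let T' : Set ι := {k | k ∈ T ∧ l (V k) = 0}
  have hT'T : T' ⊆ T := fun k hk => hk.1
  have hk0T' : k0 ∉ T' := fun h => hlk0.ne' h.2
  have hss : T' ⊂ T := ⟨hT'T, fun h => hk0T' (h hk0T)⟩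
  have hlt : T'.ncard < n := by
    rw [← hTn]
    exact Set.ncard_lt_ncard hss (Set.toFinite _)
  have hzsK' : InK V j T' zs := by
    obtain ⟨y, a, ha, haT, hzeq⟩ := hzsK
    refine ⟨y, a, ha, ?_, hzeq⟩
    have h1 : ∑ k, a k * l (V k) = 0 := by
      have := congrArg l hzeq
      rw [hlz0, map_add, map_smul, hl.2, smul_zero, zero_add, map_sum] at this
      simp only [map_smul, smul_eq_mul] at this
      exact this.symm
    have h2 := (Finset.sum_eq_zero_iff_of_nonneg (fun k _ => by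
      by_cases hk : a k = 0
      · rw [hk, zero_mul]
      · exact mul_nonneg (ha k) (hl.1 k (haT k hk)))).1 h1
    intro k hk
    refine ⟨haT k hk, ?_⟩
    rcases mul_eq_zero.1 (h2 k (Finset.mem_univ k)) with h | h
    · exact absurd h hk
    · exact h
  obtain ⟨s, y, c, h1, h2, h3, h4⟩ := ih T'.ncard hlt T' rfl (face_sub hT hl.1) ⟨hjT, hl.2⟩ zs hzsK'
  have hTs : T ∉ s := fun h => hk0T' ((h1 T h).2.2.2 hk0T)
  refine ⟨insert T s, y, fun R => if R = T then cs else c R, ?_, ?_, ?_, ?_⟩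
  · intro R hR
    rcases Finset.mem_insert.1 hR with rfl | hR
    · exact ⟨hT, hjT, hTj, subset_refl _⟩
    · obtain ⟨h5, h6, h7, h8⟩ := h1 R hR
      exact ⟨h5, h6, h7, h8.trans hT'T⟩
  · intro R hR R' hR'
    rcases Finset.mem_insert.1 hR with e1 | e1
    · rcases Finset.mem_insert.1 hR' with e2 | e2
      · rw [e1, e2]; exact Or.inl (subset_refl _)
      · rw [e1]; exact Or.inr ((h1 R' e2).2.2.2.trans hT'T)
    · rcases Finset.mem_insert.1 hR' with e2 | e2
      · rw [e2]; exact Or.inl ((h1 R e1).2.2.2.trans hT'T)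
      · exact h2 R e1 R' e2
  · intro R
    dsimp only
    split_ifs
    · exact hcs0
    · exact h3 R
  · rw [Finset.sum_insert hTs]
    simp only [if_true]
    have e : ∑ R ∈ s, (if R = T then cs else c R) • Y V R = ∑ R ∈ s, c R • Y V R := by
      refine Finset.sum_congr rfl fun R hR => ?_
      rw [if_neg (fun h : R = T => hTs (h ▸ hR))]
    rw [e]
    have h5 : z = zs + cs • Y V T := by rw [hzs, sub_add_cancel]
    rw [h5, h4]
    abel

end

theorem t : FlEx := by
  intro ι E _ _ _ _ V j hV T hT hjT z hz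
  exact main hV _ T rfl hT hjT z hz

end Pool.Agent.H602R3.ESN6
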