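import Pool.Agent.H602R3.HTGen

namespace Pool.Agent.H602R3.HT

open Equiv MulAction

universe u

section FS

variable (Ω : Type u)

/-- finitary permutations -/
def FS [DecidableEq Ω] : Subgroup (Perm Ω) := Subgroup.closure {σ : Perm Ω | σ.IsSwap}

variable {Ω} [DecidableEq Ω]

lemma swap_mem_FS (a b : Ω) : swap a b ∈ FS Ω := by
  by_cases h : a = b
  · rw [h, swap_self]; exact one_mem _
  · exact Subgroup.subset_closure ⟨a, b, h, rfl⟩

instance : (FS Ω).Normal := by
  constructor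
  intro n hn g
  induction hn using Subgroup.closure_induction with
  | mem x hx =>
    obtain ⟨a, b, hab, rfl⟩ := hx
    rw [← swap_apply_apply]
    exact swap_mem_FS _ _
  | one => simp
  | mul x y _ _ hx hy =>
    have : g * (x * y) * g⁻¹ = (g * x * g⁻¹) * (g * y * g⁻¹) := by group
    rw [this]; exact mul_mem hx hy
  | inv x _ hx =>
    have : g * x⁻¹ * g⁻¹ = (g * x * g⁻¹)⁻¹ := by group
    rw [this]; exact inv_mem hx

lemma FS_trans (k : ℕ) (x y : Fin k → Ω) (hx : Function.Injective x) (hy : Function.Injective y) :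
    ∃ σ ∈ FS Ω, ∀ i, σ (x i) = y i := by
  induction k with
  | zero => exact ⟨1, one_mem _, fun i => i.elim0⟩
  | succ k ih =>
    obtain ⟨σ, hσ, h⟩ := ih (x ∘ Fin.castSucc) (y ∘ Fin.castSucc)
      (hx.comp (Fin.castSucc_injective k)) (hy.comp (Fin.castSucc_injective k))
    refine ⟨swap (σ (x (Fin.last k))) (y (Fin.last k)) * σ, mul_mem (swap_mem_FS _ _) hσ,
      fun i => ?_⟩
    rw [Perm.mul_apply]
    refine Fin.lastCases ?_ (fun j => ?_) i
    · rw [swap_apply_left]
    · have h1 : σ (x (Fin.castSucc j)) = y (Fin.castSucc j) := h j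
      rw [h1]
      apply swap_apply_of_ne_of_ne
      · intro h2
        rw [← h1] at h2
        exact absurd (hx (σ.injective h2)) (Fin.castSucc_lt_last j).ne
      · intro h2
        exact absurd (hy h2) (Fin.castSucc_lt_last j).ne

lemma FS_fix [Infinite Ω] {σ : Perm Ω} (hσ : σ ∈ FS Ω) : ∃ ω, σ ω = ω := by
  have h := (mem_closure_isSwap' (f := σ)).1 hσ
  obtain ⟨ω, hω⟩ := h.infinite_compl.nonempty
  rw [compl_compl] at hω
  exact ⟨ω, hω⟩

end FS

/-! ### The construction -/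

variable {P : Type u} [Group P] (Z : Subgroup P)

open Classical in
/-- pairs `(π, q)` such that `π` is a finite perturbation of the translation by `q` on `P/Z` -/
noncomputable def GG : Subgroup (Perm (P ⧸ Z) × P) :=
  MonoidHom.eqLocus ((QuotientGroup.mk' (FS (P ⧸ Z))).comp (MonoidHom.fst _ _))
    (((QuotientGroup.mk' (FS (P ⧸ Z))).comp (toPermHom P (P ⧸ Z))).comp (MonoidHom.snd _ _))

variable {Z}

open Classical in
lemma mem_GG {p : Perm (P ⧸ Z) × P} :
    p ∈ GG Z ↔ p.1⁻¹ * toPermHom P (P ⧸ Z) p.2 ∈ FS (P ⧸ Z) := by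
  have h : p ∈ GG Z ↔ (QuotientGroup.mk p.1 : Perm (P ⧸ Z) ⧸ FS (P ⧸ Z)) =
      QuotientGroup.mk (toPermHom P (P ⧸ Z) p.2) := Iff.rfl
  rw [h, QuotientGroup.eq]

/-- the element `(λ q, q)` -/
noncomputable def dd : P →* GG Z where
  toFun q := ⟨(toPermHom P (P ⧸ Z) q, q), by rw [mem_GG, inv_mul_cancel]; exact one_mem _⟩
  map_one' := Subtype.ext (Prod.ext (map_one _) rfl)
  map_mul' a b := Subtype.ext (Prod.ext (map_mul _ a b) rfl)

open Classical in
/-- the element `(σ, 1)` -/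
noncomputable def ss : FS (P ⧸ Z) →* GG Z where
  toFun σ := ⟨(σ.1, 1), by
    rw [mem_GG, map_one, mul_one]
    exact inv_mem σ.2⟩
  map_one' := rfl
  map_mul' a b := Subtype.ext (Prod.ext rfl (mul_one _).symm)

open Classical in
lemma decomp (g : GG Z) : ∃ (σ : FS (P ⧸ Z)), g = ss σ * dd g.1.2 := by
  have h := mem_GG.1 g.2
  have h1 : (toPermHom P (P ⧸ Z) g.1.2)⁻¹ * g.1.1 ∈ FS (P ⧸ Z) := by
    have := inv_mem h
    rwa [mul_inv_rev, inv_inv] at this
  have h2 : g.1.1 * (toPermHom P (P ⧸ Z) g.1.2)⁻¹ ∈ FS (P ⧸ Z) := by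
    have := (inferInstance : (FS (P ⧸ Z)).Normal).conj_mem _ h1 (toPermHom P (P ⧸ Z) g.1.2)
    rwa [mul_inv_cancel_left] at this
  refine ⟨⟨_, h2⟩, ?_⟩
  ext : 1
  apply Prod.ext
  · show g.1.1 = (g.1.1 * (toPermHom P (P ⧸ Z) g.1.2)⁻¹) * toPermHom P (P ⧸ Z) g.1.2
    rw [inv_mul_cancel_right]
  · show g.1.2 = 1 * g.1.2
    rw [one_mul]

open Classical in
/-- finite generation -/
lemma GG_fg (A : Finset P) (hA : Subgroup.closure (A : Set P) = ⊤) :
    ∃ S : Finset (GG Z), Subgroup.closure (S : Set (GG Z)) = ⊤ := by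
  let o : P → P ⧸ Z := fun q => QuotientGroup.mk q
  let sw : (P ⧸ Z) → (P ⧸ Z) → GG Z := fun a b => ss ⟨swap a b, swap_mem_FS a b⟩
  let S : Finset (GG Z) := A.image (fun s => sw (o 1) (o s)) ∪ A.image (fun s => dd s)
  refine ⟨S, ?_⟩
  set K := Subgroup.closure (S : Set (GG Z)) with hK
  have hdd : ∀ q : P, dd (Z := Z) q ∈ K := by
    intro q
    have hq : q ∈ Subgroup.closure (A : Set P) := by rw [hA]; trivial
    have h1 : Subgroup.closure (A : Set P) ≤ K.comap (dd (Z := Z)) := by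
      rw [Subgroup.closure_le]
      intro s hs
      apply Subgroup.subset_closure
      simp only [S, Finset.coe_union, Finset.coe_image]
      exact Or.inr ⟨s, hs, rfl⟩
    exact h1 hq
  have hconj : ∀ (q : P) (a b : P ⧸ Z), dd q * sw a b * (dd q)⁻¹ = sw (q • a) (q • b) := by
    intro q a b
    ext : 1
    apply Prod.ext
    · show toPermHom P (P ⧸ Z) q * swap a b * (toPermHom P (P ⧸ Z) q)⁻¹ = swap (q • a) (q • b)
      rw [← swap_apply_apply]
      rfl
    · show q * 1 * q⁻¹ = 1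
      group
  have hswmul : ∀ a b c : P ⧸ Z, sw a b ∈ K → sw b c ∈ K → sw a c ∈ K := by
    intro a b c h1 h2
    by_cases hab : a = b
    · rw [hab]; exact h2
    by_cases hac : a = c
    · have : sw a c = 1 := by
        ext : 1
        apply Prod.ext
        · show swap a c = 1
          rw [hac, swap_self]; rfl
        · rfl
      rw [this]; exact one_mem _
    have e : sw a c = sw b c * sw a b * sw b c := by
      ext : 1
      apply Prod.ext
      · show swap a c = swap b c * swap a b * swap b c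
        rw [swap_mul_swap_mul_swap hab hac, swap_comm]
      · show (1 : P) = 1 * 1 * 1
        group
    rw [e]
    exact mul_mem (mul_mem h2 h1) h2
  have hsw1 : ∀ q : P, sw (o 1) (o q) ∈ K := by
    intro q
    have hq : q ∈ Subgroup.closure (A : Set P) := by rw [hA]; trivial
    have hbase : ∀ s ∈ A, sw (o 1) (o s) ∈ K := by
      intro s hs
      apply Subgroup.subset_closure
      simp only [S, Finset.coe_union, Finset.coe_image]
      exact Or.inl ⟨s, hs, rfl⟩
    induction hq using Subgroup.closure_induction_right with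
    | one =>
      have : sw (o 1) (o 1) = 1 := by
        ext : 1
        apply Prod.ext
        · show swap (o 1) (o 1) = 1
          rw [swap_self]; rfl
        · rfl
      rw [this]; exact one_mem _
    | mul_right x hx y hy ih =>
      refine hswmul _ _ _ ih ?_
      have h1 := mul_mem (mul_mem (hdd x) (hbase y hy)) (inv_mem (hdd x))
      rw [hconj] at h1
      have e1 : x • o 1 = o x := by
        show (QuotientGroup.mk (x * 1) : P ⧸ Z) = QuotientGroup.mk x
        rw [mul_one]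
      have e2 : x • o y = o (x * y) := rfl
      rwa [e1, e2] at h1
    | mul_inv_cancel x hx y hy ih =>
      refine hswmul _ _ _ ih ?_
      have h1 := mul_mem (mul_mem (hdd (x * y⁻¹)) (hbase y hy)) (inv_mem (hdd (x * y⁻¹)))
      rw [hconj] at h1
      have e1 : (x * y⁻¹) • o 1 = o (x * y⁻¹) := by
        show (QuotientGroup.mk (x * y⁻¹ * 1) : P ⧸ Z) = QuotientGroup.mk (x * y⁻¹)
        rw [mul_one]
      have e2 : (x * y⁻¹) • o y = o x := by
        show (QuotientGroup.mk (x * y⁻¹ * y) : P ⧸ Z) = QuotientGroup.mk x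
        rw [inv_mul_cancel_right]
      rw [e1, e2] at h1
      have e3 : sw (o (x * y⁻¹)) (o x) = sw (o x) (o (x * y⁻¹)) := by
        simp only [sw, swap_comm (o x) (o (x * y⁻¹))]
      rwa [e3] at h1
  have hsw : ∀ a b : P ⧸ Z, sw a b ∈ K := by
    intro a b
    obtain ⟨p, rfl⟩ := QuotientGroup.mk_surjective a
    obtain ⟨q, rfl⟩ := QuotientGroup.mk_surjective b
    refine hswmul _ (o 1) _ ?_ (hsw1 q)
    have e3 : sw (QuotientGroup.mk p) (o 1) = sw (o 1) (QuotientGroup.mk p) := by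
      simp only [sw, swap_comm (o 1) (QuotientGroup.mk p)]
    rw [e3]
    exact hsw1 p
  have hss : ∀ σ : FS (P ⧸ Z), ss σ ∈ K := by
    have h1 : FS (P ⧸ Z) ≤ (K.comap (ss (Z := Z))).map (FS (P ⧸ Z)).subtype := by
      unfold FS
      rw [Subgroup.closure_le]
      rintro _ ⟨a, b, hab, rfl⟩
      exact ⟨⟨swap a b, swap_mem_FS a b⟩, hsw a b, rfl⟩
    intro σ
    obtain ⟨τ, hτ, hτ'⟩ := h1 σ.2
    have h2 : τ = σ := Subtype.ext hτ'
    rw [← h2]
    exact hτ
  rw [eq_top_iff]
  intro g _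
  obtain ⟨σ, hσ⟩ := decomp g
  rw [hσ]
  exact mul_mem (hss σ) (hdd _)

/-- projection to permutations -/
noncomputable def pp : GG Z →* Perm (P ⧸ Z) := (MonoidHom.fst _ _).comp (GG Z).subtype

open Classical in
lemma ker_pp (hinf : Infinite (P ⧸ Z)) (hZc : Z ≤ Subgroup.center P) {g : GG Z}
    (hg : g ∈ (pp (Z := Z)).ker) : ∃ z ∈ Z, g = dd z := by
  have h1 : g.1.1 = 1 := hg
  have h := mem_GG.1 g.2
  rw [h1, inv_one, one_mul] at h
  obtain ⟨ω, hω⟩ := FS_fix h
  obtain ⟨q, rfl⟩ := QuotientGroup.mk_surjective ω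
  have h2 : (QuotientGroup.mk (g.1.2 * q) : P ⧸ Z) = QuotientGroup.mk q := hω
  rw [QuotientGroup.eq] at h2
  have h3 : (g.1.2 * q)⁻¹ * q ∈ Subgroup.center P := hZc h2
  have h4 : (g.1.2)⁻¹ ∈ Z := by
    have h5 := (Subgroup.mem_center_iff.1 h3 q)
    have h6 : (g.1.2)⁻¹ = (g.1.2 * q)⁻¹ * q := by
      calc (g.1.2)⁻¹ = q * ((g.1.2 * q)⁻¹ * q) * q⁻¹ := by group
        _ = ((g.1.2 * q)⁻¹ * q) * q * q⁻¹ := by rw [h5]
        _ = _ := by group
    rw [h6]
    exact h2
  refine ⟨g.1.2, by simpa using inv_mem h4, ?_⟩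
  apply Subtype.ext
  apply Prod.ext
  · show g.1.1 = toPermHom P (P ⧸ Z) g.1.2
    rw [h1]
    symm
    ext ω : 1
    obtain ⟨q, rfl⟩ := QuotientGroup.mk_surjective ω
    show (QuotientGroup.mk (g.1.2 * q) : P ⧸ Z) = QuotientGroup.mk q
    rw [QuotientGroup.eq]
    have h7 := Subgroup.mem_center_iff.1 (hZc h4) q
    have h8 : (g.1.2 * q)⁻¹ * q = (g.1.2)⁻¹ := by
      calc (g.1.2 * q)⁻¹ * q = q⁻¹ * ((g.1.2)⁻¹ * q) := by group
        _ = q⁻¹ * (q * (g.1.2)⁻¹) := by rw [h7]
        _ = _ := by group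
    rw [h8]
    exact h4
  · rfl

open Classical in
/-- The image group is highly transitive. -/
lemma HT_range (hinf : Infinite (P ⧸ Z)) : HighlyTransitive (pp (Z := Z)).range := by
  refine ⟨P ⧸ Z, inferInstance, hinf, ?_, ?_⟩
  · intro g hg
    apply Subtype.ext
    ext ω : 1
    exact hg ω
  · intro k x y hx hy
    obtain ⟨σ, hσ, h⟩ := FS_trans k x y hx hy
    refine ⟨⟨σ, ss ⟨σ, hσ⟩, rfl⟩, fun i => h i⟩

end Pool.Agent.H602R3.HT
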