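import Mathlib

namespace Pool.Agent.H602R3.HT

universe u v

/-- A group is highly transitive if it admits a faithful action on an infinite set which is
`k`-transitive for every `k`: any `k`-tuple of pairwise distinct points can be carried to any
other one. -/
def HighlyTransitive (G : Type u) [Group G] : Prop :=
  ∃ (Ω : Type u) (_ : MulAction G Ω), Infinite Ω ∧
    (∀ g : G, (∀ ω : Ω, g • ω = ω) → g = 1) ∧
    ∀ (k : ℕ) (x y : Fin k → Ω), Function.Injective x → Function.Injective y →
      ∃ g : G, ∀ i, g • x i = y i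

/-- Word length with respect to `S ∪ S⁻¹`. -/
noncomputable def wordLength {G : Type u} [Group G] (S : Set G) (g : G) : ℕ :=
  sInf {n | ∃ l : List G, l.length = n ∧ (∀ x ∈ l, x ∈ S ∨ x⁻¹ ∈ S) ∧ l.prod = g}

/-- Two groups are quasi-isometric if, for some finite generating sets (equivalently, for all),
the word metrics `d(g,h) = |g⁻¹h|` are quasi-isometric. -/
def QuasiIsometric (G : Type u) (H : Type v) [Group G] [Group H] : Prop :=
  ∃ (S : Finset G) (T : Finset H),
    Subgroup.closure (S : Set G) = ⊤ ∧ Subgroup.closure (T : Set H) = ⊤ ∧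
    ∃ (f : G → H) (A B : ℕ),
      (∀ g g' : G,
        wordLength (T : Set H) ((f g)⁻¹ * f g') ≤ A * wordLength (S : Set G) (g⁻¹ * g') + B ∧
        wordLength (S : Set G) (g⁻¹ * g') ≤ A * wordLength (T : Set H) ((f g)⁻¹ * f g') + B) ∧
      ∀ h : H, ∃ g : G, wordLength (T : Set H) ((f g)⁻¹ * h) ≤ B

/-- Two groups are commensurable if they have isomorphic subgroups of finite index. -/
def Commensurable (G : Type u) (H : Type v) [Group G] [Group H] : Prop :=
  ∃ (G₁ : Subgroup G) (H₁ : Subgroup H), G₁.FiniteIndex ∧ H₁.FiniteIndex ∧ Nonempty (G₁ ≃* H₁)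

end Pool.Agent.H602R3.HT
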