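import Pool.Agent.H602R3.HTCons

namespace Pool.Agent.H602R3.HT

open Equiv MulAction

universe u

lemma toPerm_central {P : Type u} [Group P] {Z : Subgroup P} (hZc : Z ≤ Subgroup.center P)
    {z : P} (hz : z ∈ Z) : toPermHom P (P ⧸ Z) z = 1 := by
  ext ω : 1
  obtain ⟨q, rfl⟩ := QuotientGroup.mk_surjective ω
  show (QuotientGroup.mk (z * q) : P ⧸ Z) = QuotientGroup.mk q
  rw [QuotientGroup.eq]
  have h7 := Subgroup.mem_center_iff.1 (hZc hz) q
  have h8 : (z * q)⁻¹ * q = z⁻¹ := by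
    rw [← h7]
    group
  rw [h8]
  exact inv_mem hz

lemma dd_central {P : Type u} [Group P] {Z : Subgroup P} (hZc : Z ≤ Subgroup.center P)
    {z : P} (hz : z ∈ Z) (m : GG Z) : m * dd z = dd z * m := by
  apply Subtype.ext
  apply Prod.ext
  · show m.1.1 * toPermHom P (P ⧸ Z) z = toPermHom P (P ⧸ Z) z * m.1.1
    rw [toPerm_central hZc hz, one_mul, mul_one]
  · show m.1.2 * z = z * m.1.2
    exact Subgroup.mem_center_iff.1 (hZc hz) _

/-- the set on which the example group acts -/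
abbrev X : Type := (ℤ → ZMod 2) × ZMod 2

/-- multiplication by the `i`-th coordinate -/
def xx (i : ℤ) : Perm X where
  toFun p := (p.1, p.2 + p.1 i)
  invFun p := (p.1, p.2 - p.1 i)
  left_inv p := by simp
  right_inv p := by simp

/-- translation by the `i`-th unit vector -/
def yy (i : ℤ) : Perm X where
  toFun p := (p.1 + Pi.single i 1, p.2)
  invFun p := (p.1 - Pi.single i 1, p.2)
  left_inv p := by simp
  right_inv p := by simp

/-- the shift -/
def tt : Perm X where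
  toFun p := (fun n => p.1 (n - 1), p.2)
  invFun p := (fun n => p.1 (n + 1), p.2)
  left_inv p := by simp
  right_inv p := by simp

/-- the central involution -/
def zz : Perm X where
  toFun p := (p.1, p.2 + 1)
  invFun p := (p.1, p.2 - 1)
  left_inv p := by simp
  right_inv p := by simp

lemma tt_xx (i : ℤ) : tt * xx i * tt⁻¹ = xx (i + 1) := by
  rw [mul_inv_eq_iff_eq_mul]
  ext p : 1
  show ((fun n => p.1 (n - 1)), p.2 + p.1 i) = ((fun n => p.1 (n - 1)), p.2 + p.1 (i + 1 - 1))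
  rw [add_sub_cancel_right]

lemma tt_yy (i : ℤ) : tt * yy i * tt⁻¹ = yy (i + 1) := by
  rw [mul_inv_eq_iff_eq_mul]
  ext p : 1
  show ((fun n => (p.1 + Pi.single i 1 : ℤ → ZMod 2) (n - 1)), p.2) =
    ((fun n => p.1 (n - 1)) + Pi.single (i + 1) 1, p.2)
  congr 1
  funext n
  simp only [Pi.add_apply, Pi.single_apply, sub_eq_iff_eq_add]

lemma comm_ne {i j : ℤ} (h : i ≠ j) : xx i * yy j = yy j * xx i := by
  ext p : 1
  show (p.1 + Pi.single j 1, p.2 + (p.1 + Pi.single j 1 : ℤ → ZMod 2) i) =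
    (p.1 + Pi.single j 1, p.2 + p.1 i)
  rw [Pi.add_apply, Pi.single_eq_of_ne h, add_zero]

lemma comm_eq (i : ℤ) : xx i * yy i = zz * (yy i * xx i) := by
  ext p : 1
  show (p.1 + Pi.single i 1, p.2 + (p.1 + Pi.single i 1 : ℤ → ZMod 2) i) =
    (p.1 + Pi.single i 1, p.2 + p.1 i + 1)
  rw [Pi.add_apply, Pi.single_eq_same, add_assoc]

lemma zz_xx (i : ℤ) : xx i * zz = zz * xx i := by
  ext p : 1
  show (p.1, p.2 + 1 + p.1 i) = (p.1, p.2 + p.1 i + 1)
  rw [add_right_comm]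

lemma zz_yy (i : ℤ) : yy i * zz = zz * yy i := rfl

lemma zz_tt : tt * zz = zz * tt := rfl

lemma zz_sq : zz * zz = 1 := by
  ext p : 1
  show (p.1, p.2 + 1 + 1) = p
  have : ∀ c : ZMod 2, c + 1 + 1 = c := by decide
  rw [this]

/-- The finitely generated group `P`. -/
def PP : Subgroup (Perm X) := Subgroup.closure {xx 0, yy 0, tt}

lemma tt_mem : tt ∈ PP := Subgroup.subset_closure (by simp)

lemma conj_mem_up {f : ℤ → Perm X} (h0 : f 0 ∈ PP) (h : ∀ i, tt * f i * tt⁻¹ = f (i + 1)) (i : ℤ) :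
    f i ∈ PP := by
  induction i using Int.induction_on with
  | zero => exact h0
  | succ n ih =>
    rw [← h]
    exact mul_mem (mul_mem tt_mem ih) (inv_mem tt_mem)
  | pred n ih =>
    have h1 : f (-(n : ℤ) - 1) = tt⁻¹ * f (-(n : ℤ)) * tt := by
      have := h (-(n : ℤ) - 1)
      rw [sub_add_cancel] at this
      rw [← this]
      group
    rw [h1]
    exact mul_mem (mul_mem (inv_mem tt_mem) ih) tt_mem

lemma xx_mem (i : ℤ) : xx i ∈ PP := conj_mem_up (Subgroup.subset_closure (by simp)) tt_xx i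

lemma yy_mem (i : ℤ) : yy i ∈ PP := conj_mem_up (Subgroup.subset_closure (by simp)) tt_yy i

lemma zz_eq (i : ℤ) : zz = xx i * yy i * (xx i)⁻¹ * (yy i)⁻¹ := by
  rw [comm_eq]
  group

lemma zz_mem : zz ∈ PP := by
  rw [zz_eq 0]
  exact mul_mem (mul_mem (mul_mem (xx_mem 0) (yy_mem 0)) (inv_mem (xx_mem 0))) (inv_mem (yy_mem 0))

lemma zz_comm {g : Perm X} (hg : g ∈ PP) : g * zz = zz * g := by
  have h : PP ≤ Subgroup.centralizer {zz} := by
    unfold PP
    rw [Subgroup.closure_le]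
    intro s hs
    simp only [Set.mem_insert_iff, Set.mem_singleton_iff] at hs
    rw [SetLike.mem_coe, Subgroup.mem_centralizer_singleton_iff]
    rcases hs with rfl | rfl | rfl
    · exact zz_xx 0
    · exact zz_yy 0
    · exact zz_tt
  exact Subgroup.mem_centralizer_singleton_iff.1 (h hg)

/-- the central element of `P` -/
def zP : PP := ⟨zz, zz_mem⟩

lemma zP_comm (g : PP) : g * zP = zP * g := Subtype.ext (zz_comm g.2)

/-- the central subgroup of order two -/
def ZZ : Subgroup PP := Subgroup.zpowers zP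

lemma ZZ_le : ZZ ≤ Subgroup.center PP := by
  rw [ZZ, Subgroup.zpowers_le, Subgroup.mem_center_iff]
  exact zP_comm

lemma zP_sq : zP * zP = 1 := Subtype.ext zz_sq

lemma mem_ZZ {g : PP} (hg : g ∈ ZZ) : g = 1 ∨ g = zP := by
  have h : ZZ ≤ (Subgroup.closure {zP}) := by rw [ZZ, Subgroup.zpowers_eq_closure]
  have h2 := h hg
  induction h2 using Subgroup.closure_induction with
  | mem x hx => right; exact hx
  | one => left; rfl
  | mul x y hx hy h1 h2 =>
    have h1' := h1 (by rw [ZZ, Subgroup.zpowers_eq_closure]; exact hx)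
    have h2' := h2 (by rw [ZZ, Subgroup.zpowers_eq_closure]; exact hy)
    rcases h1' with rfl | rfl <;> rcases h2' with rfl | rfl
    · left; simp
    · right; simp
    · right; simp
    · left; exact zP_sq
  | inv x hx h1 =>
    have h1' := h1 (by rw [ZZ, Subgroup.zpowers_eq_closure]; exact hx)
    rcases h1' with rfl | rfl
    · left; simp
    · right; exact inv_eq_of_mul_eq_one_left zP_sq

lemma zP_ne : zP ≠ 1 := by
  intro h
  have h1 : zz ((0 : ℤ → ZMod 2), (0 : ZMod 2)) = ((0 : ℤ → ZMod 2), (0 : ZMod 2)) := by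
    have := congrArg Subtype.val h
    have h2 : zz = 1 := this
    rw [h2]; rfl
  have h2 : ((0 : ZMod 2) + 1) = 0 := congrArg Prod.snd h1
  exact absurd h2 (by decide)

lemma infinite_quot : Infinite (PP ⧸ ZZ) := by
  refine Infinite.of_injective
    (fun j : ℤ => (QuotientGroup.mk (⟨yy j, yy_mem j⟩ : PP) : PP ⧸ ZZ)) ?_
  intro i j hij
  have h1 : (⟨yy i, yy_mem i⟩ : PP)⁻¹ * ⟨yy j, yy_mem j⟩ ∈ ZZ := QuotientGroup.eq.1 hij
  have h2 : ∀ p : X, (((yy i)⁻¹ * yy j) p).1 = p.1 := by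
    rcases mem_ZZ h1 with h | h
    · have h3 : (yy i)⁻¹ * yy j = 1 := congrArg Subtype.val h
      intro p; rw [h3]; rfl
    · have h3 : (yy i)⁻¹ * yy j = zz := congrArg Subtype.val h
      intro p; rw [h3]; rfl
  have h4 := h2 (0, 0)
  have h5 : (0 : ℤ → ZMod 2) + Pi.single j 1 - Pi.single i 1 = 0 := h4
  by_contra hne
  have h6 := congrFun h5 i
  rw [Pi.sub_apply, Pi.add_apply, Pi.single_eq_same, Pi.single_eq_of_ne hne, Pi.zero_apply] at h6
  exact absurd h6 (by decide)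

/-- every finite index subgroup contains the central element -/
lemma zeta_mem (G₁ : Subgroup (GG ZZ)) (h : G₁.FiniteIndex) : dd (Z := ZZ) zP ∈ G₁ := by
  have hN : G₁.normalCore.FiniteIndex := inferInstance
  have hfin : Finite (GG ZZ ⧸ G₁.normalCore) := Subgroup.finite_quotient_of_finiteIndex
  obtain ⟨i, j, hij, heq⟩ := Finite.exists_ne_map_eq_of_infinite
    (fun i : ℤ => (QuotientGroup.mk (dd (Z := ZZ) ⟨xx i, xx_mem i⟩) : GG ZZ ⧸ G₁.normalCore))
  have hm := QuotientGroup.eq.1 heq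
  set m := (dd (Z := ZZ) ⟨xx i, xx_mem i⟩)⁻¹ * dd (Z := ZZ) ⟨xx j, xx_mem j⟩ with hmdef
  let Y := dd (Z := ZZ) ⟨yy i, yy_mem i⟩
  have hm2 : m * (Y * m⁻¹ * Y⁻¹) ∈ G₁.normalCore :=
    mul_mem hm ((inferInstance : G₁.normalCore.Normal).conj_mem _ (inv_mem hm) Y)
  have e : dd (Z := ZZ) zP = m * (Y * m⁻¹ * Y⁻¹) := by
    simp only [hmdef, Y]
    rw [← map_inv, ← map_mul, ← map_inv, ← map_inv, ← map_mul, ← map_mul, ← map_mul]
    congr 1
    apply Subtype.ext
    show zz = (xx i)⁻¹ * xx j * (yy i * ((xx i)⁻¹ * xx j)⁻¹ * (yy i)⁻¹)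
    have h1 : xx j * yy i = yy i * xx j := comm_ne (Ne.symm hij)
    have h2 : xx i * yy i = zz * (yy i * xx i) := comm_eq i
    have h3 : (xx i)⁻¹ * xx j * (yy i * ((xx i)⁻¹ * xx j)⁻¹ * (yy i)⁻¹) =
        (xx i)⁻¹ * (xx j * yy i) * (xx j)⁻¹ * xx i * (yy i)⁻¹ := by group
    rw [h3, h1]
    have h4 : (xx i)⁻¹ * (yy i * xx j) * (xx j)⁻¹ * xx i * (yy i)⁻¹ =
        (xx i)⁻¹ * (yy i * xx i) * (yy i)⁻¹ := by group
    rw [h4]
    have h5 : yy i * xx i = zz * (xx i * yy i) := by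
      rw [h2, ← mul_assoc, zz_sq, one_mul]
    rw [h5, ← mul_assoc, zz_comm (inv_mem (xx_mem i))]
    group
  rw [e]
  exact Subgroup.normalCore_le _ hm2

end Pool.Agent.H602R3.HT
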