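import Pool.Agent.H602R3.HTDefs

namespace Pool.Agent.H602R3.HT

open Equiv MulAction

universe u v

/-! ### Word lengths -/

section Word

variable {G : Type u} [Group G] {H : Type v} [Group H]

lemma exists_word {S : Set G} (hS : Subgroup.closure S = ⊤) (g : G) :
    ∃ l : List G, (∀ x ∈ l, x ∈ S ∨ x⁻¹ ∈ S) ∧ l.prod = g := by
  have hg : g ∈ Subgroup.closure S := by rw [hS]; trivial
  induction hg using Subgroup.closure_induction_right with
  | one => exact ⟨[], by simp, rfl⟩
  | mul_right x hx y hy ih =>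
    obtain ⟨l, h1, h2⟩ := ih
    refine ⟨l ++ [y], ?_, by simp [h2]⟩
    intro z hz
    rcases List.mem_append.1 hz with h | h
    · exact h1 z h
    · rw [List.mem_singleton.1 h]; exact Or.inl hy
  | mul_inv_cancel x hx y hy ih =>
    obtain ⟨l, h1, h2⟩ := ih
    refine ⟨l ++ [y⁻¹], ?_, by simp [h2]⟩
    intro z hz
    rcases List.mem_append.1 hz with h | h
    · exact h1 z h
    · rw [List.mem_singleton.1 h, inv_inv]; exact Or.inr hy

lemma wordLength_le {S : Set G} {g : G} {l : List G} (h1 : ∀ x ∈ l, x ∈ S ∨ x⁻¹ ∈ S)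
    (h2 : l.prod = g) : wordLength S g ≤ l.length :=
  Nat.sInf_le ⟨l, rfl, h1, h2⟩

lemma exists_word_length {S : Set G} (hS : Subgroup.closure S = ⊤) (g : G) :
    ∃ l : List G, l.length = wordLength S g ∧ (∀ x ∈ l, x ∈ S ∨ x⁻¹ ∈ S) ∧ l.prod = g := by
  obtain ⟨l, h1, h2⟩ := exists_word hS g
  exact Nat.sInf_mem (s := {n | ∃ l : List G, l.length = n ∧ (∀ x ∈ l, x ∈ S ∨ x⁻¹ ∈ S) ∧
    l.prod = g}) ⟨l.length, l, rfl, h1, h2⟩

lemma wordLength_mul_le {S : Set G} (hS : Subgroup.closure S = ⊤) (g h : G) :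
    wordLength S (g * h) ≤ wordLength S g + wordLength S h := by
  obtain ⟨l, h1, h2, h3⟩ := exists_word_length hS g
  obtain ⟨m, h4, h5, h6⟩ := exists_word_length hS h
  have := wordLength_le (S := S) (g := g * h) (l := l ++ m) (by
    intro x hx
    rcases List.mem_append.1 hx with h | h
    · exact h2 x h
    · exact h5 x h) (by rw [List.prod_append, h3, h6])
  rw [List.length_append, h1, h4] at this
  exact this

lemma wordLength_one (S : Set G) : wordLength S (1 : G) = 0 :=
  Nat.le_zero.1 (wordLength_le (l := []) (by simp) rfl)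

/-- A surjection with finite kernel is a quasi-isometry. -/
lemma quasiIsometric_of_surj (p : G →* H) (hp : Function.Surjective p)
    (hker : ((p.ker : Subgroup G) : Set G).Finite) (S : Finset G)
    (hS : Subgroup.closure (S : Set G) = ⊤) : QuasiIsometric G H := by
  classical
  have hT : Subgroup.closure ((S.image p : Finset H) : Set H) = ⊤ := by
    rw [Finset.coe_image, ← MonoidHom.map_closure, hS, ← MonoidHom.range_eq_map,
      MonoidHom.range_eq_top.2 hp]
  obtain ⟨B, hB⟩ : ∃ B : ℕ, ∀ k ∈ p.ker, wordLength (S : Set G) k ≤ B := by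
    obtain ⟨B, hB⟩ := (hker.image (wordLength (S : Set G))).bddAbove
    exact ⟨B, fun k hk => hB ⟨k, hk, rfl⟩⟩
  refine ⟨S, S.image p, hS, hT, p, 1, B, fun g g' => ⟨?_, ?_⟩, fun h => ?_⟩
  · rw [← map_inv, ← map_mul]
    obtain ⟨l, h1, h2, h3⟩ := exists_word_length hS (g⁻¹ * g')
    have := wordLength_le (S := ((S.image p : Finset H) : Set H)) (g := p (g⁻¹ * g'))
      (l := l.map p) (by
        intro x hx
        obtain ⟨y, hy, rfl⟩ := List.mem_map.1 hx
        rcases h2 y hy with h | h
        · left; exact Finset.mem_coe.2 (Finset.mem_image_of_mem _ h)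
        · right
          rw [← map_inv]
          exact Finset.mem_coe.2 (Finset.mem_image_of_mem _ h)) (by
        rw [← map_list_prod, h3])
    rw [List.length_map, h1] at this
    omega
  · rw [← map_inv, ← map_mul]
    obtain ⟨l, h1, h2, h3⟩ := exists_word_length hT (p (g⁻¹ * g'))
    -- lift the word
    have lift : ∀ l : List H, (∀ x ∈ l, x ∈ ((S.image p : Finset H) : Set H) ∨
        x⁻¹ ∈ ((S.image p : Finset H) : Set H)) →
        ∃ m : List G, m.length = l.length ∧ (∀ x ∈ m, x ∈ (S : Set G) ∨ x⁻¹ ∈ (S : Set G)) ∧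
          p m.prod = l.prod := by
      intro l
      induction l with
      | nil => intro _; exact ⟨[], rfl, by simp, by simp⟩
      | cons a l ih =>
        intro h
        obtain ⟨m, hm1, hm2, hm3⟩ := ih (fun x hx => h x (List.mem_cons_of_mem _ hx))
        have ha : ∃ b : G, (b ∈ (S : Set G) ∨ b⁻¹ ∈ (S : Set G)) ∧ p b = a := by
          rcases h a (by simp) with h' | h'
          · obtain ⟨b, hb, rfl⟩ := Finset.mem_image.1 (Finset.mem_coe.1 h')
            exact ⟨b, Or.inl hb, rfl⟩
          · obtain ⟨b, hb, hb'⟩ := Finset.mem_image.1 (Finset.mem_coe.1 h')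
            refine ⟨b⁻¹, Or.inr (by rw [inv_inv]; exact hb), ?_⟩
            rw [map_inv, hb', inv_inv]
        obtain ⟨b, hb, rfl⟩ := ha
        refine ⟨b :: m, by simp [hm1], ?_, by simp [hm3]⟩
        intro x hx
        rcases List.mem_cons.1 hx with rfl | hx
        · exact hb
        · exact hm2 x hx
    obtain ⟨m, hm1, hm2, hm3⟩ := lift l h2
    have hk : m.prod⁻¹ * (g⁻¹ * g') ∈ p.ker := by
      rw [MonoidHom.mem_ker, map_mul, map_inv, hm3, h3, inv_mul_cancel]
    calc wordLength (S : Set G) (g⁻¹ * g') =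
          wordLength (S : Set G) (m.prod * (m.prod⁻¹ * (g⁻¹ * g'))) := by
            rw [mul_inv_cancel_left]
      _ ≤ wordLength (S : Set G) m.prod + wordLength (S : Set G) (m.prod⁻¹ * (g⁻¹ * g')) :=
          wordLength_mul_le hS _ _
      _ ≤ m.length + B := add_le_add (wordLength_le hm2 rfl) (hB _ hk)
      _ = _ := by rw [hm1, h1, one_mul]
  · obtain ⟨g, rfl⟩ := hp h
    exact ⟨g, by rw [inv_mul_cancel, wordLength_one]; omega⟩

end Word

/-! ### No highly transitive group has a finite index subgroup with centre -/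

lemma inj2 {α : Type*} {a b : α} (h : a ≠ b) : Function.Injective ![a, b] := by
  intro i j hij
  fin_cases i <;> fin_cases j
  · rfl
  · exact absurd hij h
  · exact absurd hij.symm h
  · rfl

lemma not_HT_of_center {K : Type u} [Group K] (K₁ : Subgroup K) (hfi : K₁.FiniteIndex)
    {z : K} (hz1 : z ≠ 1) (hcomm : ∀ m ∈ K₁, m * z = z * m) : ¬ HighlyTransitive K := by
  classical
  rintro ⟨Ω, inst, hinf, hfaith, htrans⟩
  obtain ⟨ω, hω⟩ : ∃ ω : Ω, z • ω ≠ ω := by
    by_contra hcon
    push Not at hcon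
    exact hz1 (hfaith z hcon)
  have hinf' : (({ω} : Set Ω)ᶜ).Infinite := (Set.finite_singleton ω).infinite_compl
  let e := hinf'.natEmbedding
  have key : ∀ j : ℕ, ∃ k : K, k • ω = ω ∧ k • (z • ω) = (e j : Ω) := by
    intro j
    have hne : (e j : Ω) ≠ ω := (e j).2
    obtain ⟨g, hg⟩ := htrans 2 ![ω, z • ω] ![ω, e j] (inj2 hω.symm) (inj2 hne.symm)
    exact ⟨g, by simpa using hg 0, by simpa using hg 1⟩
  choose k hk1 hk2 using key
  have hfinq : Finite (K ⧸ K₁) := Subgroup.finite_quotient_of_finiteIndex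
  obtain ⟨a, b, hab, heq⟩ := Finite.exists_ne_map_eq_of_infinite
    (fun j : ℕ => (QuotientGroup.mk (k j) : K ⧸ K₁))
  have hm : (k a)⁻¹ * k b ∈ K₁ := QuotientGroup.eq.1 heq
  have h1 : ((k a)⁻¹ * k b) • ω = ω := by
    rw [mul_smul, hk1 b, inv_smul_eq_iff, hk1 a]
  have h2 : ((k a)⁻¹ * k b) • (z • ω) = z • ω := by
    rw [← mul_smul, hcomm _ hm, mul_smul, h1]
  have h3 : k b • (z • ω) = k a • (z • ω) := by
    rw [mul_smul, inv_smul_eq_iff] at h2
    exact h2
  rw [hk2, hk2] at h3
  exact hab (e.injective (Subtype.ext h3)).symm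

end Pool.Agent.H602R3.HT
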