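import Pool.Agent.H602R3.TupClusters

/-!
Trees of shifts: good tuples of every shape.
-/

namespace Pool.Agent.H602R3.Tup

open Finset Pool.Agent.H461R2.PD

/-- position of a leaf -/
def tpos {k : ℕ} (lam : ℤ) (V : Fin (k + 1) → ℤ) : (n : ℕ) → (Fin n → Fin (k + 1)) → ℤ
  | 0, _ => 0
  | n + 1, s => lam ^ (n + 1) * V (s 0) + tpos lam V n (fun j => s j.succ)

theorem tpos_bound {k : ℕ} {lam : ℤ} (hlam : 2 ≤ lam) {V : Fin (k + 1) → ℤ} {B : ℤ}
    (hV : ∀ i, |V i| ≤ B) (n : ℕ) (s : Fin n → Fin (k + 1)) :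
    (lam - 1) * |tpos lam V n s| ≤ B * lam ^ (n + 1) := by
  have hB : 0 ≤ B := (abs_nonneg _).trans (hV 0)
  induction n with
  | zero =>
    show (lam - 1) * |0| ≤ _
    rw [abs_zero, mul_zero]
    positivity
  | succ n ih =>
    show (lam - 1) * |lam ^ (n + 1) * V (s 0) + tpos lam V n (fun j => s j.succ)| ≤ _
    have h1 := ih (fun j => s j.succ)
    have h2 : |lam ^ (n + 1) * V (s 0)| ≤ lam ^ (n + 1) * B := by
      rw [abs_mul, abs_of_nonneg (by positivity : (0 : ℤ) ≤ lam ^ (n + 1))]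
      exact mul_le_mul_of_nonneg_left (hV _) (by positivity)
    have h3 := abs_add_le (lam ^ (n + 1) * V (s 0)) (tpos lam V n (fun j => s j.succ))
    calc (lam - 1) * |lam ^ (n + 1) * V (s 0) + tpos lam V n (fun j => s j.succ)|
        ≤ (lam - 1) * (lam ^ (n + 1) * B + |tpos lam V n (fun j => s j.succ)|) :=
          mul_le_mul_of_nonneg_left (h3.trans (add_le_add_left h2 _)) (by linarith)
      _ = (lam - 1) * (lam ^ (n + 1) * B) + (lam - 1) * |tpos lam V n (fun j => s j.succ)| := by ring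
      _ ≤ (lam - 1) * (lam ^ (n + 1) * B) + B * lam ^ (n + 1) := add_le_add_right h1 _
      _ = B * lam ^ (n + 1 + 1) := by ring

/-- a large set of leaves contains a complete branching -/
theorem tree {k : ℕ} {lam : ℤ} (hlam : 2 ≤ lam) {V : Fin (k + 1) → ℤ} {B : ℤ}
    (hV : ∀ i, |V i| ≤ B) (n : ℕ) (S : Finset (Fin n → Fin (k + 1))) (hS : k ^ n < S.card) :
    ∃ j : ℕ, 1 ≤ j ∧ j ≤ n ∧ ∃ s : Fin (k + 1) → (Fin n → Fin (k + 1)), Function.Injective s ∧
      ∀ i, s i ∈ S ∧
      (lam - 1) * |tpos lam V n (s i) - tpos lam V n (s 0) - lam ^ j * (V i - V 0)| ≤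
        2 * B * lam ^ j := by
  classical
  induction n with
  | zero =>
    exfalso
    have h1 : S.card ≤ 1 := by
      have := Finset.card_le_univ S
      simpa using this
    rw [pow_zero] at hS
    omega
  | succ n ih =>
    set F : Fin (k + 1) → Finset (Fin n → Fin (k + 1)) := fun i =>
      univ.filter (fun t => (Fin.cons i t : Fin (n + 1) → Fin (k + 1)) ∈ S) with hF
    have hcard : S.card = ∑ i, (F i).card := by
      have h1 : S = univ.biUnion (fun i => (F i).image
          (fun t => (Fin.cons i t : Fin (n + 1) → Fin (k + 1)))) := by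
        ext s
        simp only [mem_biUnion, mem_univ, true_and, mem_image, hF, mem_filter]
        constructor
        · intro hs
          refine ⟨s 0, Fin.tail s, ?_, Fin.cons_self_tail s⟩
          rw [Fin.cons_self_tail]; exact hs
        · rintro ⟨i, t, ht, rfl⟩
          exact ht
      conv_lhs => rw [h1]
      rw [card_biUnion]
      · refine sum_congr rfl (fun i _ => ?_)
        apply card_image_of_injective
        intro t t' h
        have := congrArg Fin.tail h
        simpa [Fin.tail_cons] using this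
      · intro i _ i' _ hne
        rw [Function.onFun, disjoint_left]
        rintro s hs hs'
        obtain ⟨t, _, rfl⟩ := mem_image.1 hs
        obtain ⟨t', _, ht'⟩ := mem_image.1 hs'
        have := congrFun ht' 0
        simp only [Fin.cons_zero] at this
        exact hne this.symm
    by_cases hall : ∀ i, (F i).Nonempty
    · choose t ht using hall
      refine ⟨n + 1, by omega, le_rfl, fun i => Fin.cons i (t i), ?_, fun i => ⟨?_, ?_⟩⟩
      · intro i i' h
        have := congrFun h 0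
        simpa using this
      · have := ht i
        rw [hF, mem_filter] at this
        exact this.2
      · have e : ∀ i, tpos lam V (n + 1) (Fin.cons i (t i)) =
            lam ^ (n + 1) * V i + tpos lam V n (t i) := fun i => rfl
        rw [e, e]
        have b1 := tpos_bound hlam hV n (t i)
        have b2 := tpos_bound hlam hV n (t 0)
        have e2 : lam ^ (n + 1) * V i + tpos lam V n (t i) -
            (lam ^ (n + 1) * V 0 + tpos lam V n (t 0)) - lam ^ (n + 1) * (V i - V 0) =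
            tpos lam V n (t i) - tpos lam V n (t 0) := by ring
        rw [e2]
        have b3 := abs_sub (tpos lam V n (t i)) (tpos lam V n (t 0))
        calc (lam - 1) * |tpos lam V n (t i) - tpos lam V n (t 0)|
            ≤ (lam - 1) * (|tpos lam V n (t i)| + |tpos lam V n (t 0)|) :=
              mul_le_mul_of_nonneg_left b3 (by linarith)
          _ = (lam - 1) * |tpos lam V n (t i)| + (lam - 1) * |tpos lam V n (t 0)| := by ring
          _ ≤ B * lam ^ (n + 1) + B * lam ^ (n + 1) := add_le_add b1 b2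
          _ = _ := by ring
    · push Not at hall
      obtain ⟨i₀, hi₀⟩ := hall
      have : ∃ i, k ^ n < (F i).card := by
        by_contra hcon
        push Not at hcon
        have h1 : ∑ i, (F i).card ≤ ∑ i ∈ univ.erase i₀, k ^ n := by
          rw [← Finset.add_sum_erase univ (fun i => (F i).card) (mem_univ i₀), hi₀, card_empty,
            zero_add]
          exact sum_le_sum (fun i _ => hcon i)
        rw [sum_const, card_erase_of_mem (mem_univ _), card_univ, Fintype.card_fin,
          Nat.add_sub_cancel, smul_eq_mul, ← hcard] at h1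
        rw [pow_succ, mul_comm] at hS
        omega
      obtain ⟨i, hi⟩ := this
      obtain ⟨j, hj1, hjn, s, hinj, hs⟩ := ih (F i) hi
      refine ⟨j, hj1, by omega, fun i' => Fin.cons i (s i'), ?_, fun i' => ⟨?_, ?_⟩⟩
      · intro a b h
        apply hinj
        have := congrArg Fin.tail h
        simpa [Fin.tail_cons] using this
      · have := (hs i').1
        rw [hF, mem_filter] at this
        exact this.2
      · have e : ∀ t, tpos lam V (n + 1) (Fin.cons i t) =
            lam ^ (n + 1) * V i + tpos lam V n t := fun t => rfl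
        rw [e, e]
        have e2 : lam ^ (n + 1) * V i + tpos lam V n (s i') -
            (lam ^ (n + 1) * V i + tpos lam V n (s 0)) - lam ^ j * (V i' - V 0) =
            tpos lam V n (s i') - tpos lam V n (s 0) - lam ^ j * (V i' - V 0) := by ring
        rw [e2]
        exact (hs i').2

/-- good tuples of every shape -/
theorem every_shape (hQ : Quarter) (k : ℕ) (δ : ℝ) (hδ : 0 < δ) : ∃ C : ℕ,
    ∀ (q : ℕ) (r : ℤ), 1 ≤ q → IsCoprime r (q : ℤ) → ∀ (H : ℕ), 1 ≤ H →
    ∀ v : Fin k → ℤ, (∀ i, |v i| ≤ H) → ∃ d : ℕ, 1 ≤ d ∧ d ≤ C ∧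
      ∃ a : Fin k → ℤ, Function.Injective a ∧ (∀ i, a i ≠ 0) ∧ Good q r a ∧
        ∀ i, |(a i : ℝ) - d * v i| ≤ δ * d * H := by
  classical
  -- the depth
  obtain ⟨n, hn⟩ : ∃ n : ℕ, 4 * k ^ n < (k + 1) ^ n := by
    rcases Nat.eq_zero_or_pos k with rfl | hk
    · exact ⟨1, by norm_num⟩
    have h1 : (1 : ℝ) < ((k : ℝ) + 1) / k := by
      rw [lt_div_iff₀ (by exact_mod_cast hk)]
      linarith
    obtain ⟨n, hn⟩ := pow_unbounded_of_one_lt 4 h1
    refine ⟨n, ?_⟩
    rw [div_pow, lt_div_iff₀ (by positivity)] at hn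
    exact_mod_cast hn
  obtain ⟨Q, hQ1, hcl⟩ := clusters hQ ((k + 1) ^ n)
  obtain ⟨l, hl⟩ := exists_nat_ge (4 / δ + 2)
  have hl2 : (2 : ℝ) ≤ l := by
    have : 0 < 4 / δ := by positivity
    linarith
  have hl2' : 2 ≤ l := by exact_mod_cast hl2
  refine ⟨Q * l ^ n, fun q r hq hqr H hH v hv => ?_⟩
  set V : Fin (k + 1) → ℤ := Fin.cons 0 v with hV
  have hVB : ∀ i, |V i| ≤ (H : ℤ) := by
    intro i
    refine Fin.cases ?_ (fun i => ?_) i
    · rw [hV, Fin.cons_zero, abs_zero]; positivity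
    · rw [hV, Fin.cons_succ]; exact hv i
  have hlam : (2 : ℤ) ≤ (l : ℤ) := by exact_mod_cast hl2'
  have hcardeq : Fintype.card (Fin n → Fin (k + 1)) = (k + 1) ^ n := by simp
  set e : (Fin n → Fin (k + 1)) ≃ Fin ((k + 1) ^ n) := Fintype.equivFinOfCardEq hcardeq with he
  obtain ⟨S, h, hS, hinj, hpos, hinf⟩ := hcl q r hq hqr (fun g => tpos (l : ℤ) V n (e.symm g))
  obtain ⟨j, hj1, hjn, s, hsinj, hs⟩ := tree hlam hVB n (S.image e.symm) (by
    rw [card_image_of_injective _ e.symm.injective]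
    omega)
  have hsS : ∀ i, e (s i) ∈ S := by
    intro i
    obtain ⟨g, hg, hg'⟩ := mem_image.1 (hs i).1
    rw [← hg', Equiv.apply_symm_apply]
    exact hg
  refine ⟨Q * l ^ j, Nat.mul_pos hQ1 (by positivity), Nat.mul_le_mul_left _
    (Nat.pow_le_pow_right (by omega) hjn), fun i => h (e (s i.succ)) - h (e (s 0)), ?_, ?_, ?_, ?_⟩
  · intro a b hab
    have h1 : h (e (s a.succ)) = h (e (s b.succ)) := sub_left_injective hab
    exact Fin.succ_injective _ (hsinj (e.injective (hinj h1)))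
  · intro i hi
    have h1 : h (e (s i.succ)) = h (e (s 0)) := sub_eq_zero.1 hi
    exact (Fin.succ_ne_zero i) (hsinj (e.injective (hinj h1)))
  · exact good_of_mem hq hinf (e (s 0)) (hsS 0) (fun i => e (s i.succ)) (fun i => hsS _)
  · intro i
    have h0 := hpos (e (s 0))
    have h1 := hpos (e (s i.succ))
    rw [Equiv.symm_apply_apply] at h0 h1
    have h2 := (hs i.succ).2
    have hVi : V i.succ - V 0 = v i := by
      rw [hV, Fin.cons_succ, Fin.cons_zero, sub_zero]
    rw [hVi] at h2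
    set P1 := tpos (l : ℤ) V n (s i.succ) with hP1
    set P0 := tpos (l : ℤ) V n (s 0) with hP0
    -- real versions
    have h2r : ((l : ℝ) - 1) * |(P1 : ℝ) - P0 - (l : ℝ) ^ j * v i| ≤ 2 * H * (l : ℝ) ^ j := by
      exact_mod_cast h2
    have hX : |(P1 : ℝ) - P0 - (l : ℝ) ^ j * v i| ≤ δ / 2 * H * (l : ℝ) ^ j := by
      have hl4 : 4 / δ ≤ (l : ℝ) - 1 := by linarith
      have hl4' : 4 ≤ δ * ((l : ℝ) - 1) := by
        rw [div_le_iff₀ hδ] at hl4
        linarith
      have hpos1 : 0 < (l : ℝ) - 1 := by linarith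
      have hHl : 0 ≤ (H : ℝ) * (l : ℝ) ^ j := by positivity
      refine le_of_mul_le_mul_left (h2r.trans ?_) hpos1
      nlinarith
    have hA : |((h (e (s i.succ)) - h (e (s 0)) : ℤ) : ℝ) - Q * ((P1 : ℝ) - P0)| ≤ Q := by
      have q0 : (Q : ℝ) * P0 ≤ h (e (s 0)) ∧ (h (e (s 0)) : ℝ) < Q * P0 + Q := by
        exact ⟨by exact_mod_cast h0.1, by exact_mod_cast h0.2⟩
      have q1 : (Q : ℝ) * P1 ≤ h (e (s i.succ)) ∧ (h (e (s i.succ)) : ℝ) < Q * P1 + Q := by
        exact ⟨by exact_mod_cast h1.1, by exact_mod_cast h1.2⟩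
      rw [abs_le]
      push_cast
      constructor <;> nlinarith [q0.1, q0.2, q1.1, q1.2]
    have hlj : (1 : ℝ) ≤ δ / 2 * H * (l : ℝ) ^ j := by
      have h3 : (l : ℝ) ≤ (l : ℝ) ^ j := by
        calc (l : ℝ) = (l : ℝ) ^ 1 := (pow_one _).symm
          _ ≤ (l : ℝ) ^ j := pow_le_pow_right₀ (by linarith) hj1
      have h4 : (1 : ℝ) ≤ H := by exact_mod_cast hH
      have h5 : 2 ≤ δ * (l : ℝ) := by
        have h6 : 4 / δ ≤ (l : ℝ) := by linarith
        rw [div_le_iff₀ hδ] at h6
        linarith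
      have h7 : (l : ℝ) ≤ H * (l : ℝ) ^ j := by nlinarith
      nlinarith
    have hQr : (1 : ℝ) ≤ Q := by exact_mod_cast hQ1
    have hcomb : |((h (e (s i.succ)) - h (e (s 0)) : ℤ) : ℝ) - Q * (l : ℝ) ^ j * v i| ≤
        Q + Q * (δ / 2 * H * (l : ℝ) ^ j) := by
      have e1 : ((h (e (s i.succ)) - h (e (s 0)) : ℤ) : ℝ) - Q * (l : ℝ) ^ j * v i =
          (((h (e (s i.succ)) - h (e (s 0)) : ℤ) : ℝ) - Q * ((P1 : ℝ) - P0)) +
          Q * ((P1 : ℝ) - P0 - (l : ℝ) ^ j * v i) := by ring
      rw [e1]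
      refine (abs_add_le _ _).trans (add_le_add hA ?_)
      rw [abs_mul, abs_of_nonneg (by positivity : (0 : ℝ) ≤ Q)]
      exact mul_le_mul_of_nonneg_left hX (by positivity)
    push_cast at hcomb ⊢
    refine hcomb.trans ?_
    have h8 : (Q : ℝ) ≤ Q * (δ / 2 * H * (l : ℝ) ^ j) := by nlinarith
    calc (Q : ℝ) + Q * (δ / 2 * H * (l : ℝ) ^ j) ≤ Q * (δ / 2 * H * (l : ℝ) ^ j) +
          Q * (δ / 2 * H * (l : ℝ) ^ j) := by linarith
      _ = δ * (Q * (l : ℝ) ^ j) * H := by ring

end Pool.Agent.H602R3.Tup
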